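import Pool.Agent.H83R3.GBU.Ord

set_option autoImplicit false
set_option linter.unusedSectionVars false

namespace Pool.Agent.H83R3.GBU

variable {K : Type} [Nonempty K] {M : Mod K} {G : K → Prop}

/-- the urelement `u` occurs in the transitive closure of `x` -/
def InK (M : Mod K) (u x : K) : Prop := M.U u ∧ ∀ d, Tr M d → M.E x d → M.E u d

/-- all urelements in the transitive closure of `x` belong to `e` -/
def InV (M : Mod K) (e x : K) : Prop := ∀ u, InK M u x → M.E u e

theorem Dfn.inK {s t : (ℕ → K) → K} (hs : DT M.E M.U G s) (ht : DT M.E M.U G t) :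
    Dfn M.E M.U G (fun v => InK M (s v) (t v)) := by
  unfold InK
  have h1 := hs.shift
  have h3 := ht.shift
  (try beta_reduce); repeat' (first
    | with_reducible apply Dfn.bad
    | with_reducible apply Dfn.bij
    | with_reducible apply Dfn.od
    | with_reducible apply Dfn.ind
    | with_reducible apply Dfn.tr
    | with_reducible apply DT.ap
    | with_reducible apply DT.bu
    | with_reducible apply DT.pw
    | with_reducible apply DT.un
    | with_reducible apply DT.op
    | with_reducible apply DT.pr
    | with_reducible apply DT.sOf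
    | with_reducible apply DT.the
    | with_reducible exact DT.var _
    | with_reducible exact DT.const _
    | with_reducible apply Dfn.all
    | with_reducible apply Dfn.ex
    | with_reducible apply Dfn.exu
    | with_reducible apply Dfn.and
    | with_reducible apply Dfn.or
    | with_reducible apply Dfn.iff
    | with_reducible apply Dfn.not
    | with_reducible apply Dfn.imp
    | with_reducible apply Dfn.mem
    | with_reducible apply Dfn.eq
    | with_reducible apply Dfn.ur
    | apply_assumption
    | with_reducible exact Dfn.prop _)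


theorem Dfn.inV {s t : (ℕ → K) → K} (hs : DT M.E M.U G s) (ht : DT M.E M.U G t) :
    Dfn M.E M.U G (fun v => InV M (s v) (t v)) := by
  unfold InV
  have h1 := hs.shift
  have h3 := ht.shift
  (try beta_reduce); repeat' (first
    | with_reducible apply Dfn.inK
    | with_reducible apply Dfn.bad
    | with_reducible apply Dfn.bij
    | with_reducible apply Dfn.od
    | with_reducible apply Dfn.ind
    | with_reducible apply Dfn.tr
    | with_reducible apply DT.ap
    | with_reducible apply DT.bu
    | with_reducible apply DT.pw
    | with_reducible apply DT.un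
    | with_reducible apply DT.op
    | with_reducible apply DT.pr
    | with_reducible apply DT.sOf
    | with_reducible apply DT.the
    | with_reducible exact DT.var _
    | with_reducible exact DT.const _
    | with_reducible apply Dfn.all
    | with_reducible apply Dfn.ex
    | with_reducible apply Dfn.exu
    | with_reducible apply Dfn.and
    | with_reducible apply Dfn.or
    | with_reducible apply Dfn.iff
    | with_reducible apply Dfn.not
    | with_reducible apply Dfn.imp
    | with_reducible apply Dfn.mem
    | with_reducible apply Dfn.eq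
    | with_reducible apply Dfn.ur
    | apply_assumption
    | with_reducible exact Dfn.prop _)


theorem InK.mono {u x y : K} (h : InK M u y) (hy : M.E y x) : InK M u x :=
  ⟨h.1, fun d hd hx => h.2 d hd (hd x hx y hy)⟩

theorem InK.self {u : K} (h : M.U u) : InK M u u := ⟨h, fun _ _ h => h⟩

theorem InK.ur {u x : K} (hx : M.U x) (h : InK M u x) : u = x := by
  have h1 := h.2 (pr M x x) (by
    intro z hz w hw
    have : z = x := by rcases mem_pr.1 hz with h1 | h1 <;> exact h1
    rw [this] at hw
    exact absurd hw (M.zf.urel x hx w)) (mem_pr.2 (Or.inl rfl))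
  rcases mem_pr.1 h1 with h1 | h1 <;> exact h1

theorem InK.set {u x : K} (hx : ¬ M.U x) (h : InK M u x) : ∃ y, M.E y x ∧ InK M u y := by
  obtain ⟨t, ht, hxt⟩ := exists_tr M x
  obtain ⟨d, _, hd⟩ := M.sep (fun z => z = x ∨ ∃ y, M.E y x ∧ ∀ d, Tr M d → M.E y d → M.E z d)
    (by (try beta_reduce); repeat' (first
      | with_reducible apply Dfn.inV
      | with_reducible apply Dfn.inK
      | with_reducible apply Dfn.bad
      | with_reducible apply Dfn.bij
      | with_reducible apply Dfn.od
      | with_reducible apply Dfn.ind
      | with_reducible apply Dfn.tr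
      | with_reducible apply DT.ap
      | with_reducible apply DT.bu
      | with_reducible apply DT.pw
      | with_reducible apply DT.un
      | with_reducible apply DT.op
      | with_reducible apply DT.pr
      | with_reducible apply DT.sOf
      | with_reducible apply DT.the
      | with_reducible exact DT.var _
      | with_reducible exact DT.const _
      | with_reducible apply Dfn.all
      | with_reducible apply Dfn.ex
      | with_reducible apply Dfn.exu
      | with_reducible apply Dfn.and
      | with_reducible apply Dfn.or
      | with_reducible apply Dfn.iff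
      | with_reducible apply Dfn.not
      | with_reducible apply Dfn.imp
      | with_reducible apply Dfn.mem
      | with_reducible apply Dfn.eq
      | with_reducible apply Dfn.ur
      | apply_assumption
      | with_reducible exact Dfn.prop _)) t
  have hdx : M.E x d := (hd x).2 ⟨hxt, Or.inl rfl⟩
  have hdtr : Tr M d := by
    intro z hz w hw
    obtain ⟨hzt, h1⟩ := (hd z).1 hz
    refine (hd w).2 ⟨ht z hzt w hw, Or.inr ?_⟩
    rcases h1 with rfl | ⟨y, hy, hyz⟩
    · exact ⟨w, hw, fun _ _ h => h⟩
    · exact ⟨y, hy, fun d' hd' hyd' => hd' z (hyz d' hd' hyd') w hw⟩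
  obtain ⟨_, h1⟩ := (hd u).1 (h.2 d hdtr hdx)
  rcases h1 with rfl | ⟨y, hy, hyz⟩
  · exact absurd h.1 hx
  · exact ⟨y, hy, h.1, hyz⟩

theorem InV.mem {e x y : K} (h : InV M e x) (hy : M.E y x) : InV M e y :=
  fun u hu => h u (hu.mono hy)

theorem InV.set {e x : K} (hx : ¬ M.U x) (h : ∀ y, M.E y x → InV M e y) : InV M e x := by
  intro u hu
  obtain ⟨y, hy, huy⟩ := hu.set hx
  exact h y hy u huy

theorem InV.ur {e x : K} (hx : M.U x) : InV M e x ↔ M.E x e := by
  constructor
  · exact fun h => h x (InK.self hx)
  · intro h u hu
    rw [hu.ur hx]; exact h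

theorem InV.mono {e e' x : K} (h : InV M e x) (he : ∀ u, M.E u e → M.E u e') : InV M e' x :=
  fun u hu => he u (h u hu)

theorem inV_pr {e x y : K} : InV M e (pr M x y) ↔ (InV M e x ∧ InV M e y) := by
  constructor
  · exact fun h => ⟨h.mem (mem_pr.2 (Or.inl rfl)), h.mem (mem_pr.2 (Or.inr rfl))⟩
  · rintro ⟨h1, h2⟩
    refine InV.set (pr_spec x y).1 fun z hz => ?_
    rcases mem_pr.1 hz with rfl | rfl <;> assumption

theorem inV_op {e x y : K} : InV M e (op M x y) ↔ (InV M e x ∧ InV M e y) := by
  unfold op
  rw [inV_pr, inV_pr, inV_pr]
  tauto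

theorem inV_emp (e : K) : InV M e (emp M) :=
  InV.set emp_spec.1 fun y hy => absurd hy (emp_spec.2 y)

theorem inV_bu {e x y : K} (hx : InV M e x) (hy : InV M e y) : InV M e (bu M x y) := by
  refine InV.set (bu_ur x y) fun z hz => ?_
  rcases mem_bu.1 hz with h | h
  · exact hx.mem h
  · exact hy.mem h

theorem exists_ker (x : K) : ∃ k, ¬ M.U k ∧ ∀ u, M.E u k ↔ InK M u x := by
  obtain ⟨t, ht, hxt⟩ := exists_tr M x
  exact M.ofSub (by (try beta_reduce); repeat' (first
    | with_reducible apply Dfn.inV
    | with_reducible apply Dfn.inK
    | with_reducible apply Dfn.bad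
    | with_reducible apply Dfn.bij
    | with_reducible apply Dfn.od
    | with_reducible apply Dfn.ind
    | with_reducible apply Dfn.tr
    | with_reducible apply DT.ap
    | with_reducible apply DT.bu
    | with_reducible apply DT.pw
    | with_reducible apply DT.un
    | with_reducible apply DT.op
    | with_reducible apply DT.pr
    | with_reducible apply DT.sOf
    | with_reducible apply DT.the
    | with_reducible exact DT.var _
    | with_reducible exact DT.const _
    | with_reducible apply Dfn.all
    | with_reducible apply Dfn.ex
    | with_reducible apply Dfn.exu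
    | with_reducible apply Dfn.and
    | with_reducible apply Dfn.or
    | with_reducible apply Dfn.iff
    | with_reducible apply Dfn.not
    | with_reducible apply Dfn.imp
    | with_reducible apply Dfn.mem
    | with_reducible apply Dfn.eq
    | with_reducible apply Dfn.ur
    | apply_assumption
    | with_reducible exact Dfn.prop _)) t fun u hu => hu.2 t ht hxt

/-- definable involutive automorphisms -/
structure Auto (M : Mod K) (π : K → K) : Prop where
  dfn : D M (fun v => π (v 0) = v 1)
  inv : ∀ x, π (π x) = x
  mem : ∀ x y, M.E (π x) (π y) ↔ M.E x y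
  ur : ∀ x, M.U (π x) ↔ M.U x

namespace Auto

variable {π : K → K} (h : Auto M π)

include h

theorem inj {x y : K} (hxy : π x = π y) : x = y := by
  rw [← h.inv x, hxy, h.inv]

theorem mem' (x y : K) : M.E x (π y) ↔ M.E (π x) y := by
  rw [← h.mem x (π y), h.inv]

theorem pr (x y : K) : π (pr M x y) = GBU.pr M (π x) (π y) := by
  apply pr_unique
  intro w
  rw [h.mem', mem_pr]
  constructor
  · rintro (h1 | h1)
    · left; rw [← h1, h.inv]
    · right; rw [← h1, h.inv]
  · rintro (h1 | h1)
    · left; rw [h1, h.inv]
    · right; rw [h1, h.inv]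

theorem op (x y : K) : π (op M x y) = GBU.op M (π x) (π y) := by
  unfold GBU.op
  rw [h.pr, h.pr, h.pr]

theorem bu (x y : K) : π (bu M x y) = GBU.bu M (π x) (π y) := by
  refine M.ext (fun h1 => bu_ur x y ((h.ur _).1 h1)) (bu_ur _ _) fun z => ?_
  rw [h.mem', mem_bu, mem_bu, h.mem', h.mem']

theorem tr {d : K} (hd : Tr M d) : Tr M (π d) := by
  intro x hx y hy
  rw [h.mem'] at hx ⊢
  exact hd _ hx _ ((h.mem y x).2 hy)

theorem inK {u x : K} (hu : InK M u x) : InK M (π u) (π x) := by
  refine ⟨(h.ur u).2 hu.1, fun d hd hx => ?_⟩
  rw [← h.mem'] at hx ⊢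
  exact hu.2 _ (h.tr hd) hx

theorem fix {e x : K} (he : ∀ u, M.E u e → π u = u) (hx : InV M e x) : π x = x := by
  have hπ := DT.cl1 h.dfn
  revert hx
  refine M.ind (P := fun x => InV M e x → π x = x) (by (try beta_reduce); repeat' (first
    | with_reducible apply Dfn.inV
    | with_reducible apply Dfn.inK
    | with_reducible apply Dfn.bad
    | with_reducible apply Dfn.bij
    | with_reducible apply Dfn.od
    | with_reducible apply Dfn.ind
    | with_reducible apply Dfn.tr
    | with_reducible apply DT.ap
    | with_reducible apply DT.bu
    | with_reducible apply DT.pw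
    | with_reducible apply DT.un
    | with_reducible apply DT.op
    | with_reducible apply DT.pr
    | with_reducible apply DT.sOf
    | with_reducible apply DT.the
    | with_reducible exact DT.var _
    | with_reducible exact DT.const _
    | with_reducible apply Dfn.all
    | with_reducible apply Dfn.ex
    | with_reducible apply Dfn.exu
    | with_reducible apply Dfn.and
    | with_reducible apply Dfn.or
    | with_reducible apply Dfn.iff
    | with_reducible apply Dfn.not
    | with_reducible apply Dfn.imp
    | with_reducible apply Dfn.mem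
    | with_reducible apply Dfn.eq
    | with_reducible apply Dfn.ur
    | apply_assumption
    | with_reducible exact Dfn.prop _)) ?_ x
  intro x ih hx
  by_cases hux : M.U x
  · exact he x ((InV.ur hux).1 hx)
  · refine M.ext (fun h1 => hux ((h.ur _).1 h1)) hux fun z => ?_
    rw [h.mem']
    constructor
    · intro hz
      have h1 := ih _ hz (hx.mem hz)
      rw [h.inv] at h1
      rw [h1]; exact hz
    · intro hz
      rw [ih z hz (hx.mem hz)]; exact hz

end Auto

/-- the automorphism exchanging `C` with its copy -/
theorem exists_swap {C f : K} (hC : ∀ u, M.E u C → M.U u)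
    (hf : ∀ u, M.E u C → M.U (ap M f u) ∧ ¬ M.E (ap M f u) C)
    (hinj : ∀ u u', M.E u C → M.E u' C → ap M f u = ap M f u' → u = u') :
    ∃ π, Auto M π ∧ (∀ u, M.E u C → π u = ap M f u) ∧
      ∀ u, M.U u → ¬ M.E u C → (¬ ∃ w, M.E w C ∧ ap M f w = u) → π u = u := by
  classical
  let σ : K → K := fun u => the (fun y => (M.E u C ∧ y = ap M f u) ∨
    (¬ M.E u C ∧ M.E y C ∧ ap M f y = u) ∨
    (¬ M.E u C ∧ (¬ ∃ w, M.E w C ∧ ap M f w = u) ∧ y = u))
  have s1 : ∀ u, M.E u C → σ u = ap M f u := by
    intro u hu
    apply the_eq
    · exact Or.inl ⟨hu, rfl⟩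
    · rintro c (h1 | h1 | h1)
      · exact h1.2
      · exact absurd hu h1.1
      · exact absurd hu h1.1
  have s2 : ∀ u, M.E u C → σ (ap M f u) = u := by
    intro u hu
    have hn := (hf u hu).2
    apply the_eq
    · exact Or.inr (Or.inl ⟨hn, hu, rfl⟩)
    · rintro c (h1 | h1 | h1)
      · exact absurd h1.1 hn
      · exact hinj c u h1.2.1 hu h1.2.2
      · exact absurd ⟨u, hu, rfl⟩ h1.2.1
  have s3 : ∀ u, ¬ M.E u C → (¬ ∃ w, M.E w C ∧ ap M f w = u) → σ u = u := by
    intro u hu hw
    apply the_eq
    · exact Or.inr (Or.inr ⟨hu, hw, rfl⟩)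
    · rintro c (h1 | h1 | h1)
      · exact absurd h1.1 hu
      · exact absurd ⟨c, h1.2⟩ hw
      · exact h1.2.2
  have s4 : ∀ u, M.U u → M.U (σ u) ∧ σ (σ u) = u := by
    intro u hu
    by_cases h1 : M.E u C
    · rw [s1 u h1]
      exact ⟨(hf u h1).1, s2 u h1⟩
    · by_cases h2 : ∃ w, M.E w C ∧ ap M f w = u
      · obtain ⟨w, hw, rfl⟩ := h2
        rw [s2 w hw]
        exact ⟨hC w hw, s1 w hw⟩
      · rw [s3 u h1 h2]
        exact ⟨hu, s3 u h1 h2⟩
  let F : K → K → K := fun x g => the (fun y => (M.U x ∧ y = σ x) ∨
    (¬ M.U x ∧ y = sOf M (fun z => ∃ m, M.E (op M m z) g)))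
  have hσ : D M (fun v => σ (v 0) = v 1) := by
    simp only [σ]
    (try beta_reduce); repeat' (first
      | with_reducible apply Dfn.inV
      | with_reducible apply Dfn.inK
      | with_reducible apply Dfn.bad
      | with_reducible apply Dfn.bij
      | with_reducible apply Dfn.od
      | with_reducible apply Dfn.ind
      | with_reducible apply Dfn.tr
      | with_reducible apply DT.ap
      | with_reducible apply DT.bu
      | with_reducible apply DT.pw
      | with_reducible apply DT.un
      | with_reducible apply DT.op
      | with_reducible apply DT.pr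
      | with_reducible apply DT.sOf
      | with_reducible apply DT.the
      | with_reducible exact DT.var _
      | with_reducible exact DT.const _
      | with_reducible apply Dfn.all
      | with_reducible apply Dfn.ex
      | with_reducible apply Dfn.exu
      | with_reducible apply Dfn.and
      | with_reducible apply Dfn.or
      | with_reducible apply Dfn.iff
      | with_reducible apply Dfn.not
      | with_reducible apply Dfn.imp
      | with_reducible apply Dfn.mem
      | with_reducible apply Dfn.eq
      | with_reducible apply Dfn.ur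
      | apply_assumption
      | with_reducible exact Dfn.prop _)
  have hF : D M (fun v => F (v 0) (v 1) = v 2) := by
    have hσ' := DT.cl1 hσ
    simp only [F]
    (try beta_reduce); repeat' (first
      | with_reducible apply Dfn.inV
      | with_reducible apply Dfn.inK
      | with_reducible apply Dfn.bad
      | with_reducible apply Dfn.bij
      | with_reducible apply Dfn.od
      | with_reducible apply Dfn.ind
      | with_reducible apply Dfn.tr
      | with_reducible apply DT.ap
      | with_reducible apply DT.bu
      | with_reducible apply DT.pw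
      | with_reducible apply DT.un
      | with_reducible apply DT.op
      | with_reducible apply DT.pr
      | with_reducible apply DT.sOf
      | with_reducible apply DT.the
      | with_reducible exact DT.var _
      | with_reducible exact DT.const _
      | with_reducible apply Dfn.all
      | with_reducible apply Dfn.ex
      | with_reducible apply Dfn.exu
      | with_reducible apply Dfn.and
      | with_reducible apply Dfn.or
      | with_reducible apply Dfn.iff
      | with_reducible apply Dfn.not
      | with_reducible apply Dfn.imp
      | with_reducible apply Dfn.mem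
      | with_reducible apply Dfn.eq
      | with_reducible apply Dfn.ur
      | apply_assumption
      | with_reducible exact Dfn.prop _)
  have hrec := Dfn.recH hF
  have r1 : ∀ u, M.U u → recH M F u = σ u := by
    intro u hu
    rw [rec_eq hF u]
    apply the_eq
    · exact Or.inl ⟨hu, rfl⟩
    · rintro c (h1 | h1)
      · exact h1.2
      · exact absurd hu h1.1
  have r2 : ∀ x, ¬ M.U x → ¬ M.U (recH M F x) ∧
      ∀ z, M.E z (recH M F x) ↔ ∃ y, M.E y x ∧ recH M F y = z := by
    intro x hx
    have h1 : recH M F x = sOf M (fun z => ∃ m, M.E (op M m z) (res M (recH M F) x)) := by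
      conv_lhs => rw [rec_eq hF x]
      apply the_eq
      · exact Or.inr ⟨hx, rfl⟩
      · rintro c (h1 | h1)
        · exact absurd h1.1 hx
        · exact h1.2
    have h2 : (fun z => ∃ m, M.E (op M m z) (res M (recH M F) x)) =
        (fun z => ∃ y, M.E y x ∧ recH M F y = z) := by
      funext z
      refine propext ?_
      constructor
      · rintro ⟨m, hm⟩
        obtain ⟨y, hy, h3⟩ := ((mem_res hrec x).2 _).1 hm
        obtain ⟨rfl, rfl⟩ := op_inj h3
        exact ⟨m, hy, rfl⟩
      · rintro ⟨y, hy, rfl⟩
        exact ⟨y, ((mem_res hrec x).2 _).2 ⟨y, hy, rfl⟩⟩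
    rw [h1, h2]
    exact sOf_spec (M.image hrec x)
  have hrec' := DT.cl1 hrec
  have r3 : ∀ x, M.U (recH M F x) ↔ M.U x := by
    intro x
    by_cases hx : M.U x
    · rw [r1 x hx]
      exact ⟨fun _ => hx, fun _ => (s4 x hx).1⟩
    · exact ⟨fun h => absurd h (r2 x hx).1, fun h => absurd h hx⟩
  have r4 : ∀ x, recH M F (recH M F x) = x := by
    refine M.ind (by (try beta_reduce); repeat' (first
      | with_reducible apply Dfn.inV
      | with_reducible apply Dfn.inK
      | with_reducible apply Dfn.bad
      | with_reducible apply Dfn.bij
      | with_reducible apply Dfn.od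
      | with_reducible apply Dfn.ind
      | with_reducible apply Dfn.tr
      | with_reducible apply DT.ap
      | with_reducible apply DT.bu
      | with_reducible apply DT.pw
      | with_reducible apply DT.un
      | with_reducible apply DT.op
      | with_reducible apply DT.pr
      | with_reducible apply DT.sOf
      | with_reducible apply DT.the
      | with_reducible exact DT.var _
      | with_reducible exact DT.const _
      | with_reducible apply Dfn.all
      | with_reducible apply Dfn.ex
      | with_reducible apply Dfn.exu
      | with_reducible apply Dfn.and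
      | with_reducible apply Dfn.or
      | with_reducible apply Dfn.iff
      | with_reducible apply Dfn.not
      | with_reducible apply Dfn.imp
      | with_reducible apply Dfn.mem
      | with_reducible apply Dfn.eq
      | with_reducible apply Dfn.ur
      | apply_assumption
      | with_reducible exact Dfn.prop _)) ?_
    intro x ih
    by_cases hx : M.U x
    · rw [r1 x hx, r1 _ (s4 x hx).1]
      exact (s4 x hx).2
    · refine M.ext (fun h => hx ((r3 x).1 ((r3 _).1 h))) hx fun z => ?_
      rw [(r2 _ (r2 x hx).1).2 z]
      constructor
      · rintro ⟨y, hy, rfl⟩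
        obtain ⟨w, hw, rfl⟩ := ((r2 x hx).2 y).1 hy
        rw [ih w hw]; exact hw
      · intro hz
        exact ⟨recH M F z, ((r2 x hx).2 _).2 ⟨z, hz, rfl⟩, ih z hz⟩
  have r5 : ∀ x y, M.E x y → M.E (recH M F x) (recH M F y) := by
    intro x y hxy
    exact ((r2 y (M.not_ur hxy)).2 _).2 ⟨x, hxy, rfl⟩
  refine ⟨recH M F, ⟨hrec, r4, fun x y => ⟨fun hxy => ?_, r5 x y⟩, r3⟩, ?_, ?_⟩
  · have := r5 _ _ hxy
    rw [r4, r4] at this
    exact this
  · intro u hu
    rw [r1 u (hC u hu), s1 u hu]
  · intro u hu h1 h2
    rw [r1 u hu, s3 u h1 h2]

end Pool.Agent.H83R3.GBU
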