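import Pool.Agent.H83R3.GBU.Defs

set_option autoImplicit false

namespace Pool.Agent.H83R3.GBU

variable {K : Type} {E : K → K → Prop} {U : K → Prop} {C : ℕ → K → Prop}

@[simp] theorem cons_zero (a : K) (v : ℕ → K) : cons a v 0 = a := rfl
@[simp] theorem cons_succ (a : K) (v : ℕ → K) (n : ℕ) : cons a v (n + 1) = v n := rfl

theorem cons_head_tail (v : ℕ → K) : cons (v 0) (fun n => v (n + 1)) = v := by
  funext n
  cases n <;> rfl

def lift (f : ℕ → ℕ) : ℕ → ℕ
  | 0 => 0
  | n + 1 => f n + 1

def rename : (ℕ → ℕ) → CFml → CFml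
  | f, .mem i j => .mem (f i) (f j)
  | f, .eq i j => .eq (f i) (f j)
  | f, .ur i => .ur (f i)
  | f, .cls i k => .cls (f i) k
  | _, .bot => .bot
  | f, .imp φ ψ => .imp (rename f φ) (rename f ψ)
  | f, .all φ => .all (rename (lift f) φ)

theorem sat_rename (φ : CFml) : ∀ (f : ℕ → ℕ) (v : ℕ → K),
    CSat E U C (rename f φ) v ↔ CSat E U C φ (fun n => v (f n)) := by
  induction φ with
  | mem i j => intro f v; exact Iff.rfl
  | eq i j => intro f v; exact Iff.rfl
  | ur i => intro f v; exact Iff.rfl
  | cls i k => intro f v; exact Iff.rfl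
  | bot => intro f v; exact Iff.rfl
  | imp φ ψ h1 h2 => intro f v; exact imp_congr (h1 f v) (h2 f v)
  | all φ h =>
    intro f v
    refine forall_congr' fun a => ?_
    rw [h]
    have : (fun n => cons a v (lift f n)) = cons a (fun n => v (f n)) := by
      funext n
      cases n <;> rfl
    rw [this]

/-- forgetting the class variables -/
def pure : CFml → Fml
  | .mem i j => .mem i j
  | .eq i j => .eq i j
  | .ur i => .ur i
  | .cls _ _ => .bot
  | .bot => .bot
  | .imp φ ψ => .imp (pure φ) (pure ψ)
  | .all φ => .all (pure φ)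

theorem sat_pure (φ : CFml) : ∀ v : ℕ → K,
    Sat E U (pure φ) v ↔ CSat E U (fun _ _ => False) φ v := by
  induction φ with
  | mem i j => intro v; exact Iff.rfl
  | eq i j => intro v; exact Iff.rfl
  | ur i => intro v; exact Iff.rfl
  | cls i k => intro v; exact Iff.rfl
  | bot => intro v; exact Iff.rfl
  | imp φ ψ h1 h2 => intro v; exact imp_congr (h1 v) (h2 v)
  | all φ h => intro v; exact forall_congr' fun a => h _

/-- bound on the free variables -/
def bd : CFml → ℕ
  | .mem i j => max i j + 1
  | .eq i j => max i j + 1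
  | .ur i => i + 1
  | .cls i _ => i + 1
  | .bot => 0
  | .imp φ ψ => max (bd φ) (bd ψ)
  | .all φ => bd φ - 1

theorem sat_congr (φ : CFml) : ∀ (v w : ℕ → K), (∀ n, n < bd φ → v n = w n) →
    (CSat E U C φ v ↔ CSat E U C φ w) := by
  induction φ with
  | mem i j =>
    intro v w h
    have h1 : v i = w i := h i (by simp only [bd]; omega)
    have h2 : v j = w j := h j (by simp only [bd]; omega)
    simp only [CSat, h1, h2]
  | eq i j =>
    intro v w h
    have h1 : v i = w i := h i (by simp only [bd]; omega)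
    have h2 : v j = w j := h j (by simp only [bd]; omega)
    simp only [CSat, h1, h2]
  | ur i =>
    intro v w h
    have h1 : v i = w i := h i (by simp only [bd]; omega)
    simp only [CSat, h1]
  | cls i k =>
    intro v w h
    have h1 : v i = w i := h i (by simp only [bd]; omega)
    simp only [CSat, h1]
  | bot => intro v w _; exact Iff.rfl
  | imp φ ψ h1 h2 =>
    intro v w h
    refine imp_congr (h1 v w fun n hn => h n ?_) (h2 v w fun n hn => h n ?_)
    · simp only [bd]; omega
    · simp only [bd]; omega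
  | all φ ih =>
    intro v w h
    refine forall_congr' fun a => ih _ _ fun n hn => ?_
    cases n with
    | zero => rfl
    | succ n => exact h n (by simp only [bd]; omega)

/-- code of a formula -/
def code : CFml → ℕ
  | .mem i j => 7 * Nat.pair i j
  | .eq i j => 7 * Nat.pair i j + 1
  | .ur i => 7 * i + 2
  | .cls i k => 7 * Nat.pair i k + 3
  | .bot => 4
  | .imp φ ψ => 7 * Nat.pair (code φ) (code ψ) + 5
  | .all φ => 7 * code φ + 6

theorem code_inj : Function.Injective code := by
  intro φ
  induction φ with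
  | mem i j =>
    intro ψ h
    cases ψ with
    | mem k l =>
      simp only [code] at h
      have : Nat.pair i j = Nat.pair k l := by omega
      obtain ⟨rfl, rfl⟩ := Nat.pair_eq_pair.1 this
      rfl
    | eq | ur | cls | bot | imp | all => simp only [code] at h; omega
  | eq i j =>
    intro ψ h
    cases ψ with
    | eq k l =>
      simp only [code] at h
      have : Nat.pair i j = Nat.pair k l := by omega
      obtain ⟨rfl, rfl⟩ := Nat.pair_eq_pair.1 this
      rfl
    | mem | ur | cls | bot | imp | all => simp only [code] at h; omega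
  | ur i =>
    intro ψ h
    cases ψ with
    | ur k =>
      simp only [code] at h
      have : i = k := by omega
      rw [this]
    | mem | eq | cls | bot | imp | all => simp only [code] at h; omega
  | cls i j =>
    intro ψ h
    cases ψ with
    | cls k l =>
      simp only [code] at h
      have : Nat.pair i j = Nat.pair k l := by omega
      obtain ⟨rfl, rfl⟩ := Nat.pair_eq_pair.1 this
      rfl
    | mem | eq | ur | bot | imp | all => simp only [code] at h; omega
  | bot =>
    intro ψ h
    cases ψ with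
    | bot => rfl
    | mem | eq | ur | cls | imp | all => simp only [code] at h; omega
  | imp φ ψ h1 h2 =>
    intro χ h
    cases χ with
    | imp a b =>
      simp only [code] at h
      have : Nat.pair (code φ) (code ψ) = Nat.pair (code a) (code b) := by omega
      obtain ⟨ha, hb⟩ := Nat.pair_eq_pair.1 this
      rw [h1 ha, h2 hb]
    | mem | eq | ur | cls | bot | all => simp only [code] at h; omega
  | all φ ih =>
    intro χ h
    cases χ with
    | all a =>
      simp only [code] at h
      have : code φ = code a := by omega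
      rw [ih this]
    | mem | eq | ur | cls | bot | imp => simp only [code] at h; omega

instance : Countable CFml := ⟨⟨code, code_inj⟩⟩

/-! ### Predicates definable with parameters in a fixed structure -/

def mix (v p : ℕ → K) : ℕ → K := fun n => if n % 2 = 0 then v (n / 2) else p (n / 2)

@[simp] theorem mix_even (v p : ℕ → K) (n : ℕ) : mix v p (2 * n) = v n := by
  unfold mix
  rw [if_pos (by omega)]
  congr 1
  omega

@[simp] theorem mix_odd (v p : ℕ → K) (n : ℕ) : mix v p (2 * n + 1) = p n := by
  unfold mix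
  rw [if_neg (by omega)]
  congr 1
  omega

/-- `R` is definable with parameters in the structure `(K, E, U, G)` -/
def Dfn (E : K → K → Prop) (U : K → Prop) (G : K → Prop) (R : (ℕ → K) → Prop) : Prop :=
  ∃ (φ : CFml) (p : ℕ → K), ∀ v, R v ↔ CSat E U (fun _ => G) φ (mix v p)

variable {G : K → Prop}

/-- definable terms -/
def DT (E : K → K → Prop) (U : K → Prop) (G : K → Prop) (t : (ℕ → K) → K) : Prop :=
  Dfn E U G (fun v => t (fun n => v (n + 1)) = v 0)

namespace Dfn

theorem congr {P Q : (ℕ → K) → Prop} (h1 : Dfn E U G P) (h : ∀ v, Q v ↔ P v) :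
    Dfn E U G Q := by
  obtain ⟨φ, p, hφ⟩ := h1
  exact ⟨φ, p, fun v => (h v).trans (hφ v)⟩

theorem ren (f : ℕ → ℕ) {R : (ℕ → K) → Prop} (h : Dfn E U G R) :
    Dfn E U G (fun v => R (fun n => v (f n))) := by
  obtain ⟨φ, p, hφ⟩ := h
  refine ⟨rename (fun n => if n % 2 = 0 then 2 * f (n / 2) else n) φ, p, fun v => ?_⟩
  refine (hφ _).trans ?_
  rw [sat_rename]
  have : (mix (fun n => v (f n)) p) =
      (fun n => mix v p (if n % 2 = 0 then 2 * f (n / 2) else n)) := by
    funext n
    rcases Nat.even_or_odd' n with ⟨m, rfl | rfl⟩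
    · rw [mix_even, if_pos (by omega), mix_even]
      congr 2
      omega
    · rw [mix_odd, if_neg (by omega), mix_odd]
  rw [this]

theorem two {P Q : (ℕ → K) → Prop} (h1 : Dfn E U G P) (h2 : Dfn E U G Q) :
    ∃ (φ ψ : CFml) (p : ℕ → K), (∀ v, P v ↔ CSat E U (fun _ => G) φ (mix v p)) ∧
      (∀ v, Q v ↔ CSat E U (fun _ => G) ψ (mix v p)) := by
  obtain ⟨φ, p, hφ⟩ := h1
  obtain ⟨ψ, q, hψ⟩ := h2
  refine ⟨rename (fun n => if n % 2 = 0 then n else 2 * (2 * (n / 2)) + 1) φ,
    rename (fun n => if n % 2 = 0 then n else 2 * (2 * (n / 2) + 1) + 1) ψ, mix p q, ?_, ?_⟩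
  · intro v
    rw [sat_rename, hφ]
    have : mix v p = fun n => mix v (mix p q) (if n % 2 = 0 then n else 2 * (2 * (n / 2)) + 1) := by
      funext n
      rcases Nat.even_or_odd' n with ⟨m, rfl | rfl⟩
      · rw [if_pos (by omega), mix_even, mix_even]
      · rw [if_neg (by omega), mix_odd, mix_odd, mix_even]
        congr 1
        omega
    rw [this]
  · intro v
    rw [sat_rename, hψ]
    have : mix v q = fun n => mix v (mix p q)
        (if n % 2 = 0 then n else 2 * (2 * (n / 2) + 1) + 1) := by
      funext n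
      rcases Nat.even_or_odd' n with ⟨m, rfl | rfl⟩
      · rw [if_pos (by omega), mix_even, mix_even]
      · rw [if_neg (by omega), mix_odd, mix_odd, mix_odd]
        congr 1
        omega
    rw [this]

theorem imp {P Q : (ℕ → K) → Prop} (h1 : Dfn E U G P) (h2 : Dfn E U G Q) :
    Dfn E U G (fun v => P v → Q v) := by
  obtain ⟨φ, ψ, p, hφ, hψ⟩ := two h1 h2
  exact ⟨.imp φ ψ, p, fun v => imp_congr (hφ v) (hψ v)⟩

theorem not {P : (ℕ → K) → Prop} (h1 : Dfn E U G P) : Dfn E U G (fun v => ¬ P v) := by
  obtain ⟨φ, p, hφ⟩ := h1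
  exact ⟨.imp φ .bot, p, fun v => imp_congr (hφ v) Iff.rfl⟩

theorem and {P Q : (ℕ → K) → Prop} (h1 : Dfn E U G P) (h2 : Dfn E U G Q) :
    Dfn E U G (fun v => P v ∧ Q v) :=
  congr (not (imp h1 (not h2))) (fun v => by tauto)

theorem or {P Q : (ℕ → K) → Prop} (h1 : Dfn E U G P) (h2 : Dfn E U G Q) :
    Dfn E U G (fun v => P v ∨ Q v) :=
  congr (imp (not h1) h2) (fun v => by tauto)

theorem iff {P Q : (ℕ → K) → Prop} (h1 : Dfn E U G P) (h2 : Dfn E U G Q) :
    Dfn E U G (fun v => P v ↔ Q v) :=
  congr (and (imp h1 h2) (imp h2 h1)) (fun v => by tauto)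

theorem all {P : (ℕ → K) → K → Prop}
    (h : Dfn E U G (fun v => P (fun n => v (n + 1)) (v 0))) :
    Dfn E U G (fun v => ∀ a, P v a) := by
  obtain ⟨φ, p, hφ⟩ := h
  refine ⟨.all (rename (fun n => if n = 0 then 0 else if n % 2 = 0 then n - 1 else n + 1) φ), p,
    fun v => forall_congr' fun a => ?_⟩
  rw [sat_rename]
  have h1 := hφ (cons a v)
  refine h1.trans ?_
  have : mix (cons a v) p = fun n => cons a (mix v p)
      (if n = 0 then 0 else if n % 2 = 0 then n - 1 else n + 1) := by
    funext n
    rcases Nat.even_or_odd' n with ⟨m, rfl | rfl⟩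
    · cases m with
      | zero => rfl
      | succ m =>
        rw [if_neg (by omega), if_pos (by omega), mix_even]
        have : 2 * (m + 1) - 1 = 2 * m + 1 := by omega
        rw [this, cons_succ, cons_succ, mix_even]
    · rw [if_neg (by omega), if_neg (by omega), mix_odd, cons_succ, mix_odd]
  rw [this]

theorem ex {P : (ℕ → K) → K → Prop}
    (h : Dfn E U G (fun v => P (fun n => v (n + 1)) (v 0))) :
    Dfn E U G (fun v => ∃ a, P v a) := by
  have h' : Dfn E U G (fun v => ∀ a, ¬ P v a) := all (P := fun v a => ¬ P v a) (not h)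
  exact congr (not h') (fun v => by push Not; exact Iff.rfl)

theorem ofPure {R : (ℕ → K) → Prop} (h : Dfn E U (fun _ => False) R) : Dfn E U G R := by
  obtain ⟨φ, p, hφ⟩ := h
  have key : ∀ φ : CFml, ∃ ψ : CFml, ∀ v : ℕ → K, CSat E U (fun _ _ => False) φ v ↔
      CSat E U (fun _ => G) ψ v := by
    intro φ
    induction φ with
    | mem i j => exact ⟨.mem i j, fun _ => Iff.rfl⟩
    | eq i j => exact ⟨.eq i j, fun _ => Iff.rfl⟩
    | ur i => exact ⟨.ur i, fun _ => Iff.rfl⟩
    | cls i k => exact ⟨.bot, fun _ => Iff.rfl⟩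
    | bot => exact ⟨.bot, fun _ => Iff.rfl⟩
    | imp φ ψ h1 h2 =>
      obtain ⟨a, ha⟩ := h1
      obtain ⟨b, hb⟩ := h2
      exact ⟨.imp a b, fun v => imp_congr (ha v) (hb v)⟩
    | all φ h =>
      obtain ⟨a, ha⟩ := h
      exact ⟨.all a, fun v => forall_congr' fun x => ha _⟩
  obtain ⟨ψ, hψ⟩ := key φ
  exact ⟨ψ, p, fun v => (hφ v).trans (hψ _)⟩

end Dfn


section terms

set_option linter.unusedSectionVars false

variable [Nonempty K]

theorem DT.var (i : ℕ) : DT E U G (fun v => v i) :=
  ⟨.eq (2 * (i + 1)) (2 * 0), fun _ => Classical.arbitrary _, fun v => by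
    simp only [CSat, mix_even]⟩

theorem DT.const (c : K) : DT E U G (fun _ => c) :=
  ⟨.eq (2 * 0 + 1) (2 * 0), fun _ => c, fun v => by
    simp only [CSat, mix_even, mix_odd]⟩

theorem DT.shift {t : (ℕ → K) → K} (h : DT E U G t) :
    DT E U G (fun v => t (fun n => v (n + 1))) := by
  have := Dfn.ren (fun n => if n = 0 then 0 else n + 1) h
  exact this

namespace Dfn

theorem prop (p : Prop) : Dfn E U G (fun _ => p) := by
  by_cases hp : p
  · exact ⟨.imp .bot .bot, fun _ => Classical.arbitrary _, fun v => ⟨fun _ h => h, fun _ => hp⟩⟩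
  · exact ⟨.bot, fun _ => Classical.arbitrary _, fun v => ⟨fun h => hp h, fun h => h.elim⟩⟩

theorem sub1 {R : K → Prop} (hR : Dfn E U G (fun v => R (v 0))) {t : (ℕ → K) → K}
    (ht : DT E U G t) : Dfn E U G (fun v => R (t v)) := by
  have h : Dfn E U G (fun v => ∃ a, t v = a ∧ R a) := ex (and ht (hR.ren (fun _ => 0)))
  exact h.congr fun v => by simp

theorem sub2 {R : K → K → Prop} (hR : Dfn E U G (fun v => R (v 0) (v 1)))
    {s t : (ℕ → K) → K} (hs : DT E U G s) (ht : DT E U G t) :
    Dfn E U G (fun v => R (s v) (t v)) := by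
  have h : Dfn E U G (fun v => ∃ a, s v = a ∧ ∃ b, t v = b ∧ R a b) :=
    ex (and hs (ex (and ht.shift (hR.ren (fun n => if n = 0 then 1 else 0)))))
  exact h.congr fun v => by simp

theorem sub3 {R : K → K → K → Prop} (hR : Dfn E U G (fun v => R (v 0) (v 1) (v 2)))
    {s t r : (ℕ → K) → K} (hs : DT E U G s) (ht : DT E U G t) (hr : DT E U G r) :
    Dfn E U G (fun v => R (s v) (t v) (r v)) := by
  have h : Dfn E U G (fun v => ∃ a, s v = a ∧ ∃ b, t v = b ∧ ∃ c, r v = c ∧ R a b c) :=
    ex (and hs (ex (and ht.shift (ex (and hr.shift.shift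
      (hR.ren (fun n => if n = 0 then 2 else if n = 1 then 1 else 0)))))))
  exact h.congr fun v => by simp

theorem mem {s t : (ℕ → K) → K} (hs : DT E U G s) (ht : DT E U G t) :
    Dfn E U G (fun v => E (s v) (t v)) :=
  sub2 (R := fun a b => E a b) ⟨.mem (2 * 0) (2 * 1), fun _ => Classical.arbitrary _, fun v => by
    simp only [CSat, mix_even]⟩ hs ht

theorem eq {s t : (ℕ → K) → K} (hs : DT E U G s) (ht : DT E U G t) :
    Dfn E U G (fun v => s v = t v) :=
  sub2 (R := fun a b => a = b) ⟨.eq (2 * 0) (2 * 1), fun _ => Classical.arbitrary _, fun v => by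
    simp only [CSat, mix_even]⟩ hs ht

theorem ur {s : (ℕ → K) → K} (hs : DT E U G s) : Dfn E U G (fun v => U (s v)) :=
  sub1 (R := fun a => U a) ⟨.ur (2 * 0), fun _ => Classical.arbitrary _, fun v => by
    simp only [CSat, mix_even]⟩ hs

theorem cls {s : (ℕ → K) → K} (hs : DT E U G s) : Dfn E U G (fun v => G (s v)) :=
  sub1 (R := fun a => G a) ⟨.cls (2 * 0) 0, fun _ => Classical.arbitrary _, fun v => by
    simp only [CSat, mix_even]⟩ hs

theorem exu {P : (ℕ → K) → K → Prop}
    (h : Dfn E U G (fun v => P (fun n => v (n + 1)) (v 0))) :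
    Dfn E U G (fun v => ∃! a, P v a) := by
  have h2 : Dfn E U G (fun v => ∃ a, P v a ∧ ∀ y, P v y → y = a) := by
    refine ex (P := fun v a => P v a ∧ ∀ y, P v y → y = a) (and h (all ?_))
    refine imp ?_ (eq (DT.var 0) (DT.var 1))
    have := h.ren (fun n => if n = 0 then 0 else n + 1)
    exact this
  exact h2

theorem cl1 {R : K → Prop} (hR : Dfn E U G (fun v => R (v 0))) : ∀ t : (ℕ → K) → K,
    DT E U G t → Dfn E U G (fun v => R (t v)) := fun _ ht => sub1 hR ht

theorem cl2 {R : K → K → Prop} (hR : Dfn E U G (fun v => R (v 0) (v 1))) :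
    ∀ s t : (ℕ → K) → K, DT E U G s → DT E U G t → Dfn E U G (fun v => R (s v) (t v)) :=
  fun _ _ hs ht => sub2 hR hs ht

theorem cl3 {R : K → K → K → Prop} (hR : Dfn E U G (fun v => R (v 0) (v 1) (v 2))) :
    ∀ s t r : (ℕ → K) → K, DT E U G s → DT E U G t → DT E U G r →
      Dfn E U G (fun v => R (s v) (t v) (r v)) :=
  fun _ _ _ hs ht hr => sub3 hR hs ht hr

end Dfn

theorem DT.cl1 {f : K → K} (hf : Dfn E U G (fun v => f (v 0) = v 1)) :
    ∀ s : (ℕ → K) → K, DT E U G s → DT E U G (fun v => f (s v)) :=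
  fun _ hs => Dfn.sub2 (R := fun a b => f a = b) hf hs.shift (DT.var 0)

theorem DT.cl2 {f : K → K → K} (hf : Dfn E U G (fun v => f (v 0) (v 1) = v 2)) :
    ∀ s t : (ℕ → K) → K, DT E U G s → DT E U G t → DT E U G (fun v => f (s v) (t v)) :=
  fun _ _ hs ht => Dfn.sub3 (R := fun a b c => f a b = c) hf hs.shift ht.shift (DT.var 0)

end terms




/-! ### Models of ZFCU_R -/

/-- a model of ZFCU_R with underlying type `K` -/
structure Mod (K : Type) where
  E : K → K → Prop
  U : K → Prop
  zf : ZFCU E U

abbrev D (M : Mod K) (R : (ℕ → K) → Prop) : Prop := Dfn M.E M.U (fun _ => False) R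

abbrev T (M : Mod K) (t : (ℕ → K) → K) : Prop := DT M.E M.U (fun _ => False) t

section sets

variable [Nonempty K] (M : Mod K)

open Classical in
/-- the set with the given elements -/
noncomputable def sOf (P : K → Prop) : K :=
  if h : ∃ b, ¬ M.U b ∧ ∀ x, M.E x b ↔ P x then h.choose else Classical.arbitrary K

open Classical in
/-- the unique object with a property -/
noncomputable def the (P : K → Prop) : K :=
  if h : ∃! b, P b then h.choose else Classical.arbitrary K

variable {M}

theorem sOf_eq_iff (P : K → Prop) (b : K) : sOf M P = b ↔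
    ((¬ M.U b ∧ ∀ x, M.E x b ↔ P x) ∨
      ((¬ ∃ b, ¬ M.U b ∧ ∀ x, M.E x b ↔ P x) ∧ Classical.arbitrary K = b)) := by
  classical
  unfold sOf
  by_cases h : ∃ b, ¬ M.U b ∧ ∀ x, M.E x b ↔ P x
  · rw [dif_pos h]
    constructor
    · rintro rfl
      exact Or.inl h.choose_spec
    · rintro (h1 | h1)
      · exact M.zf.ext _ _ h.choose_spec.1 h1.1 fun z =>
          (h.choose_spec.2 z).trans (h1.2 z).symm
      · exact absurd h h1.1
  · rw [dif_neg h]
    constructor
    · intro h1
      exact Or.inr ⟨h, h1⟩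
    · rintro (h1 | h1)
      · exact absurd ⟨b, h1⟩ h
      · exact h1.2

theorem sOf_spec {P : K → Prop} (h : ∃ b, ¬ M.U b ∧ ∀ x, M.E x b ↔ P x) :
    ¬ M.U (sOf M P) ∧ ∀ x, M.E x (sOf M P) ↔ P x := by
  rcases (sOf_eq_iff (M := M) P _).1 rfl with h1 | h1
  · exact h1
  · exact absurd h h1.1

theorem the_eq_iff (P : K → Prop) (b : K) : the P = b ↔
    ((∃! c, P c) ∧ P b ∨ ((¬ ∃! c, P c) ∧ Classical.arbitrary K = b)) := by
  classical
  unfold the
  by_cases h : ∃! b, P b
  · rw [dif_pos h]
    constructor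
    · rintro rfl
      exact Or.inl ⟨h, h.choose_spec.1⟩
    · rintro (h1 | h1)
      · exact (h.choose_spec.2 b h1.2).symm
      · exact absurd h h1.1
  · rw [dif_neg h]
    constructor
    · intro h1
      exact Or.inr ⟨h, h1⟩
    · rintro (h1 | h1)
      · exact absurd h1.1 h
      · exact h1.2

theorem the_spec {P : K → Prop} (h : ∃! b, P b) : P (the P) := by
  rcases (the_eq_iff P _).1 rfl with h1 | h1
  · exact h1.2
  · exact absurd h h1.1

theorem the_eq {P : K → Prop} {b : K} (hb : P b) (h : ∀ c, P c → c = b) : the P = b :=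
  h _ (the_spec ⟨b, hb, h⟩)

theorem DT.sOf {P : (ℕ → K) → K → Prop}
    (h : Dfn M.E M.U G (fun v => P (fun n => v (n + 1)) (v 0))) :
    DT M.E M.U G (fun v => sOf M (P v)) := by
  unfold DT
  refine Dfn.congr ?_ fun v => sOf_eq_iff (M := M) (P (fun n => v (n + 1))) (v 0)
  have h1 := h.ren (fun n => if n = 0 then 0 else n + 1)
  have h2 := h.ren (fun n => if n = 0 then 0 else n + 2)
  (try beta_reduce); repeat' (first
    | with_reducible exact DT.var _
    | with_reducible exact DT.const _
    | with_reducible apply Dfn.all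
    | with_reducible apply Dfn.ex
    | with_reducible apply Dfn.exu
    | with_reducible apply Dfn.and
    | with_reducible apply Dfn.or
    | with_reducible apply Dfn.iff
    | with_reducible apply Dfn.not
    | with_reducible apply Dfn.imp
    | with_reducible apply Dfn.mem
    | with_reducible apply Dfn.eq
    | with_reducible apply Dfn.ur
    | apply_assumption
    | with_reducible exact Dfn.prop _)

theorem DT.the {P : (ℕ → K) → K → Prop}
    (h : Dfn E U G (fun v => P (fun n => v (n + 1)) (v 0))) :
    DT E U G (fun v => the (P v)) := by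
  unfold DT
  refine Dfn.congr ?_ fun v => the_eq_iff (P (fun n => v (n + 1))) (v 0)
  have h1 := h.ren (fun n => if n = 0 then 0 else n + 1)
  (try beta_reduce); repeat' (first
    | with_reducible exact DT.var _
    | with_reducible exact DT.const _
    | with_reducible apply Dfn.all
    | with_reducible apply Dfn.ex
    | with_reducible apply Dfn.exu
    | with_reducible apply Dfn.and
    | with_reducible apply Dfn.or
    | with_reducible apply Dfn.iff
    | with_reducible apply Dfn.not
    | with_reducible apply Dfn.imp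
    | with_reducible apply Dfn.mem
    | with_reducible apply Dfn.eq
    | with_reducible apply Dfn.ur
    | apply_assumption
    | with_reducible exact Dfn.prop _)

end sets


end Pool.Agent.H83R3.GBU
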