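import Mathlib

set_option autoImplicit false

/-!
Definitions: first-order formulas of set theory with urelements, predicative class formulas,
the theories ZFCU_R and GBU_R as properties of structures, Global Choice.
-/

namespace Pool.Agent.H83R3.GBU

/-- First-order formulas of set theory with urelements (de Bruijn indices: the quantifier binds
index 0; `ur i` says that the object `i` is an urelement). -/
inductive Fml : Type
  | mem : ℕ → ℕ → Fml
  | eq : ℕ → ℕ → Fml
  | ur : ℕ → Fml
  | bot : Fml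
  | imp : Fml → Fml → Fml
  | all : Fml → Fml

/-- Predicative class formulas: no class quantifiers; `cls i k` says that the object `i` belongs
to the class `k`. -/
inductive CFml : Type
  | mem : ℕ → ℕ → CFml
  | eq : ℕ → ℕ → CFml
  | ur : ℕ → CFml
  | cls : ℕ → ℕ → CFml
  | bot : CFml
  | imp : CFml → CFml → CFml
  | all : CFml → CFml

universe u

/-- The assignment with value `a` at index 0 and `v n` at index `n + 1`. -/
def cons {K : Type u} (a : K) (v : ℕ → K) : ℕ → K
  | 0 => a
  | n + 1 => v n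

/-- Satisfaction of a first-order formula; `E` is membership, `U` is the predicate for
urelements. -/
def Sat {K : Type u} (E : K → K → Prop) (U : K → Prop) : Fml → (ℕ → K) → Prop
  | .mem i j, v => E (v i) (v j)
  | .eq i j, v => v i = v j
  | .ur i, v => U (v i)
  | .bot, _ => False
  | .imp φ ψ, v => Sat E U φ v → Sat E U ψ v
  | .all φ, v => ∀ a : K, Sat E U φ (cons a v)

/-- Satisfaction of a class formula; `C k` is the extension of the class variable `k`. -/
def CSat {K : Type u} (E : K → K → Prop) (U : K → Prop) (C : ℕ → K → Prop) :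
    CFml → (ℕ → K) → Prop
  | .mem i j, v => E (v i) (v j)
  | .eq i j, v => v i = v j
  | .ur i, v => U (v i)
  | .cls i k, v => C k (v i)
  | .bot, _ => False
  | .imp φ ψ, v => CSat E U C φ v → CSat E U C ψ v
  | .all φ, v => ∀ a : K, CSat E U C φ (cons a v)

/-- `z` is the successor `y ∪ {y}` of `y`. -/
def IsSucc {K : Type u} (E : K → K → Prop) (y z : K) : Prop :=
  ∀ w, E w z ↔ (E w y ∨ w = y)

/-- `z` is the ordered pair `{{x}, {x, y}}`. -/
def IsPair {K : Type u} (E : K → K → Prop) (z x y : K) : Prop :=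
  ∀ w, E w z ↔ ((∀ u, E u w ↔ u = x) ∨ (∀ u, E u w ↔ (u = x ∨ u = y)))

/-- The axioms without the schemes. -/
structure Base {K : Type u} (E : K → K → Prop) (U : K → Prop) : Prop where
  /-- urelements have no elements -/
  urel : ∀ x, U x → ∀ y, ¬ E y x
  /-- Extensionality for sets -/
  ext : ∀ x y, ¬ U x → ¬ U y → (∀ z, E z x ↔ E z y) → x = y
  /-- Foundation -/
  foundation : ∀ x, (∃ y, E y x) → ∃ y, E y x ∧ ∀ z, E z y → ¬ E z x
  /-- Pairing -/
  pairing : ∀ x y, ∃ z, ∀ w, E w z ↔ (w = x ∨ w = y)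
  /-- Union -/
  union : ∀ x, ∃ u, ¬ U u ∧ ∀ z, E z u ↔ ∃ y, E y x ∧ E z y
  /-- Powerset -/
  power : ∀ x, ∃ p, ¬ U p ∧ ∀ z, E z p ↔ (¬ U z ∧ ∀ w, E w z → E w x)
  /-- Infinity -/
  infinity : ∃ x, (∃ e, E e x ∧ ¬ U e ∧ ∀ z, ¬ E z e) ∧ ∀ y, E y x → ∃ z, E z x ∧ IsSucc E y z
  /-- Choice: every set of nonempty sets has a choice function -/
  choice : ∀ a, (∀ x, E x a → ∃ y, E y x) → ∃ f, ¬ U f ∧
    (∀ p, E p f → ∃ x y, IsPair E p x y) ∧
    ∀ x, E x a → ∃ y, E y x ∧ ∀ z, (∃ p, E p f ∧ IsPair E p x z) ↔ z = y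

/-- `(K, E, U)` is a model of ZFCU_R. -/
structure ZFCU {K : Type u} (E : K → K → Prop) (U : K → Prop) : Prop extends Base E U where
  /-- Separation -/
  separation : ∀ (φ : Fml) (v : ℕ → K) (a : K),
    ∃ b, ¬ U b ∧ ∀ x, E x b ↔ (E x a ∧ Sat E U φ (cons x v))
  /-- Replacement -/
  replacement : ∀ (φ : Fml) (v : ℕ → K) (a : K),
    (∀ x, E x a → ∃! y, Sat E U φ (cons x (cons y v))) →
    ∃ b, ¬ U b ∧ ∀ y, E y b ↔ ∃ x, E x a ∧ Sat E U φ (cons x (cons y v))

/-- The pair `(x, y)` belongs to the class `F`; `M x X` says that the object `x` belongs to the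
class `X`. -/
def CApp {K : Type u} {L : Type u} (E : K → K → Prop) (M : K → L → Prop) (F : L) (x y : K) :
    Prop := ∃ p, M p F ∧ IsPair E p x y

/-- `(K, L, E, U, M)` is a model of GBU_R: `K` are the objects, `L` are the classes. -/
structure GBUR {K L : Type u} (E : K → K → Prop) (U : K → Prop) (M : K → L → Prop) : Prop
    extends Base E U where
  /-- Class Extensionality -/
  classExt : ∀ X Y : L, (∀ x, M x X ↔ M x Y) → X = Y
  /-- predicative Comprehension with object and class parameters -/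
  comprehension : ∀ (φ : CFml) (v : ℕ → K) (Z : ℕ → L),
    ∃ X : L, ∀ x, M x X ↔ CSat E U (fun k y => M y (Z k)) φ (cons x v)
  /-- Separation in class form -/
  classSep : ∀ (X : L) (a : K), ∃ b, ¬ U b ∧ ∀ x, E x b ↔ (E x a ∧ M x X)
  /-- Replacement in class form: the image of a set under a class function is a set -/
  classRepl : ∀ (F : L) (a : K), (∀ x y y', CApp E M F x y → CApp E M F x y' → y = y') →
    ∃ b, ¬ U b ∧ ∀ y, E y b ↔ ∃ x, E x a ∧ CApp E M F x y

/-- Global Choice: there is a class function `G` with `G(x) ∈ x` for every nonempty set `x`. -/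
def GlobalChoice {K L : Type u} (E : K → K → Prop) (M : K → L → Prop) : Prop :=
  ∃ G : L, (∀ x y y', CApp E M G x y → CApp E M G x y' → y = y') ∧
    ∀ x, (∃ y, E y x) → ∃ y, E y x ∧ CApp E M G x y

end Pool.Agent.H83R3.GBU
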