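import Pool.Agent.H83R3.GBU.Aut

set_option autoImplicit false
set_option linter.unusedSectionVars false

namespace Pool.Agent.H83R3.GBU

variable {K : Type} [Nonempty K] {M : Mod K} {G : K → Prop}

/-- inclusion -/
def Sub (M : Mod K) (x y : K) : Prop := ∀ w, M.E w x → M.E w y

theorem Dfn.subset {s t : (ℕ → K) → K} (hs : DT M.E M.U G s) (ht : DT M.E M.U G t) :
    Dfn M.E M.U G (fun v => Sub M (s v) (t v)) := by
  unfold Sub
  have h1 := hs.shift
  have h3 := ht.shift
  (try beta_reduce); repeat' (first
    | with_reducible apply Dfn.inV
    | with_reducible apply Dfn.inK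
    | with_reducible apply Dfn.bad
    | with_reducible apply Dfn.bij
    | with_reducible apply Dfn.od
    | with_reducible apply Dfn.ind
    | with_reducible apply Dfn.tr
    | with_reducible apply DT.ap
    | with_reducible apply DT.bu
    | with_reducible apply DT.pw
    | with_reducible apply DT.un
    | with_reducible apply DT.op
    | with_reducible apply DT.pr
    | with_reducible apply DT.sOf
    | with_reducible apply DT.the
    | with_reducible exact DT.var _
    | with_reducible exact DT.const _
    | with_reducible apply Dfn.all
    | with_reducible apply Dfn.ex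
    | with_reducible apply Dfn.exu
    | with_reducible apply Dfn.and
    | with_reducible apply Dfn.or
    | with_reducible apply Dfn.iff
    | with_reducible apply Dfn.not
    | with_reducible apply Dfn.imp
    | with_reducible apply Dfn.mem
    | with_reducible apply Dfn.eq
    | with_reducible apply Dfn.ur
    | apply_assumption
    | with_reducible exact Dfn.prop _)


theorem Sub.rfl {x : K} : Sub M x x := fun _ h => h

theorem Sub.trans {x y z : K} (h1 : Sub M x y) (h2 : Sub M y z) : Sub M x z :=
  fun w h => h2 w (h1 w h)

/-- conditions: partial choice functions -/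
def Cond (M : Mod K) (q : K) : Prop :=
  ¬ M.U q ∧ (∀ p, M.E p q → ∃ z y, p = op M z y ∧ M.E y z) ∧
    ∀ z y y', M.E (op M z y) q → M.E (op M z y') q → y = y'

theorem Dfn.cond {s : (ℕ → K) → K} (hs : DT M.E M.U G s) :
    Dfn M.E M.U G (fun v => Cond M (s v)) := by
  unfold Cond
  have h1 := hs.shift
  have h2 := h1.shift
  have h3 := h2.shift
  (try beta_reduce); repeat' (first
    | with_reducible apply Dfn.subset
    | with_reducible apply Dfn.inV
    | with_reducible apply Dfn.inK
    | with_reducible apply Dfn.bad
    | with_reducible apply Dfn.bij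
    | with_reducible apply Dfn.od
    | with_reducible apply Dfn.ind
    | with_reducible apply Dfn.tr
    | with_reducible apply DT.ap
    | with_reducible apply DT.bu
    | with_reducible apply DT.pw
    | with_reducible apply DT.un
    | with_reducible apply DT.op
    | with_reducible apply DT.pr
    | with_reducible apply DT.sOf
    | with_reducible apply DT.the
    | with_reducible exact DT.var _
    | with_reducible exact DT.const _
    | with_reducible apply Dfn.all
    | with_reducible apply Dfn.ex
    | with_reducible apply Dfn.exu
    | with_reducible apply Dfn.and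
    | with_reducible apply Dfn.or
    | with_reducible apply Dfn.iff
    | with_reducible apply Dfn.not
    | with_reducible apply Dfn.imp
    | with_reducible apply Dfn.mem
    | with_reducible apply Dfn.eq
    | with_reducible apply Dfn.ur
    | apply_assumption
    | with_reducible exact Dfn.prop _)


theorem Cond.emp : Cond M (emp M) :=
  ⟨emp_spec.1, fun p hp => absurd hp (emp_spec.2 p), fun _ _ _ h => absurd h (emp_spec.2 _)⟩

/-! ### levels -/

/-- the levels of the hierarchy over the set `e` of urelements -/
noncomputable def FPhi (M : Mod K) (e : K) (_x g : K) : K :=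
  sOf M (fun z => M.E z e ∨ (¬ M.U z ∧ ∃ m w, M.E (op M m w) g ∧ Sub M z w))

noncomputable def Phi (M : Mod K) (e : K) (x : K) : K := recH M (FPhi M e) x

theorem dfn_FPhi (e : K) : D M (fun v => FPhi M e (v 0) (v 1) = v 2) := by
  unfold FPhi
  (try beta_reduce); repeat' (first
    | with_reducible apply Dfn.cond
    | with_reducible apply Dfn.subset
    | with_reducible apply Dfn.inV
    | with_reducible apply Dfn.inK
    | with_reducible apply Dfn.bad
    | with_reducible apply Dfn.bij
    | with_reducible apply Dfn.od
    | with_reducible apply Dfn.ind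
    | with_reducible apply Dfn.tr
    | with_reducible apply DT.ap
    | with_reducible apply DT.bu
    | with_reducible apply DT.pw
    | with_reducible apply DT.un
    | with_reducible apply DT.op
    | with_reducible apply DT.pr
    | with_reducible apply DT.sOf
    | with_reducible apply DT.the
    | with_reducible exact DT.var _
    | with_reducible exact DT.const _
    | with_reducible apply Dfn.all
    | with_reducible apply Dfn.ex
    | with_reducible apply Dfn.exu
    | with_reducible apply Dfn.and
    | with_reducible apply Dfn.or
    | with_reducible apply Dfn.iff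
    | with_reducible apply Dfn.not
    | with_reducible apply Dfn.imp
    | with_reducible apply Dfn.mem
    | with_reducible apply Dfn.eq
    | with_reducible apply Dfn.ur
    | apply_assumption
    | with_reducible exact Dfn.prop _)

theorem dfn_Phi (e : K) : D M (fun v => Phi M e (v 0) = v 1) := Dfn.recH (dfn_FPhi e)

theorem mem_Phi {e x z : K} :
    M.E z (Phi M e x) ↔ (M.E z e ∨ (¬ M.U z ∧ ∃ y, M.E y x ∧ Sub M z (Phi M e y))) := by
  have h1 : ∀ g, ∀ z, M.E z (FPhi M e x g) ↔
      (M.E z e ∨ (¬ M.U z ∧ ∃ m w, M.E (op M m w) g ∧ Sub M z w)) := by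
    intro g
    refine (sOf_spec (M.ofSub (by (try beta_reduce); repeat' (first
      | with_reducible apply Dfn.cond
      | with_reducible apply Dfn.subset
      | with_reducible apply Dfn.inV
      | with_reducible apply Dfn.inK
      | with_reducible apply Dfn.bad
      | with_reducible apply Dfn.bij
      | with_reducible apply Dfn.od
      | with_reducible apply Dfn.ind
      | with_reducible apply Dfn.tr
      | with_reducible apply DT.ap
      | with_reducible apply DT.bu
      | with_reducible apply DT.pw
      | with_reducible apply DT.un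
      | with_reducible apply DT.op
      | with_reducible apply DT.pr
      | with_reducible apply DT.sOf
      | with_reducible apply DT.the
      | with_reducible exact DT.var _
      | with_reducible exact DT.const _
      | with_reducible apply Dfn.all
      | with_reducible apply Dfn.ex
      | with_reducible apply Dfn.exu
      | with_reducible apply Dfn.and
      | with_reducible apply Dfn.or
      | with_reducible apply Dfn.iff
      | with_reducible apply Dfn.not
      | with_reducible apply Dfn.imp
      | with_reducible apply Dfn.mem
      | with_reducible apply Dfn.eq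
      | with_reducible apply Dfn.ur
      | apply_assumption
      | with_reducible exact Dfn.prop _)) (bu M e (pw M (un M (un M (un M g))))) ?_)).2
    rintro z (h | ⟨h0, m, w, h2, h3⟩)
    · exact mem_bu.2 (Or.inl h)
    · refine mem_bu.2 (Or.inr (mem_pw.2 ⟨h0, fun u hu => mem_un.2 ⟨w, mem_un.2 ⟨pr M m w,
        mem_un.2 ⟨op M m w, h2, mem_pr.2 (Or.inr rfl)⟩, mem_pr.2 (Or.inr rfl)⟩, h3 u hu⟩⟩))
  unfold Phi
  conv_lhs => rw [rec_eq (dfn_FPhi e) x]
  rw [h1]
  refine or_congr Iff.rfl (and_congr Iff.rfl ?_)
  have hrec := Dfn.recH (dfn_FPhi (M := M) e)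
  constructor
  · rintro ⟨m, w, h2, h3⟩
    obtain ⟨y, hy, h4⟩ := ((mem_res hrec x).2 _).1 h2
    obtain ⟨rfl, rfl⟩ := op_inj h4
    exact ⟨m, hy, h3⟩
  · rintro ⟨y, hy, h3⟩
    exact ⟨y, _, ((mem_res hrec x).2 _).2 ⟨y, hy, rfl⟩, h3⟩

theorem sub_Phi {e : K} : ∀ z, InV M e z → ¬ M.U z → Sub M z (Phi M e z) := by
  have h := DT.cl1 (dfn_Phi (M := M) e)
  refine M.ind (by (try beta_reduce); repeat' (first
    | with_reducible apply Dfn.cond
    | with_reducible apply Dfn.subset
    | with_reducible apply Dfn.inV
    | with_reducible apply Dfn.inK
    | with_reducible apply Dfn.bad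
    | with_reducible apply Dfn.bij
    | with_reducible apply Dfn.od
    | with_reducible apply Dfn.ind
    | with_reducible apply Dfn.tr
    | with_reducible apply DT.ap
    | with_reducible apply DT.bu
    | with_reducible apply DT.pw
    | with_reducible apply DT.un
    | with_reducible apply DT.op
    | with_reducible apply DT.pr
    | with_reducible apply DT.sOf
    | with_reducible apply DT.the
    | with_reducible exact DT.var _
    | with_reducible exact DT.const _
    | with_reducible apply Dfn.all
    | with_reducible apply Dfn.ex
    | with_reducible apply Dfn.exu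
    | with_reducible apply Dfn.and
    | with_reducible apply Dfn.or
    | with_reducible apply Dfn.iff
    | with_reducible apply Dfn.not
    | with_reducible apply Dfn.imp
    | with_reducible apply Dfn.mem
    | with_reducible apply Dfn.eq
    | with_reducible apply Dfn.ur
    | apply_assumption
    | with_reducible exact Dfn.prop _)) ?_
  intro z ih hz hu y hy
  rw [mem_Phi]
  by_cases hyu : M.U y
  · exact Or.inl ((InV.ur hyu).1 (hz.mem hy))
  · exact Or.inr ⟨hyu, y, hy, ih y hy (hz.mem hy) hyu⟩

theorem Phi_ur (e x : K) (_he : ∀ u, M.E u e → M.U u) : ¬ M.U (Phi M e x) := by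
  have hne : ∀ g, ¬ M.U (FPhi M e x g) := by
    intro g
    refine (sOf_spec (M.ofSub (by (try beta_reduce); repeat' (first
      | with_reducible apply Dfn.cond
      | with_reducible apply Dfn.subset
      | with_reducible apply Dfn.inV
      | with_reducible apply Dfn.inK
      | with_reducible apply Dfn.bad
      | with_reducible apply Dfn.bij
      | with_reducible apply Dfn.od
      | with_reducible apply Dfn.ind
      | with_reducible apply Dfn.tr
      | with_reducible apply DT.ap
      | with_reducible apply DT.bu
      | with_reducible apply DT.pw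
      | with_reducible apply DT.un
      | with_reducible apply DT.op
      | with_reducible apply DT.pr
      | with_reducible apply DT.sOf
      | with_reducible apply DT.the
      | with_reducible exact DT.var _
      | with_reducible exact DT.const _
      | with_reducible apply Dfn.all
      | with_reducible apply Dfn.ex
      | with_reducible apply Dfn.exu
      | with_reducible apply Dfn.and
      | with_reducible apply Dfn.or
      | with_reducible apply Dfn.iff
      | with_reducible apply Dfn.not
      | with_reducible apply Dfn.imp
      | with_reducible apply Dfn.mem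
      | with_reducible apply Dfn.eq
      | with_reducible apply Dfn.ur
      | apply_assumption
      | with_reducible exact Dfn.prop _)) (bu M e (pw M (un M (un M (un M g))))) ?_)).1
    rintro z (h | ⟨h0, m, w, h2, h3⟩)
    · exact mem_bu.2 (Or.inl h)
    · refine mem_bu.2 (Or.inr (mem_pw.2 ⟨h0, fun u hu => mem_un.2 ⟨w, mem_un.2 ⟨pr M m w,
        mem_un.2 ⟨op M m w, h2, mem_pr.2 (Or.inr rfl)⟩, mem_pr.2 (Or.inr rfl)⟩, h3 u hu⟩⟩))
  unfold Phi
  rw [rec_eq (dfn_FPhi e) x]
  exact hne _

theorem Phi_comparable {e : K} (he : ∀ u, M.E u e → M.U u) : ∀ x y,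
    Sub M (Phi M e x) (Phi M e y) ∨ M.E (Phi M e y) (Phi M e x) := by
  have h := DT.cl1 (dfn_Phi (M := M) e)
  refine M.ind (by (try beta_reduce); repeat' (first
    | with_reducible apply Dfn.cond
    | with_reducible apply Dfn.subset
    | with_reducible apply Dfn.inV
    | with_reducible apply Dfn.inK
    | with_reducible apply Dfn.bad
    | with_reducible apply Dfn.bij
    | with_reducible apply Dfn.od
    | with_reducible apply Dfn.ind
    | with_reducible apply Dfn.tr
    | with_reducible apply DT.ap
    | with_reducible apply DT.bu
    | with_reducible apply DT.pw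
    | with_reducible apply DT.un
    | with_reducible apply DT.op
    | with_reducible apply DT.pr
    | with_reducible apply DT.sOf
    | with_reducible apply DT.the
    | with_reducible exact DT.var _
    | with_reducible exact DT.const _
    | with_reducible apply Dfn.all
    | with_reducible apply Dfn.ex
    | with_reducible apply Dfn.exu
    | with_reducible apply Dfn.and
    | with_reducible apply Dfn.or
    | with_reducible apply Dfn.iff
    | with_reducible apply Dfn.not
    | with_reducible apply Dfn.imp
    | with_reducible apply Dfn.mem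
    | with_reducible apply Dfn.eq
    | with_reducible apply Dfn.ur
    | apply_assumption
    | with_reducible exact Dfn.prop _)) ?_
  intro x ih y
  by_contra hcon
  push Not at hcon
  obtain ⟨h1, h2⟩ := hcon
  obtain ⟨w, hw, hwy⟩ : ∃ w, M.E w (Phi M e x) ∧ ¬ M.E w (Phi M e y) := by
    by_contra hc
    push Not at hc
    exact h1 hc
  rcases mem_Phi.1 hw with h3 | ⟨h3, z, hz, hwz⟩
  · exact hwy (mem_Phi.2 (Or.inl h3))
  have h4 : ∀ y', M.E y' y → M.E (Phi M e y') (Phi M e z) := by
    intro y' hy'
    rcases ih z hz y' with h5 | h5
    · exact absurd (mem_Phi.2 (Or.inr ⟨h3, y', hy', hwz.trans h5⟩)) hwy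
    · exact h5
  apply h2
  refine mem_Phi.2 (Or.inr ⟨Phi_ur e y he, z, hz, ?_⟩)
  intro t ht
  rcases mem_Phi.1 ht with h5 | ⟨h5, y', hy', hty⟩
  · exact mem_Phi.2 (Or.inl h5)
  · rcases mem_Phi.1 (h4 y' hy') with h6 | ⟨_, z', hz', h7⟩
    · exact absurd (he _ h6) (Phi_ur e y' he)
    · exact mem_Phi.2 (Or.inr ⟨h5, z', hz', hty.trans h7⟩)

/-! ### distributivity -/

section distrib

variable (M) (e a q0 α h : K) (R : K → K → Prop)

/-- conditions over `e` -/
def CV (r : K) : Prop := Cond M r ∧ InV M e r

/-- `r'` is a witness for `x` below `r` -/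
def Wt (x r r' : K) : Prop := CV M e r' ∧ Sub M r r' ∧ R x r'

/-- witnesses of minimal level -/
noncomputable def WS (x r : K) : K := sOf M (fun r' => Wt M e R x r r' ∧
  ∀ y, (∃ r'', M.E r'' (Phi M e y) ∧ Wt M e R x r r'') → M.E r' (Phi M e y))

/-- the union of `q0` and the values of the function `g` -/
noncomputable def bs (g : K) : K := sOf M (fun z => M.E z q0 ∨ ∃ m w, M.E (op M m w) g ∧ M.E z w)

noncomputable def FL (β g : K) : K := sOf M (fun z => M.E z (bs M q0 g) ∨
  ∃ r r', (CV M e r ∧ Sub M r (bs M q0 g)) ∧ M.E r' (WS M e R (ap M h β) r) ∧ M.E z r')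

variable {M e a q0 α h R}

theorem dfn_bs : D M (fun v => bs M q0 (v 0) = v 1) := by
  unfold bs
  (try beta_reduce); repeat' (first
    | with_reducible apply Dfn.cond
    | with_reducible apply Dfn.subset
    | with_reducible apply Dfn.inV
    | with_reducible apply Dfn.inK
    | with_reducible apply Dfn.bad
    | with_reducible apply Dfn.bij
    | with_reducible apply Dfn.od
    | with_reducible apply Dfn.ind
    | with_reducible apply Dfn.tr
    | with_reducible apply DT.ap
    | with_reducible apply DT.bu
    | with_reducible apply DT.pw
    | with_reducible apply DT.un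
    | with_reducible apply DT.op
    | with_reducible apply DT.pr
    | with_reducible apply DT.sOf
    | with_reducible apply DT.the
    | with_reducible exact DT.var _
    | with_reducible exact DT.const _
    | with_reducible apply Dfn.all
    | with_reducible apply Dfn.ex
    | with_reducible apply Dfn.exu
    | with_reducible apply Dfn.and
    | with_reducible apply Dfn.or
    | with_reducible apply Dfn.iff
    | with_reducible apply Dfn.not
    | with_reducible apply Dfn.imp
    | with_reducible apply Dfn.mem
    | with_reducible apply Dfn.eq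
    | with_reducible apply Dfn.ur
    | apply_assumption
    | with_reducible exact Dfn.prop _)

theorem mem_bs {g z : K} :
    M.E z (bs M q0 g) ↔ (M.E z q0 ∨ ∃ m w, M.E (op M m w) g ∧ M.E z w) := by
  refine (sOf_spec (M.ofSub (by (try beta_reduce); repeat' (first
    | with_reducible apply Dfn.cond
    | with_reducible apply Dfn.subset
    | with_reducible apply Dfn.inV
    | with_reducible apply Dfn.inK
    | with_reducible apply Dfn.bad
    | with_reducible apply Dfn.bij
    | with_reducible apply Dfn.od
    | with_reducible apply Dfn.ind
    | with_reducible apply Dfn.tr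
    | with_reducible apply DT.ap
    | with_reducible apply DT.bu
    | with_reducible apply DT.pw
    | with_reducible apply DT.un
    | with_reducible apply DT.op
    | with_reducible apply DT.pr
    | with_reducible apply DT.sOf
    | with_reducible apply DT.the
    | with_reducible exact DT.var _
    | with_reducible exact DT.const _
    | with_reducible apply Dfn.all
    | with_reducible apply Dfn.ex
    | with_reducible apply Dfn.exu
    | with_reducible apply Dfn.and
    | with_reducible apply Dfn.or
    | with_reducible apply Dfn.iff
    | with_reducible apply Dfn.not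
    | with_reducible apply Dfn.imp
    | with_reducible apply Dfn.mem
    | with_reducible apply Dfn.eq
    | with_reducible apply Dfn.ur
    | apply_assumption
    | with_reducible exact Dfn.prop _)) (bu M q0 (un M (un M (un M g)))) ?_)).2 z
  rintro z (h | ⟨m, w, h2, h3⟩)
  · exact mem_bu.2 (Or.inl h)
  · exact mem_bu.2 (Or.inr (mem_un.2 ⟨w, mem_un.2 ⟨pr M m w,
        mem_un.2 ⟨op M m w, h2, mem_pr.2 (Or.inr rfl)⟩, mem_pr.2 (Or.inr rfl)⟩, h3⟩))

theorem bs_ur (g : K) : ¬ M.U (bs M q0 g) := by
  refine (sOf_spec (M.ofSub (by (try beta_reduce); repeat' (first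
    | with_reducible apply Dfn.cond
    | with_reducible apply Dfn.subset
    | with_reducible apply Dfn.inV
    | with_reducible apply Dfn.inK
    | with_reducible apply Dfn.bad
    | with_reducible apply Dfn.bij
    | with_reducible apply Dfn.od
    | with_reducible apply Dfn.ind
    | with_reducible apply Dfn.tr
    | with_reducible apply DT.ap
    | with_reducible apply DT.bu
    | with_reducible apply DT.pw
    | with_reducible apply DT.un
    | with_reducible apply DT.op
    | with_reducible apply DT.pr
    | with_reducible apply DT.sOf
    | with_reducible apply DT.the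
    | with_reducible exact DT.var _
    | with_reducible exact DT.const _
    | with_reducible apply Dfn.all
    | with_reducible apply Dfn.ex
    | with_reducible apply Dfn.exu
    | with_reducible apply Dfn.and
    | with_reducible apply Dfn.or
    | with_reducible apply Dfn.iff
    | with_reducible apply Dfn.not
    | with_reducible apply Dfn.imp
    | with_reducible apply Dfn.mem
    | with_reducible apply Dfn.eq
    | with_reducible apply Dfn.ur
    | apply_assumption
    | with_reducible exact Dfn.prop _)) (bu M q0 (un M (un M (un M g)))) ?_)).1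
  rintro z (h | ⟨m, w, h2, h3⟩)
  · exact mem_bu.2 (Or.inl h)
  · exact mem_bu.2 (Or.inr (mem_un.2 ⟨w, mem_un.2 ⟨pr M m w,
        mem_un.2 ⟨op M m w, h2, mem_pr.2 (Or.inr rfl)⟩, mem_pr.2 (Or.inr rfl)⟩, h3⟩))

theorem mem_bs_res {H : K → K} (hH : D M (fun v => H (v 0) = v 1)) {β z : K} :
    M.E z (bs M q0 (res M H β)) ↔ (M.E z q0 ∨ ∃ γ, M.E γ β ∧ M.E z (H γ)) := by
  rw [mem_bs]
  refine or_congr Iff.rfl ?_
  constructor
  · rintro ⟨m, w, h2, h3⟩
    obtain ⟨y, hy, h4⟩ := ((mem_res hH β).2 _).1 h2
    obtain ⟨rfl, rfl⟩ := op_inj h4
    exact ⟨m, hy, h3⟩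
  · rintro ⟨y, hy, h3⟩
    exact ⟨y, _, ((mem_res hH β).2 _).2 ⟨y, hy, rfl⟩, h3⟩

theorem dfn_CV : D M (fun v => CV M e (v 0)) := by
  unfold CV
  (try beta_reduce); repeat' (first
    | with_reducible apply Dfn.cond
    | with_reducible apply Dfn.subset
    | with_reducible apply Dfn.inV
    | with_reducible apply Dfn.inK
    | with_reducible apply Dfn.bad
    | with_reducible apply Dfn.bij
    | with_reducible apply Dfn.od
    | with_reducible apply Dfn.ind
    | with_reducible apply Dfn.tr
    | with_reducible apply DT.ap
    | with_reducible apply DT.bu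
    | with_reducible apply DT.pw
    | with_reducible apply DT.un
    | with_reducible apply DT.op
    | with_reducible apply DT.pr
    | with_reducible apply DT.sOf
    | with_reducible apply DT.the
    | with_reducible exact DT.var _
    | with_reducible exact DT.const _
    | with_reducible apply Dfn.all
    | with_reducible apply Dfn.ex
    | with_reducible apply Dfn.exu
    | with_reducible apply Dfn.and
    | with_reducible apply Dfn.or
    | with_reducible apply Dfn.iff
    | with_reducible apply Dfn.not
    | with_reducible apply Dfn.imp
    | with_reducible apply Dfn.mem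
    | with_reducible apply Dfn.eq
    | with_reducible apply Dfn.ur
    | apply_assumption
    | with_reducible exact Dfn.prop _)

theorem dfn_Wt (hR : D M (fun v => R (v 0) (v 1))) :
    D M (fun v => Wt M e R (v 0) (v 1) (v 2)) := by
  have h1 := Dfn.cl1 (dfn_CV (M := M) (e := e))
  have h2 := Dfn.cl2 hR
  unfold Wt
  (try beta_reduce); repeat' (first
    | with_reducible apply Dfn.cond
    | with_reducible apply Dfn.subset
    | with_reducible apply Dfn.inV
    | with_reducible apply Dfn.inK
    | with_reducible apply Dfn.bad
    | with_reducible apply Dfn.bij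
    | with_reducible apply Dfn.od
    | with_reducible apply Dfn.ind
    | with_reducible apply Dfn.tr
    | with_reducible apply DT.ap
    | with_reducible apply DT.bu
    | with_reducible apply DT.pw
    | with_reducible apply DT.un
    | with_reducible apply DT.op
    | with_reducible apply DT.pr
    | with_reducible apply DT.sOf
    | with_reducible apply DT.the
    | with_reducible exact DT.var _
    | with_reducible exact DT.const _
    | with_reducible apply Dfn.all
    | with_reducible apply Dfn.ex
    | with_reducible apply Dfn.exu
    | with_reducible apply Dfn.and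
    | with_reducible apply Dfn.or
    | with_reducible apply Dfn.iff
    | with_reducible apply Dfn.not
    | with_reducible apply Dfn.imp
    | with_reducible apply Dfn.mem
    | with_reducible apply Dfn.eq
    | with_reducible apply Dfn.ur
    | apply_assumption
    | with_reducible exact Dfn.prop _)

theorem dfn_WS (hR : D M (fun v => R (v 0) (v 1))) :
    D M (fun v => WS M e R (v 0) (v 1) = v 2) := by
  have h1 := Dfn.cl3 (dfn_Wt (M := M) (e := e) hR)
  have h2 := DT.cl1 (dfn_Phi (M := M) e)
  unfold WS
  (try beta_reduce); repeat' (first
    | with_reducible apply Dfn.cond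
    | with_reducible apply Dfn.subset
    | with_reducible apply Dfn.inV
    | with_reducible apply Dfn.inK
    | with_reducible apply Dfn.bad
    | with_reducible apply Dfn.bij
    | with_reducible apply Dfn.od
    | with_reducible apply Dfn.ind
    | with_reducible apply Dfn.tr
    | with_reducible apply DT.ap
    | with_reducible apply DT.bu
    | with_reducible apply DT.pw
    | with_reducible apply DT.un
    | with_reducible apply DT.op
    | with_reducible apply DT.pr
    | with_reducible apply DT.sOf
    | with_reducible apply DT.the
    | with_reducible exact DT.var _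
    | with_reducible exact DT.const _
    | with_reducible apply Dfn.all
    | with_reducible apply Dfn.ex
    | with_reducible apply Dfn.exu
    | with_reducible apply Dfn.and
    | with_reducible apply Dfn.or
    | with_reducible apply Dfn.iff
    | with_reducible apply Dfn.not
    | with_reducible apply Dfn.imp
    | with_reducible apply Dfn.mem
    | with_reducible apply Dfn.eq
    | with_reducible apply Dfn.ur
    | apply_assumption
    | with_reducible exact Dfn.prop _)

theorem mem_WS (hR : D M (fun v => R (v 0) (v 1))) (he : ∀ u, M.E u e → M.U u) {x r : K}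
    (hex : ∃ r', Wt M e R x r r') :
    (∀ r', M.E r' (WS M e R x r) → Wt M e R x r r') ∧ ∃ r', M.E r' (WS M e R x r) := by
  have h1 := Dfn.cl3 (dfn_Wt (M := M) (e := e) hR)
  have h2 := DT.cl1 (dfn_Phi (M := M) e)
  obtain ⟨r0, hr0⟩ := hex
  have hlev : ∃ L, (∃ y, L = Phi M e y) ∧ ∃ r'', M.E r'' L ∧ Wt M e R x r r'' := by
    refine ⟨_, ⟨pr M r0 r0, rfl⟩, r0, ?_, hr0⟩
    exact mem_Phi.2 (Or.inr ⟨hr0.1.1.1, r0, mem_pr.2 (Or.inl rfl), sub_Phi r0 hr0.1.2 hr0.1.1.1⟩)
  obtain ⟨L, ⟨⟨y0, rfl⟩, r1, hr1, hw1⟩, hmin⟩ := M.min
    (P := fun L => (∃ y, L = Phi M e y) ∧ ∃ r'', M.E r'' L ∧ Wt M e R x r r'') (by (try beta_reduce); repeat' (first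
      | with_reducible apply Dfn.cond
      | with_reducible apply Dfn.subset
      | with_reducible apply Dfn.inV
      | with_reducible apply Dfn.inK
      | with_reducible apply Dfn.bad
      | with_reducible apply Dfn.bij
      | with_reducible apply Dfn.od
      | with_reducible apply Dfn.ind
      | with_reducible apply Dfn.tr
      | with_reducible apply DT.ap
      | with_reducible apply DT.bu
      | with_reducible apply DT.pw
      | with_reducible apply DT.un
      | with_reducible apply DT.op
      | with_reducible apply DT.pr
      | with_reducible apply DT.sOf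
      | with_reducible apply DT.the
      | with_reducible exact DT.var _
      | with_reducible exact DT.const _
      | with_reducible apply Dfn.all
      | with_reducible apply Dfn.ex
      | with_reducible apply Dfn.exu
      | with_reducible apply Dfn.and
      | with_reducible apply Dfn.or
      | with_reducible apply Dfn.iff
      | with_reducible apply Dfn.not
      | with_reducible apply Dfn.imp
      | with_reducible apply Dfn.mem
      | with_reducible apply Dfn.eq
      | with_reducible apply Dfn.ur
      | apply_assumption
      | with_reducible exact Dfn.prop _)) hlev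
  have hspec := sOf_spec (M.ofSub (P := fun r' => Wt M e R x r r' ∧
    ∀ y, (∃ r'', M.E r'' (Phi M e y) ∧ Wt M e R x r r'') → M.E r' (Phi M e y))
    (by (try beta_reduce); repeat' (first
      | with_reducible apply Dfn.cond
      | with_reducible apply Dfn.subset
      | with_reducible apply Dfn.inV
      | with_reducible apply Dfn.inK
      | with_reducible apply Dfn.bad
      | with_reducible apply Dfn.bij
      | with_reducible apply Dfn.od
      | with_reducible apply Dfn.ind
      | with_reducible apply Dfn.tr
      | with_reducible apply DT.ap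
      | with_reducible apply DT.bu
      | with_reducible apply DT.pw
      | with_reducible apply DT.un
      | with_reducible apply DT.op
      | with_reducible apply DT.pr
      | with_reducible apply DT.sOf
      | with_reducible apply DT.the
      | with_reducible exact DT.var _
      | with_reducible exact DT.const _
      | with_reducible apply Dfn.all
      | with_reducible apply Dfn.ex
      | with_reducible apply Dfn.exu
      | with_reducible apply Dfn.and
      | with_reducible apply Dfn.or
      | with_reducible apply Dfn.iff
      | with_reducible apply Dfn.not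
      | with_reducible apply Dfn.imp
      | with_reducible apply Dfn.mem
      | with_reducible apply Dfn.eq
      | with_reducible apply Dfn.ur
      | apply_assumption
      | with_reducible exact Dfn.prop _)) (Phi M e y0) (fun r' hr' => hr'.2 y0 ⟨r1, hr1, hw1⟩))
  refine ⟨fun r' hr' => ((hspec.2 r').1 hr').1, r1, (hspec.2 r1).2 ⟨hw1, ?_⟩⟩
  intro y hy
  rcases Phi_comparable he y0 y with h3 | h3
  · exact h3 r1 hr1
  · exact absurd ⟨⟨y, rfl⟩, hy⟩ (hmin _ h3)

theorem dfn_FL (hR : D M (fun v => R (v 0) (v 1))) :
    D M (fun v => FL M e q0 h R (v 0) (v 1) = v 2) := by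
  have h1 := DT.cl2 (dfn_WS (M := M) (e := e) hR)
  have h2 := DT.cl1 (dfn_bs (M := M) (q0 := q0))
  have h3 := Dfn.cl1 (dfn_CV (M := M) (e := e))
  unfold FL
  (try beta_reduce); repeat' (first
    | with_reducible apply Dfn.cond
    | with_reducible apply Dfn.subset
    | with_reducible apply Dfn.inV
    | with_reducible apply Dfn.inK
    | with_reducible apply Dfn.bad
    | with_reducible apply Dfn.bij
    | with_reducible apply Dfn.od
    | with_reducible apply Dfn.ind
    | with_reducible apply Dfn.tr
    | with_reducible apply DT.ap
    | with_reducible apply DT.bu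
    | with_reducible apply DT.pw
    | with_reducible apply DT.un
    | with_reducible apply DT.op
    | with_reducible apply DT.pr
    | with_reducible apply DT.sOf
    | with_reducible apply DT.the
    | with_reducible exact DT.var _
    | with_reducible exact DT.const _
    | with_reducible apply Dfn.all
    | with_reducible apply Dfn.ex
    | with_reducible apply Dfn.exu
    | with_reducible apply Dfn.and
    | with_reducible apply Dfn.or
    | with_reducible apply Dfn.iff
    | with_reducible apply Dfn.not
    | with_reducible apply Dfn.imp
    | with_reducible apply Dfn.mem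
    | with_reducible apply Dfn.eq
    | with_reducible apply Dfn.ur
    | apply_assumption
    | with_reducible exact Dfn.prop _)

theorem mem_FL (hR : D M (fun v => R (v 0) (v 1))) {β g z : K} :
    M.E z (FL M e q0 h R β g) ↔ (M.E z (bs M q0 g) ∨
      ∃ r r', (CV M e r ∧ Sub M r (bs M q0 g)) ∧ M.E r' (WS M e R (ap M h β) r) ∧ M.E z r') := by
  have h1 := DT.cl2 (dfn_WS (M := M) (e := e) hR)
  have h2 := DT.cl1 (dfn_bs (M := M) (q0 := q0))
  have h3 := Dfn.cl1 (dfn_CV (M := M) (e := e))
  obtain ⟨A, _, hA⟩ := M.image (f := fun r => WS M e R (ap M h β) r) (by (try beta_reduce); repeat' (first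
    | with_reducible apply Dfn.cond
    | with_reducible apply Dfn.subset
    | with_reducible apply Dfn.inV
    | with_reducible apply Dfn.inK
    | with_reducible apply Dfn.bad
    | with_reducible apply Dfn.bij
    | with_reducible apply Dfn.od
    | with_reducible apply Dfn.ind
    | with_reducible apply Dfn.tr
    | with_reducible apply DT.ap
    | with_reducible apply DT.bu
    | with_reducible apply DT.pw
    | with_reducible apply DT.un
    | with_reducible apply DT.op
    | with_reducible apply DT.pr
    | with_reducible apply DT.sOf
    | with_reducible apply DT.the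
    | with_reducible exact DT.var _
    | with_reducible exact DT.const _
    | with_reducible apply Dfn.all
    | with_reducible apply Dfn.ex
    | with_reducible apply Dfn.exu
    | with_reducible apply Dfn.and
    | with_reducible apply Dfn.or
    | with_reducible apply Dfn.iff
    | with_reducible apply Dfn.not
    | with_reducible apply Dfn.imp
    | with_reducible apply Dfn.mem
    | with_reducible apply Dfn.eq
    | with_reducible apply Dfn.ur
    | apply_assumption
    | with_reducible exact Dfn.prop _))
    (pw M (bs M q0 g))
  refine (sOf_spec (M.ofSub (by (try beta_reduce); repeat' (first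
    | with_reducible apply Dfn.cond
    | with_reducible apply Dfn.subset
    | with_reducible apply Dfn.inV
    | with_reducible apply Dfn.inK
    | with_reducible apply Dfn.bad
    | with_reducible apply Dfn.bij
    | with_reducible apply Dfn.od
    | with_reducible apply Dfn.ind
    | with_reducible apply Dfn.tr
    | with_reducible apply DT.ap
    | with_reducible apply DT.bu
    | with_reducible apply DT.pw
    | with_reducible apply DT.un
    | with_reducible apply DT.op
    | with_reducible apply DT.pr
    | with_reducible apply DT.sOf
    | with_reducible apply DT.the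
    | with_reducible exact DT.var _
    | with_reducible exact DT.const _
    | with_reducible apply Dfn.all
    | with_reducible apply Dfn.ex
    | with_reducible apply Dfn.exu
    | with_reducible apply Dfn.and
    | with_reducible apply Dfn.or
    | with_reducible apply Dfn.iff
    | with_reducible apply Dfn.not
    | with_reducible apply Dfn.imp
    | with_reducible apply Dfn.mem
    | with_reducible apply Dfn.eq
    | with_reducible apply Dfn.ur
    | apply_assumption
    | with_reducible exact Dfn.prop _)) (bu M (bs M q0 g) (un M (un M A))) ?_)).2 z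
  rintro z (h | ⟨r, r', ⟨h2, h3⟩, h4, h5⟩)
  · exact mem_bu.2 (Or.inl h)
  · exact mem_bu.2 (Or.inr (mem_un.2 ⟨r', mem_un.2 ⟨_, (hA _).2 ⟨r, mem_pw.2 ⟨h2.1.1, h3⟩, rfl⟩,
      h4⟩, h5⟩))

/-- the union of a chain of conditions -/
theorem union_chain {Q : K → K} (hQ : D M (fun v => Q (v 0) = v 1)) {δ : K} (hδ : Od M δ)
    (hq0 : CV M e q0) (h1 : ∀ γ, M.E γ δ → CV M e (Q γ) ∧ Sub M q0 (Q γ) ∧
      ∀ γ', M.E γ' γ → Sub M (Q γ') (Q γ)) : CV M e (bs M q0 (res M Q δ)) := by
  refine ⟨⟨bs_ur _, ?_, ?_⟩, InV.set (bs_ur _) ?_⟩
  · intro p hp
    rcases (mem_bs_res hQ).1 hp with h2 | ⟨γ, hγ, h2⟩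
    · exact hq0.1.2.1 p h2
    · exact (h1 γ hγ).1.1.2.1 p h2
  · intro z y y' hy hy'
    rcases (mem_bs_res hQ).1 hy with h2 | ⟨γ, hγ, h2⟩
    · rcases (mem_bs_res hQ).1 hy' with h3 | ⟨γ', hγ', h3⟩
      · exact hq0.1.2.2 z y y' h2 h3
      · exact (h1 γ' hγ').1.1.2.2 z y y' ((h1 γ' hγ').2.1 _ h2) h3
    · rcases (mem_bs_res hQ).1 hy' with h3 | ⟨γ', hγ', h3⟩
      · exact (h1 γ hγ).1.1.2.2 z y y' h2 ((h1 γ hγ).2.1 _ h3)
      · rcases od_tri (hδ.mem hγ) (hδ.mem hγ') with h4 | h4 | h4
        · exact (h1 γ' hγ').1.1.2.2 z y y' ((h1 γ' hγ').2.2 γ h4 _ h2) h3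
        · subst h4
          exact (h1 γ hγ).1.1.2.2 z y y' h2 h3
        · exact (h1 γ hγ).1.1.2.2 z y y' h2 ((h1 γ hγ).2.2 γ' h4 _ h3)
  · intro p hp
    rcases (mem_bs_res hQ).1 hp with h2 | ⟨γ, hγ, h2⟩
    · exact hq0.2.mem h2
    · exact (h1 γ hγ).1.2.mem h2

theorem distrib (he : ∀ u, M.E u e → M.U u) (hR : D M (fun v => R (v 0) (v 1)))
    (hq0 : CV M e q0)
    (hopen : ∀ x, M.E x a → ∀ r r', CV M e r → CV M e r' → Sub M r r' → R x r → R x r')
    (hdense : ∀ x, M.E x a → ∀ r, CV M e r → Sub M q0 r →
      ∃ r', CV M e r' ∧ Sub M r r' ∧ R x r') :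
    ∃ r, CV M e r ∧ Sub M q0 r ∧ ∀ x, M.E x a → R x r := by
  obtain ⟨α, h, hα, hh⟩ := well_order (M := M) a
  set FLf := FL M e q0 h R with hFLf
  have hFL : D M (fun v => FLf (v 0) (v 1) = v 2) := dfn_FL hR
  have hΛd := Dfn.recH hFL
  set Λ := recH M FLf with hΛ
  obtain ⟨A, _, hA⟩ := M.image hΛd α
  set B := un M A with hB
  have hΛB : ∀ β, M.E β α → Sub M (Λ β) B := by
    intro β hβ z hz
    exact mem_un.2 ⟨Λ β, (hA _).2 ⟨β, hβ, rfl⟩, hz⟩
  obtain ⟨c, hc⟩ := exists_choice (M := M) (pw M (pw M B))
  let Fq : K → K → K := fun β g => ap M c (WS M e R (ap M h β) (bs M q0 g))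
  have hFq : D M (fun v => Fq (v 0) (v 1) = v 2) := by
    have h1 := DT.cl2 (dfn_WS (M := M) (e := e) hR)
    have h2 := DT.cl1 (dfn_bs (M := M) (q0 := q0))
    simp only [Fq]
    (try beta_reduce); repeat' (first
      | with_reducible apply Dfn.cond
      | with_reducible apply Dfn.subset
      | with_reducible apply Dfn.inV
      | with_reducible apply Dfn.inK
      | with_reducible apply Dfn.bad
      | with_reducible apply Dfn.bij
      | with_reducible apply Dfn.od
      | with_reducible apply Dfn.ind
      | with_reducible apply Dfn.tr
      | with_reducible apply DT.ap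
      | with_reducible apply DT.bu
      | with_reducible apply DT.pw
      | with_reducible apply DT.un
      | with_reducible apply DT.op
      | with_reducible apply DT.pr
      | with_reducible apply DT.sOf
      | with_reducible apply DT.the
      | with_reducible exact DT.var _
      | with_reducible exact DT.const _
      | with_reducible apply Dfn.all
      | with_reducible apply Dfn.ex
      | with_reducible apply Dfn.exu
      | with_reducible apply Dfn.and
      | with_reducible apply Dfn.or
      | with_reducible apply Dfn.iff
      | with_reducible apply Dfn.not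
      | with_reducible apply Dfn.imp
      | with_reducible apply Dfn.mem
      | with_reducible apply Dfn.eq
      | with_reducible apply Dfn.ur
      | apply_assumption
      | with_reducible exact Dfn.prop _)
  have hQd := Dfn.recH hFq
  set Q := recH M Fq with hQ
  have hQ' := DT.cl1 hQd
  have hΛ' := DT.cl1 hΛd
  have hR' := Dfn.cl2 hR
  have hCV' := Dfn.cl1 (dfn_CV (M := M) (e := e))
  have key : ∀ β, M.E β α → (CV M e (Q β) ∧ Sub M q0 (Q β) ∧
      (∀ γ, M.E γ β → Sub M (Q γ) (Q β))) ∧ R (ap M h β) (Q β) ∧ Sub M (Q β) (Λ β) := by
    refine M.ind (by (try beta_reduce); repeat' (first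
      | with_reducible apply Dfn.cond
      | with_reducible apply Dfn.subset
      | with_reducible apply Dfn.inV
      | with_reducible apply Dfn.inK
      | with_reducible apply Dfn.bad
      | with_reducible apply Dfn.bij
      | with_reducible apply Dfn.od
      | with_reducible apply Dfn.ind
      | with_reducible apply Dfn.tr
      | with_reducible apply DT.ap
      | with_reducible apply DT.bu
      | with_reducible apply DT.pw
      | with_reducible apply DT.un
      | with_reducible apply DT.op
      | with_reducible apply DT.pr
      | with_reducible apply DT.sOf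
      | with_reducible apply DT.the
      | with_reducible exact DT.var _
      | with_reducible exact DT.const _
      | with_reducible apply Dfn.all
      | with_reducible apply Dfn.ex
      | with_reducible apply Dfn.exu
      | with_reducible apply Dfn.and
      | with_reducible apply Dfn.or
      | with_reducible apply Dfn.iff
      | with_reducible apply Dfn.not
      | with_reducible apply Dfn.imp
      | with_reducible apply Dfn.mem
      | with_reducible apply Dfn.eq
      | with_reducible apply Dfn.ur
      | apply_assumption
      | with_reducible exact Dfn.prop _)) ?_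
    intro β ih hβ
    have hih : ∀ γ, M.E γ β → (CV M e (Q γ) ∧ Sub M q0 (Q γ) ∧
      (∀ γ', M.E γ' γ → Sub M (Q γ') (Q γ))) ∧ R (ap M h γ) (Q γ) ∧ Sub M (Q γ) (Λ γ) :=
      fun γ hγ => ih γ hγ (hα.2.1 β hβ γ hγ)
    set r := bs M q0 (res M Q β) with hr
    have hrC : CV M e r := union_chain hQd (hα.mem hβ) hq0 fun γ hγ => (hih γ hγ).1
    have hq0r : Sub M q0 r := fun z hz => (mem_bs_res hQd).2 (Or.inl hz)
    have hrb : Sub M r (bs M q0 (res M Λ β)) := by
      intro z hz
      rcases (mem_bs_res hQd).1 hz with h1 | ⟨γ, hγ, h1⟩
      · exact (mem_bs_res hΛd).2 (Or.inl h1)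
      · exact (mem_bs_res hΛd).2 (Or.inr ⟨γ, hγ, (hih γ hγ).2.2 z h1⟩)
    have hxa : M.E (ap M h β) a := hh.1 β hβ
    obtain ⟨hW1, hW2⟩ := mem_WS hR he (hdense _ hxa r hrC hq0r)
    have hWΛ : ∀ r', M.E r' (WS M e R (ap M h β) r) → Sub M r' (Λ β) := by
      intro r' hr' z hz
      rw [hΛ, rec_eq hFL β, ← hΛ, hFLf]
      exact (mem_FL hR).2 (Or.inr ⟨r, r', ⟨hrC, hrb⟩, hr', hz⟩)
    have hWB : M.E (WS M e R (ap M h β) r) (pw M (pw M B)) := by
      obtain ⟨r', hr'⟩ := hW2
      refine mem_pw.2 ⟨M.not_ur hr', fun r'' hr'' => mem_pw.2 ⟨(hW1 r'' hr'').1.1.1, ?_⟩⟩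
      exact fun z hz => hΛB β hβ z (hWΛ r'' hr'' z hz)
    have hQβ : Q β = ap M c (WS M e R (ap M h β) r) := by
      rw [hQ, rec_eq hFq β, ← hQ]
    have hQW : M.E (Q β) (WS M e R (ap M h β) r) := by
      rw [hQβ]
      exact hc _ hWB hW2
    obtain ⟨h1, h2, h3⟩ := hW1 _ hQW
    refine ⟨⟨h1, hq0r.trans h2, fun γ hγ => Sub.trans (fun z hz =>
      (mem_bs_res hQd).2 (Or.inr ⟨γ, hγ, hz⟩)) h2⟩, h3, hWΛ _ hQW⟩
  have hrC : CV M e (bs M q0 (res M Q α)) := union_chain hQd hα hq0 fun γ hγ => (key γ hγ).1
  refine ⟨bs M q0 (res M Q α), hrC, fun z hz => (mem_bs_res hQd).2 (Or.inl hz), ?_⟩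
  intro x hx
  obtain ⟨β, hβ, rfl⟩ := hh.2.2 x hx
  exact hopen _ hx (Q β) _ (key β hβ).1.1 hrC (fun z hz =>
    (mem_bs_res hQd).2 (Or.inr ⟨β, hβ, hz⟩)) (key β hβ).2.1

end distrib

end Pool.Agent.H83R3.GBU
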