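import Pool.Agent.H83R3.GBU.Dist

set_option autoImplicit false
set_option linter.unusedSectionVars false

namespace Pool.Agent.H83R3.GBU

variable {K : Type} [Nonempty K] {M : Mod K} {G : K → Prop}

/-- a variable or a parameter -/
def Tm (t : (ℕ → K) → K) : Prop := (∃ i, ∀ v, t v = v i) ∨ (∃ c, ∀ v, t v = c)

theorem Tm.var (i : ℕ) : Tm (fun v : ℕ → K => v i) := Or.inl ⟨i, fun _ => rfl⟩
theorem Tm.const (c : K) : Tm (fun _ : ℕ → K => c) := Or.inr ⟨c, fun _ => rfl⟩

/-- substitution of variables and parameters -/
theorem Dfn.subTm {E : K → K → Prop} {U : K → Prop} {R : (ℕ → K) → Prop}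
    (h : Dfn E U G R) (f : ℕ → (ℕ → K) → K)
    (hf : ∀ n, Tm (f n)) : Dfn E U G (fun v => R (fun n => f n v)) := by
  classical
  obtain ⟨φ, p, hφ⟩ := h
  let d : K := Classical.arbitrary K
  let c : ℕ → K := fun n => if hc : ∃ c, ∀ v, f n v = c then hc.choose else d
  let g : ℕ → ℕ := fun n => if hc : ∃ i, ∀ v, f n v = v i then 2 * hc.choose else
    2 * (2 * n + 1) + 1
  let h : ℕ → ℕ := fun n => if n % 2 = 0 then g (n / 2) else 2 * (2 * (n / 2)) + 1
  refine ⟨rename h φ, mix p c, fun v => ?_⟩
  refine (hφ _).trans ?_
  rw [sat_rename]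
  have : (mix (fun n => f n v) p) = (fun n => mix v (mix p c) (h n)) := by
    funext n
    rcases Nat.even_or_odd' n with ⟨m, rfl | rfl⟩
    · rw [mix_even]
      have h1 : h (2 * m) = g m := by
        simp only [h]
        rw [if_pos (by omega)]
        congr 1
        omega
      rw [h1]
      by_cases hc : ∃ i, ∀ v, f m v = v i
      · simp only [g, dif_pos hc, mix_even]
        exact hc.choose_spec v
      · have hc2 : ∃ c, ∀ v, f m v = c := by
          rcases hf m with h' | h'
          · exact absurd h' hc
          · exact h'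
        simp only [g, dif_neg hc, mix_odd, c, dif_pos hc2]
        exact hc2.choose_spec v
    · rw [mix_odd]
      have h1 : h (2 * m + 1) = 2 * (2 * m) + 1 := by
        simp only [h]
        rw [if_neg (by omega)]
        congr 3
        omega
      rw [h1, mix_odd, mix_even]
  rw [this]

/-- the forcing relation -/
def Fo (M : Mod K) : CFml → (ℕ → K) → K → Prop
  | .mem i j, v, _ => M.E (v i) (v j)
  | .eq i j, v, _ => v i = v j
  | .ur i, v, _ => M.U (v i)
  | .cls i _, v, p => ∀ q, Cond M q → Sub M p q → ∃ r, Cond M r ∧ Sub M q r ∧ M.E (v i) r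
  | .bot, _, _ => False
  | .imp φ ψ, v, p => ∀ q, Cond M q → Sub M p q → Fo M φ v q → Fo M ψ v q
  | .all φ, v, p => ∀ a, Fo M φ (cons a v) p

def neg (φ : CFml) : CFml := .imp φ .bot

theorem Fo.mono (φ : CFml) : ∀ (v : ℕ → K) (p q : K), Sub M p q → Fo M φ v p → Fo M φ v q := by
  induction φ with
  | mem i j => intro v p q _ h; exact h
  | eq i j => intro v p q _ h; exact h
  | ur i => intro v p q _ h; exact h
  | cls i k => intro v p q hpq h r hr hqr; exact h r hr (hpq.trans hqr)
  | bot => intro v p q _ h; exact h
  | imp φ ψ h1 h2 => intro v p q hpq h r hr hqr; exact h r hr (hpq.trans hqr)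
  | all φ h1 => intro v p q hpq h a; exact h1 _ p q hpq (h a)

theorem Fo.reg (φ : CFml) : ∀ (v : ℕ → K) (p : K), Cond M p →
    (∀ q, Cond M q → Sub M p q → ∃ r, Cond M r ∧ Sub M q r ∧ Fo M φ v r) → Fo M φ v p := by
  induction φ with
  | mem i j => intro v p hp h; obtain ⟨_, _, _, h⟩ := h p hp Sub.rfl; exact h
  | eq i j => intro v p hp h; obtain ⟨_, _, _, h⟩ := h p hp Sub.rfl; exact h
  | ur i => intro v p hp h; obtain ⟨_, _, _, h⟩ := h p hp Sub.rfl; exact h
  | cls i k =>
    intro v p hp h q hq hpq
    obtain ⟨r, hr, hqr, h1⟩ := h q hq hpq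
    obtain ⟨s, hs, hrs, h2⟩ := h1 r hr Sub.rfl
    exact ⟨s, hs, hqr.trans hrs, h2⟩
  | bot => intro v p hp h; obtain ⟨_, _, _, h⟩ := h p hp Sub.rfl; exact h
  | imp φ ψ h1 h2 =>
    intro v p hp h q hq hpq hφ
    apply h2 v q hq
    intro q' hq' hqq'
    obtain ⟨r, hr, hqr, h3⟩ := h q' hq' (hpq.trans hqq')
    exact ⟨r, hr, hqr, h3 r hr Sub.rfl (Fo.mono φ v q r (hqq'.trans hqr) hφ)⟩
  | all φ h1 =>
    intro v p hp h a
    apply h1 _ p hp
    intro q hq hpq
    obtain ⟨r, hr, hqr, h3⟩ := h q hq hpq
    exact ⟨r, hr, hqr, h3 a⟩

theorem Fo.congr (φ : CFml) : ∀ (v w : ℕ → K) (p : K), (∀ n, n < bd φ → v n = w n) →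
    (Fo M φ v p ↔ Fo M φ w p) := by
  induction φ with
  | mem i j =>
    intro v w p h
    have h1 : v i = w i := h i (by simp only [bd]; omega)
    have h2 : v j = w j := h j (by simp only [bd]; omega)
    simp only [Fo, h1, h2]
  | eq i j =>
    intro v w p h
    have h1 : v i = w i := h i (by simp only [bd]; omega)
    have h2 : v j = w j := h j (by simp only [bd]; omega)
    simp only [Fo, h1, h2]
  | ur i =>
    intro v w p h
    have h1 : v i = w i := h i (by simp only [bd]; omega)
    simp only [Fo, h1]
  | cls i k =>
    intro v w p h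
    have h1 : v i = w i := h i (by simp only [bd]; omega)
    simp only [Fo, h1]
  | bot => intro v w p _; exact Iff.rfl
  | imp φ ψ h1 h2 =>
    intro v w p h
    refine forall_congr' fun q => imp_congr_right fun _ => imp_congr_right fun _ =>
      imp_congr (h1 v w q fun n hn => h n ?_) (h2 v w q fun n hn => h n ?_)
    · simp only [bd]; omega
    · simp only [bd]; omega
  | all φ ih =>
    intro v w p h
    refine forall_congr' fun a => ih _ _ p fun n hn => ?_
    cases n with
    | zero => rfl
    | succ n => exact h n (by simp only [bd]; omega)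

theorem Fo.not_both {φ : CFml} {v : ℕ → K} {p : K} (hp : Cond M p) (h1 : Fo M φ v p)
    (h2 : Fo M (neg φ) v p) : False := h2 p hp Sub.rfl h1

theorem Fo.decide (φ : CFml) (v : ℕ → K) (p : K) (hp : Cond M p) :
    ∃ q, Cond M q ∧ Sub M p q ∧ (Fo M φ v q ∨ Fo M (neg φ) v q) := by
  by_cases h : ∃ q, Cond M q ∧ Sub M p q ∧ Fo M φ v q
  · obtain ⟨q, hq, hpq, h⟩ := h
    exact ⟨q, hq, hpq, Or.inl h⟩
  · exact ⟨p, hp, Sub.rfl, Or.inr fun q hq hpq h' => h ⟨q, hq, hpq, h'⟩⟩

theorem Fo.of_not {φ : CFml} {v : ℕ → K} {p : K} (hp : Cond M p) (h : ¬ Fo M φ v p) :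
    ∃ q, Cond M q ∧ Sub M p q ∧ Fo M (neg φ) v q := by
  by_contra hcon
  apply h
  apply Fo.reg φ v p hp
  intro q hq hpq
  by_contra hcon2
  exact hcon ⟨q, hq, hpq, fun r hr hqr h' => hcon2 ⟨r, hr, hqr, h'⟩⟩

theorem Fo.dfn (φ : CFml) : D M (fun w => Fo M φ (fun n => w (n + 1)) (w 0)) := by
  induction φ with
  | mem i j => simp only [Fo]; (try beta_reduce); repeat' (first
    | with_reducible apply Dfn.cond
    | with_reducible apply Dfn.subset
    | with_reducible apply Dfn.inV
    | with_reducible apply Dfn.inK
    | with_reducible apply Dfn.bad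
    | with_reducible apply Dfn.bij
    | with_reducible apply Dfn.od
    | with_reducible apply Dfn.ind
    | with_reducible apply Dfn.tr
    | with_reducible apply DT.ap
    | with_reducible apply DT.bu
    | with_reducible apply DT.pw
    | with_reducible apply DT.un
    | with_reducible apply DT.op
    | with_reducible apply DT.pr
    | with_reducible apply DT.sOf
    | with_reducible apply DT.the
    | with_reducible exact DT.var _
    | with_reducible exact DT.const _
    | with_reducible apply Dfn.all
    | with_reducible apply Dfn.ex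
    | with_reducible apply Dfn.exu
    | with_reducible apply Dfn.and
    | with_reducible apply Dfn.or
    | with_reducible apply Dfn.iff
    | with_reducible apply Dfn.not
    | with_reducible apply Dfn.imp
    | with_reducible apply Dfn.mem
    | with_reducible apply Dfn.eq
    | with_reducible apply Dfn.ur
    | apply_assumption
    | with_reducible exact Dfn.prop _)
  | eq i j => simp only [Fo]; (try beta_reduce); repeat' (first
    | with_reducible apply Dfn.cond
    | with_reducible apply Dfn.subset
    | with_reducible apply Dfn.inV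
    | with_reducible apply Dfn.inK
    | with_reducible apply Dfn.bad
    | with_reducible apply Dfn.bij
    | with_reducible apply Dfn.od
    | with_reducible apply Dfn.ind
    | with_reducible apply Dfn.tr
    | with_reducible apply DT.ap
    | with_reducible apply DT.bu
    | with_reducible apply DT.pw
    | with_reducible apply DT.un
    | with_reducible apply DT.op
    | with_reducible apply DT.pr
    | with_reducible apply DT.sOf
    | with_reducible apply DT.the
    | with_reducible exact DT.var _
    | with_reducible exact DT.const _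
    | with_reducible apply Dfn.all
    | with_reducible apply Dfn.ex
    | with_reducible apply Dfn.exu
    | with_reducible apply Dfn.and
    | with_reducible apply Dfn.or
    | with_reducible apply Dfn.iff
    | with_reducible apply Dfn.not
    | with_reducible apply Dfn.imp
    | with_reducible apply Dfn.mem
    | with_reducible apply Dfn.eq
    | with_reducible apply Dfn.ur
    | apply_assumption
    | with_reducible exact Dfn.prop _)
  | ur i => simp only [Fo]; (try beta_reduce); repeat' (first
    | with_reducible apply Dfn.cond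
    | with_reducible apply Dfn.subset
    | with_reducible apply Dfn.inV
    | with_reducible apply Dfn.inK
    | with_reducible apply Dfn.bad
    | with_reducible apply Dfn.bij
    | with_reducible apply Dfn.od
    | with_reducible apply Dfn.ind
    | with_reducible apply Dfn.tr
    | with_reducible apply DT.ap
    | with_reducible apply DT.bu
    | with_reducible apply DT.pw
    | with_reducible apply DT.un
    | with_reducible apply DT.op
    | with_reducible apply DT.pr
    | with_reducible apply DT.sOf
    | with_reducible apply DT.the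
    | with_reducible exact DT.var _
    | with_reducible exact DT.const _
    | with_reducible apply Dfn.all
    | with_reducible apply Dfn.ex
    | with_reducible apply Dfn.exu
    | with_reducible apply Dfn.and
    | with_reducible apply Dfn.or
    | with_reducible apply Dfn.iff
    | with_reducible apply Dfn.not
    | with_reducible apply Dfn.imp
    | with_reducible apply Dfn.mem
    | with_reducible apply Dfn.eq
    | with_reducible apply Dfn.ur
    | apply_assumption
    | with_reducible exact Dfn.prop _)
  | cls i k => simp only [Fo]; (try beta_reduce); repeat' (first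
    | with_reducible apply Dfn.cond
    | with_reducible apply Dfn.subset
    | with_reducible apply Dfn.inV
    | with_reducible apply Dfn.inK
    | with_reducible apply Dfn.bad
    | with_reducible apply Dfn.bij
    | with_reducible apply Dfn.od
    | with_reducible apply Dfn.ind
    | with_reducible apply Dfn.tr
    | with_reducible apply DT.ap
    | with_reducible apply DT.bu
    | with_reducible apply DT.pw
    | with_reducible apply DT.un
    | with_reducible apply DT.op
    | with_reducible apply DT.pr
    | with_reducible apply DT.sOf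
    | with_reducible apply DT.the
    | with_reducible exact DT.var _
    | with_reducible exact DT.const _
    | with_reducible apply Dfn.all
    | with_reducible apply Dfn.ex
    | with_reducible apply Dfn.exu
    | with_reducible apply Dfn.and
    | with_reducible apply Dfn.or
    | with_reducible apply Dfn.iff
    | with_reducible apply Dfn.not
    | with_reducible apply Dfn.imp
    | with_reducible apply Dfn.mem
    | with_reducible apply Dfn.eq
    | with_reducible apply Dfn.ur
    | apply_assumption
    | with_reducible exact Dfn.prop _)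
  | bot => exact Dfn.prop _
  | imp φ ψ h1 h2 =>
    simp only [Fo]
    have h1' := h1.ren (fun n => if n = 0 then 0 else n + 1)
    have h2' := h2.ren (fun n => if n = 0 then 0 else n + 1)
    refine Dfn.all (.imp (by (try beta_reduce); repeat' (first
      | with_reducible apply Dfn.cond
      | with_reducible apply Dfn.subset
      | with_reducible apply Dfn.inV
      | with_reducible apply Dfn.inK
      | with_reducible apply Dfn.bad
      | with_reducible apply Dfn.bij
      | with_reducible apply Dfn.od
      | with_reducible apply Dfn.ind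
      | with_reducible apply Dfn.tr
      | with_reducible apply DT.ap
      | with_reducible apply DT.bu
      | with_reducible apply DT.pw
      | with_reducible apply DT.un
      | with_reducible apply DT.op
      | with_reducible apply DT.pr
      | with_reducible apply DT.sOf
      | with_reducible apply DT.the
      | with_reducible exact DT.var _
      | with_reducible exact DT.const _
      | with_reducible apply Dfn.all
      | with_reducible apply Dfn.ex
      | with_reducible apply Dfn.exu
      | with_reducible apply Dfn.and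
      | with_reducible apply Dfn.or
      | with_reducible apply Dfn.iff
      | with_reducible apply Dfn.not
      | with_reducible apply Dfn.imp
      | with_reducible apply Dfn.mem
      | with_reducible apply Dfn.eq
      | with_reducible apply Dfn.ur
      | apply_assumption
      | with_reducible exact Dfn.prop _)) (.imp (by (try beta_reduce); repeat' (first
      | with_reducible apply Dfn.cond
      | with_reducible apply Dfn.subset
      | with_reducible apply Dfn.inV
      | with_reducible apply Dfn.inK
      | with_reducible apply Dfn.bad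
      | with_reducible apply Dfn.bij
      | with_reducible apply Dfn.od
      | with_reducible apply Dfn.ind
      | with_reducible apply Dfn.tr
      | with_reducible apply DT.ap
      | with_reducible apply DT.bu
      | with_reducible apply DT.pw
      | with_reducible apply DT.un
      | with_reducible apply DT.op
      | with_reducible apply DT.pr
      | with_reducible apply DT.sOf
      | with_reducible apply DT.the
      | with_reducible exact DT.var _
      | with_reducible exact DT.const _
      | with_reducible apply Dfn.all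
      | with_reducible apply Dfn.ex
      | with_reducible apply Dfn.exu
      | with_reducible apply Dfn.and
      | with_reducible apply Dfn.or
      | with_reducible apply Dfn.iff
      | with_reducible apply Dfn.not
      | with_reducible apply Dfn.imp
      | with_reducible apply Dfn.mem
      | with_reducible apply Dfn.eq
      | with_reducible apply Dfn.ur
      | apply_assumption
      | with_reducible exact Dfn.prop _)) (.imp ?_ ?_)))
    · exact h1'
    · exact h2'
  | all φ h1 =>
    simp only [Fo]
    have h1' := h1.ren (fun n => if n = 0 then 1 else if n = 1 then 0 else n)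
    refine Dfn.all (h1'.congr fun w => ?_)
    have : (fun n => w (if n + 1 = 0 then 1 else if n + 1 = 1 then 0 else n + 1)) =
        cons (w 0) (fun n => w (n + 1 + 1)) := by
      funext n
      cases n with
      | zero => rfl
      | succ n => rfl
    simp only [this]
    exact Iff.rfl

theorem Fo.dfn1 (φ : CFml) (v : ℕ → K) : D M (fun w => Fo M φ (cons (w 0) v) (w 1)) := by
  refine (Dfn.subTm (Fo.dfn (M := M) φ) (fun n => match n with
    | 0 => fun w => w 1
    | 1 => fun w => w 0
    | n + 2 => fun _ => v n) ?_).congr fun w => ?_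
  · intro n
    match n with
    | 0 => exact .var _
    | 1 => exact .var _
    | n + 2 => exact .const _
  · have : cons (w 0) v = fun n => (match n + 1 with
        | 0 => fun w => w 1
        | 1 => fun w => w 0
        | n + 2 => fun _ => v n : (ℕ → K) → K) w := by
      funext n
      cases n with
      | zero => rfl
      | succ n => rfl
    rw [this]

theorem Fo.dfn2 (φ : CFml) (v : ℕ → K) :
    D M (fun w => Fo M φ (cons (w 0) (cons (w 1) v)) (w 2)) := by
  refine (Dfn.subTm (Fo.dfn (M := M) φ) (fun n => match n with
    | 0 => fun w => w 2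
    | 1 => fun w => w 0
    | 2 => fun w => w 1
    | n + 3 => fun _ => v n) ?_).congr fun w => ?_
  · intro n
    match n with
    | 0 => exact .var _
    | 1 => exact .var _
    | 2 => exact .var _
    | n + 3 => exact .const _
  · have : cons (w 0) (cons (w 1) v) = fun n => (match n + 1 with
        | 0 => fun w => w 2
        | 1 => fun w => w 0
        | 2 => fun w => w 1
        | n + 3 => fun _ => v n : (ℕ → K) → K) w := by
      funext n
      match n with
      | 0 => rfl
      | 1 => rfl
      | n + 2 => rfl
    rw [this]

/-! ### automorphisms -/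

namespace Auto

variable {π : K → K} (h : Auto M π)

include h

theorem sub {p q : K} (hpq : Sub M p q) : Sub M (π p) (π q) := by
  intro w hw
  rw [h.mem'] at hw ⊢
  exact hpq _ hw

theorem sub_iff {p q : K} : Sub M (π p) q ↔ Sub M p (π q) := by
  constructor
  · intro h1
    have := h.sub h1
    rwa [h.inv] at this
  · intro h1
    have := h.sub h1
    rwa [h.inv] at this

theorem cond {q : K} (hq : Cond M q) : Cond M (π q) := by
  refine ⟨fun h1 => hq.1 ((h.ur q).1 h1), ?_, ?_⟩
  · intro p hp
    rw [h.mem'] at hp
    obtain ⟨z, y, h1, h2⟩ := hq.2.1 _ hp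
    refine ⟨π z, π y, ?_, (h.mem y z).2 h2⟩
    rw [← h.op, ← h1, h.inv]
  · intro z y y' hy hy'
    rw [h.mem', h.op] at hy hy'
    exact h.inj (hq.2.2 _ _ _ hy hy')

theorem cond_iff {q : K} : Cond M (π q) ↔ Cond M q := by
  constructor
  · intro h1
    have := h.cond h1
    rwa [h.inv] at this
  · exact h.cond

theorem fo (φ : CFml) : ∀ (v : ℕ → K) (p : K),
    Fo M φ (fun n => π (v n)) (π p) ↔ Fo M φ v p := by
  induction φ with
  | mem i j => intro v p; exact h.mem _ _
  | eq i j => intro v p; exact ⟨fun h1 => h.inj h1, fun h1 => congrArg π h1⟩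
  | ur i => intro v p; exact h.ur _
  | cls i k =>
    intro v p
    constructor
    · intro h1 q hq hpq
      obtain ⟨r, hr, hqr, h2⟩ := h1 (π q) (h.cond hq) (h.sub hpq)
      exact ⟨π r, h.cond hr, h.sub_iff.1 hqr, (h.mem' _ _).2 h2⟩
    · intro h1 q hq hpq
      obtain ⟨r, hr, hqr, h2⟩ := h1 (π q) (h.cond hq) (h.sub_iff.1 hpq)
      exact ⟨π r, h.cond hr, h.sub_iff.1 hqr, (h.mem _ _).2 h2⟩
  | bot => intro v p; exact Iff.rfl
  | imp φ ψ h1 h2 =>
    intro v p
    constructor
    · intro h3 q hq hpq hφ
      exact (h2 v q).1 (h3 (π q) (h.cond hq) (h.sub hpq) ((h1 v q).2 hφ))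
    · intro h3 q hq hpq hφ
      have h4 := h1 v (π q)
      have h5 := h2 v (π q)
      rw [h.inv] at h4 h5
      exact h5.2 (h3 (π q) (h.cond hq) (h.sub_iff.1 hpq) (h4.1 hφ))
  | all φ h1 =>
    intro v p
    have key : ∀ a, (Fo M φ (cons (π a) (fun n => π (v n))) (π p) ↔ Fo M φ (cons a v) p) := by
      intro a
      rw [← h1 (cons a v) p]
      have : (fun n => π (cons a v n)) = cons (π a) (fun n => π (v n)) := by
        funext n
        cases n <;> rfl
      rw [this]
    constructor
    · intro h3 a
      exact (key a).1 (h3 (π a))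
    · intro h3 a
      have := (key (π a)).2 (h3 (π a))
      rwa [h.inv] at this

end Auto

/-! ### moving the kernel -/

/-- every set of urelements outside of `e` has a copy -/
def Gd (M : Mod K) (e : K) : Prop := (∀ u, M.E u e → M.U u) ∧
  ∀ C, (∀ u, M.E u C → M.U u ∧ ¬ M.E u e) → Dup M e C

theorem exists_good (k : K) (hk : ∀ u, M.E u k → M.U u) :
    ∃ e, Gd M e ∧ ∀ u, M.E u k → M.E u e := by
  obtain ⟨e0, he0, h⟩ := exists_base M
  refine ⟨bu M e0 k, ⟨?_, ?_⟩, fun u hu => mem_bu.2 (Or.inr hu)⟩
  · intro u hu
    rcases mem_bu.1 hu with h1 | h1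
    · exact he0 u h1
    · exact hk u h1
  · intro C hC
    refine h (bu M e0 k) (fun u hu => mem_bu.2 (Or.inl hu)) ?_ C hC
    intro u hu
    rcases mem_bu.1 hu with h1 | h1
    · exact he0 u h1
    · exact hk u h1

/-- `π` moves the kernel of `x` away, except for `e` -/
structure Move (M : Mod K) (e x : K) (π : K → K) : Prop where
  auto : Auto M π
  fix : ∀ u, M.E u e → π u = u
  move : ∀ u, InK M u x → InK M (π u) x → M.E u e

theorem exists_move {e : K} (hg : Gd M e) (x : K) : ∃ π, Move M e x π := by
  obtain ⟨k, _, hk⟩ := exists_ker (M := M) x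
  obtain ⟨C, _, hC⟩ := M.sep (fun u => ¬ M.E u e) (by (try beta_reduce); repeat' (first
    | with_reducible apply Dfn.cond
    | with_reducible apply Dfn.subset
    | with_reducible apply Dfn.inV
    | with_reducible apply Dfn.inK
    | with_reducible apply Dfn.bad
    | with_reducible apply Dfn.bij
    | with_reducible apply Dfn.od
    | with_reducible apply Dfn.ind
    | with_reducible apply Dfn.tr
    | with_reducible apply DT.ap
    | with_reducible apply DT.bu
    | with_reducible apply DT.pw
    | with_reducible apply DT.un
    | with_reducible apply DT.op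
    | with_reducible apply DT.pr
    | with_reducible apply DT.sOf
    | with_reducible apply DT.the
    | with_reducible exact DT.var _
    | with_reducible exact DT.const _
    | with_reducible apply Dfn.all
    | with_reducible apply Dfn.ex
    | with_reducible apply Dfn.exu
    | with_reducible apply Dfn.and
    | with_reducible apply Dfn.or
    | with_reducible apply Dfn.iff
    | with_reducible apply Dfn.not
    | with_reducible apply Dfn.imp
    | with_reducible apply Dfn.mem
    | with_reducible apply Dfn.eq
    | with_reducible apply Dfn.ur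
    | apply_assumption
    | with_reducible exact Dfn.prop _)) k
  have hC1 : ∀ u, M.E u C ↔ (InK M u x ∧ ¬ M.E u e) := fun u => by rw [hC u, hk u]
  have hCU : ∀ u, M.E u C → M.U u := fun u hu => ((hC1 u).1 hu).1.1
  obtain ⟨f, hf1, hf2⟩ := hg.2 C (fun u hu => ⟨hCU u hu, ((hC1 u).1 hu).2⟩)
  obtain ⟨π, hπ, h1, h2⟩ := exists_swap hCU (fun u hu => ⟨(hf1 u hu).1, (hf1 u hu).2.2⟩) hf2
  refine ⟨π, hπ, ?_, ?_⟩
  · intro u hu
    apply h2 u (hg.1 u hu)
    · intro h3
      exact ((hC1 u).1 h3).2 hu
    · rintro ⟨w, hw, rfl⟩
      exact (hf1 w hw).2.1 hu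
  · intro u hu hπu
    by_contra hue
    have huC : M.E u C := (hC1 u).2 ⟨hu, hue⟩
    rw [h1 u huC] at hπu
    exact (hf1 u huC).2.2 ((hC1 _).2 ⟨hπu, (hf1 u huC).2.1⟩)

/-- the part of `r` over `e` -/
noncomputable def rst (M : Mod K) (e r : K) : K := sOf M (fun p => M.E p r ∧ InV M e p)

theorem rst_spec (e r : K) : ¬ M.U (rst M e r) ∧
    ∀ p, M.E p (rst M e r) ↔ (M.E p r ∧ InV M e p) :=
  sOf_spec (M.sep (fun p => InV M e p) (by (try beta_reduce); repeat' (first
    | with_reducible apply Dfn.cond
    | with_reducible apply Dfn.subset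
    | with_reducible apply Dfn.inV
    | with_reducible apply Dfn.inK
    | with_reducible apply Dfn.bad
    | with_reducible apply Dfn.bij
    | with_reducible apply Dfn.od
    | with_reducible apply Dfn.ind
    | with_reducible apply Dfn.tr
    | with_reducible apply DT.ap
    | with_reducible apply DT.bu
    | with_reducible apply DT.pw
    | with_reducible apply DT.un
    | with_reducible apply DT.op
    | with_reducible apply DT.pr
    | with_reducible apply DT.sOf
    | with_reducible apply DT.the
    | with_reducible exact DT.var _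
    | with_reducible exact DT.const _
    | with_reducible apply Dfn.all
    | with_reducible apply Dfn.ex
    | with_reducible apply Dfn.exu
    | with_reducible apply Dfn.and
    | with_reducible apply Dfn.or
    | with_reducible apply Dfn.iff
    | with_reducible apply Dfn.not
    | with_reducible apply Dfn.imp
    | with_reducible apply Dfn.mem
    | with_reducible apply Dfn.eq
    | with_reducible apply Dfn.ur
    | apply_assumption
    | with_reducible exact Dfn.prop _)) r)

theorem Cond.rst {e r : K} (hr : Cond M r) : Cond M (rst M e r) := by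
  obtain ⟨h1, h2⟩ := rst_spec (M := M) e r
  exact ⟨h1, fun p hp => hr.2.1 p ((h2 p).1 hp).1,
    fun z y y' hy hy' => hr.2.2 z y y' ((h2 _).1 hy).1 ((h2 _).1 hy').1⟩

theorem rst_inV (e r : K) : InV M e (rst M e r) :=
  InV.set (rst_spec e r).1 fun p hp => (((rst_spec e r).2 p).1 hp).2

theorem rst_cv {e r : K} (hr : Cond M r) : CV M e (rst M e r) := ⟨hr.rst, rst_inV e r⟩

theorem sub_rst {e r p : K} (hp : InV M e p) (h : Sub M p r) : Sub M p (rst M e r) :=
  fun w hw => ((rst_spec e r).2 w).2 ⟨h w hw, hp.mem hw⟩

theorem Move.compat {e x r s : K} {π : K → K} (h : Move M e x π) (hr : Cond M r)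
    (hs : Cond M s) (hrx : ∀ u, InK M u r → InK M u x) (hsx : ∀ u, InK M u s → InK M u x)
    (hsub : Sub M (rst M e r) s) : Cond M (bu M (π s) r) := by
  have hπs := h.auto.cond hs
  have cross : ∀ z y y', M.E (op M z y) (π s) → M.E (op M z y') r → y = y' := by
    intro z y y' hy hy'
    have hy2 : M.E (op M (π z) (π y)) s := by
      rw [← h.auto.op, ← h.auto.mem']; exact hy
    have hz : InV M e z := by
      intro u hu
      apply h.move u
      · apply hrx
        exact ((hu.mono (mem_pr.2 (Or.inl rfl))).mono (mem_pr.2 (Or.inl rfl))).mono hy'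
      · apply hsx
        exact (((h.auto.inK hu).mono (mem_pr.2 (Or.inl rfl))).mono
          (mem_pr.2 (Or.inl rfl))).mono hy2
    obtain ⟨z1, y1, h1, h2⟩ := hπs.2.1 _ hy
    obtain ⟨rfl, rfl⟩ := op_inj h1
    obtain ⟨z2, y2, h3, h4⟩ := hr.2.1 _ hy'
    obtain ⟨rfl, rfl⟩ := op_inj h3
    have h5 : M.E (op M z y') s :=
      hsub _ (((rst_spec e r).2 _).2 ⟨hy', inV_op.2 ⟨hz, hz.mem h4⟩⟩)
    rw [h.auto.fix h.fix hz, h.auto.fix h.fix (hz.mem h2)] at hy2
    exact hs.2.2 z y y' hy2 h5
  refine ⟨bu_ur _ _, ?_, ?_⟩
  · intro p hp
    rcases mem_bu.1 hp with h1 | h1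
    · exact hπs.2.1 p h1
    · exact hr.2.1 p h1
  · intro z y y' hy hy'
    rcases mem_bu.1 hy with h1 | h1
    · rcases mem_bu.1 hy' with h2 | h2
      · exact hπs.2.2 z y y' h1 h2
      · exact cross z y y' h1 h2
    · rcases mem_bu.1 hy' with h2 | h2
      · exact (cross z y' y h2 h1).symm
      · exact hr.2.2 z y y' h1 h2

theorem Move.fix_val {e x : K} {π : K → K} (h : Move M e x π) {v : ℕ → K}
    (hv : ∀ n, InV M e (v n)) : (fun n => π (v n)) = v := by
  funext n
  exact h.auto.fix h.fix (hv n)

/-- restriction lemma -/
theorem Fo.restrict {e : K} (hg : Gd M e) {φ : CFml} {v : ℕ → K} (hv : ∀ n, InV M e (v n)) {r : K}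
    (hr : Cond M r) (h : Fo M φ v r) : Fo M φ v (rst M e r) := by
  apply Fo.reg φ v _ hr.rst
  intro s hs hsub
  obtain ⟨π, hπ⟩ := exists_move hg (op M r s)
  have hc : Cond M (bu M (π s) r) := by
    refine hπ.compat hr hs ?_ ?_ hsub
    · intro u hu
      exact (hu.mono (mem_pr.2 (Or.inl rfl))).mono (mem_pr.2 (Or.inl rfl))
    · intro u hu
      exact (hu.mono (mem_pr.2 (Or.inr rfl))).mono (mem_pr.2 (Or.inr rfl))
  have h1 : Fo M φ v (bu M (π s) r) := Fo.mono φ v r _ (fun w hw => mem_bu.2 (Or.inr hw)) h
  refine ⟨π (bu M (π s) r), hπ.auto.cond hc, ?_, ?_⟩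
  · rw [hπ.auto.bu, hπ.auto.inv]
    exact fun w hw => mem_bu.2 (Or.inl hw)
  · have := (hπ.auto.fo φ v (bu M (π s) r)).2 h1
    rw [hπ.fix_val hv] at this
    exact this

/-- values of functions have kernels in `e` -/
theorem Fo.val {e : K} (hg : Gd M e) {φ : CFml} {v : ℕ → K} (hv : ∀ n, InV M e (v n))
    {x y r : K} (hx : InV M e x) (hr : Cond M r) (h : Fo M φ (cons x (cons y v)) r)
    (huni : ∀ y' s, Cond M s → Sub M (rst M e r) s → Fo M φ (cons x (cons y v)) s →
      Fo M φ (cons x (cons y' v)) s → y = y') : InV M e y := by
  obtain ⟨π, hπ⟩ := exists_move hg (op M r y)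
  have hrx : ∀ u, InK M u r → InK M u (op M r y) := fun u hu =>
    (hu.mono (mem_pr.2 (Or.inl rfl))).mono (mem_pr.2 (Or.inl rfl))
  have hyx : ∀ u, InK M u y → InK M u (op M r y) := fun u hu =>
    (hu.mono (mem_pr.2 (Or.inr rfl))).mono (mem_pr.2 (Or.inr rfl))
  have hc : Cond M (bu M (π r) r) := hπ.compat hr hr hrx hrx
    (fun w hw => (((rst_spec e r).2 w).1 hw).1)
  have h1 : Fo M φ (cons x (cons y v)) (bu M (π r) r) :=
    Fo.mono φ _ r _ (fun w hw => mem_bu.2 (Or.inr hw)) h
  have h2 : Fo M φ (cons x (cons (π y) v)) (bu M (π r) r) := by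
    apply Fo.mono φ _ (π r) _ (fun w hw => mem_bu.2 (Or.inl hw))
    have := (hπ.auto.fo φ (cons x (cons y v)) r).2 h
    have heq : (fun n => π (cons x (cons y v) n)) = cons x (cons (π y) v) := by
      funext n
      match n with
      | 0 => exact hπ.auto.fix hπ.fix hx
      | 1 => rfl
      | n + 2 => exact hπ.auto.fix hπ.fix (hv n)
    rw [heq] at this
    exact this
  have h3 : y = π y := by
    refine huni (π y) _ hc ?_ h1 h2
    intro w hw
    exact mem_bu.2 (Or.inr (((rst_spec e r).2 w).1 hw).1)
  intro u hu
  apply hπ.move u (hyx u hu)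
  apply hyx
  have := hπ.auto.inK hu
  rw [← h3] at this
  exact this

end Pool.Agent.H83R3.GBU
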