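import Pool.Agent.H83R3.GBU.Force

set_option autoImplicit false
set_option linter.unusedSectionVars false

namespace Pool.Agent.H83R3.GBU

variable {K : Type} [Nonempty K] {M : Mod K}

/-- the assignment given by a list of parameters -/
noncomputable def lv (l : List K) : ℕ → K := fun n => l.getD n (Classical.arbitrary K)

theorem exists_lv (v : ℕ → K) (N : ℕ) : ∃ l : List K, ∀ n, n < N → v n = lv l n := by
  refine ⟨(List.range N).map v, fun n hn => ?_⟩
  unfold lv
  rw [List.getD_eq_getElem?_getD, List.getElem?_map, List.getElem?_range hn]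
  rfl

/-- a set of urelements containing the kernels of finitely many objects -/
theorem exists_kers (M : Mod K) (l : List K) : ∃ k, (∀ u, M.E u k → M.U u) ∧ ∀ x ∈ l, InV M k x := by
  induction l with
  | nil => exact ⟨emp M, fun u hu => absurd hu (emp_spec.2 u), fun x hx => by simp at hx⟩
  | cons a l ih =>
    obtain ⟨k, hk, h⟩ := ih
    obtain ⟨k', _, hk'⟩ := exists_ker (M := M) a
    refine ⟨bu M k k', ?_, ?_⟩
    · intro u hu
      rcases mem_bu.1 hu with h1 | h1
      · exact hk u h1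
      · exact ((hk' u).1 h1).1
    · intro x hx
      rcases List.mem_cons.1 hx with rfl | hx
      · exact fun u hu => mem_bu.2 (Or.inr ((hk' u).2 hu))
      · exact (h x hx).mono fun u hu => mem_bu.2 (Or.inl hu)

theorem exists_good_for (l l' : List K) : ∃ e, Gd M e ∧ (∀ n, InV M e (lv l n)) ∧
    ∀ x ∈ l', InV M e x := by
  obtain ⟨k, hk, h⟩ := exists_kers M (Classical.arbitrary K :: (l ++ l'))
  obtain ⟨e, he, hke⟩ := exists_good (M := M) k hk
  refine ⟨e, he, ?_, ?_⟩
  · intro n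
    refine (h _ ?_).mono hke
    unfold lv
    rw [List.getD_eq_getElem?_getD]
    by_cases hn : n < l.length
    · rw [List.getElem?_eq_getElem hn]
      simp only [Option.getD_some, List.mem_cons, List.mem_append]
      exact Or.inr (Or.inl (List.getElem_mem hn))
    · rw [List.getElem?_eq_none (by omega)]
      simp
  · intro x hx
    exact (h x (by simp [hx])).mono hke

theorem dense_dec (φ : CFml) (l : List K) (a p : K) (hp : Cond M p) :
    ∃ r, Cond M r ∧ Sub M p r ∧
      ∀ x, M.E x a → Fo M φ (cons x (lv l)) r ∨ Fo M (neg φ) (cons x (lv l)) r := by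
  obtain ⟨e, hg, hv, hl'⟩ := exists_good_for (M := M) l [a, p]
  have ha : InV M e a := hl' a (by simp)
  have hpV : InV M e p := hl' p (by simp)
  have hcons : ∀ x, M.E x a → ∀ n, InV M e (cons x (lv l) n) := by
    intro x hx n
    cases n with
    | zero => exact ha.mem hx
    | succ n => exact hv n
  obtain ⟨r, hr, hpr, h⟩ := distrib (M := M) (e := e) (a := a) (q0 := p)
    (R := fun x r => Fo M φ (cons x (lv l)) r ∨ Fo M (neg φ) (cons x (lv l)) r) hg.1
    (.or (Fo.dfn1 φ (lv l)) (Fo.dfn1 (neg φ) (lv l))) ⟨hp, hpV⟩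
    (fun x _ r r' _ _ hrr' h => h.imp (Fo.mono _ _ _ _ hrr') (Fo.mono _ _ _ _ hrr'))
    (by
      intro x hx r hr hpr
      obtain ⟨q, hq, hrq, h⟩ := Fo.decide φ (cons x (lv l)) r hr.1
      refine ⟨rst M e q, rst_cv hq, sub_rst hr.2 hrq, ?_⟩
      exact h.imp (Fo.restrict hg (hcons x hx) hq) (Fo.restrict hg (hcons x hx) hq))
  exact ⟨r, hr.1, hpr, h⟩

theorem dense_rep (φ : CFml) (l : List K) (a p : K) (hp : Cond M p) :
    ∃ r, Cond M r ∧ Sub M p r ∧
      ((∀ x, M.E x a → ∃ y, Fo M φ (cons x (cons y (lv l))) r) ∨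
      (∃ x, M.E x a ∧ ∀ y, Fo M (neg φ) (cons x (cons y (lv l))) r) ∨
      ∃ x, M.E x a ∧ ∃ y y', y ≠ y' ∧ Fo M φ (cons x (cons y (lv l))) r ∧
        Fo M φ (cons x (cons y' (lv l))) r) := by
  by_cases h2 : ∃ r, Cond M r ∧ Sub M p r ∧
      ∃ x, M.E x a ∧ ∀ y, Fo M (neg φ) (cons x (cons y (lv l))) r
  · obtain ⟨r, hr, hpr, h⟩ := h2
    exact ⟨r, hr, hpr, Or.inr (Or.inl h)⟩
  by_cases h3 : ∃ r, Cond M r ∧ Sub M p r ∧
      ∃ x, M.E x a ∧ ∃ y y', y ≠ y' ∧ Fo M φ (cons x (cons y (lv l))) r ∧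
        Fo M φ (cons x (cons y' (lv l))) r
  · obtain ⟨r, hr, hpr, h⟩ := h3
    exact ⟨r, hr, hpr, Or.inr (Or.inr h)⟩
  push Not at h2 h3
  obtain ⟨e, hg, hv, hl'⟩ := exists_good_for (M := M) l [a, p]
  have ha : InV M e a := hl' a (by simp)
  have hpV : InV M e p := hl' p (by simp)
  obtain ⟨r, hr, hpr, h⟩ := distrib (M := M) (e := e) (a := a) (q0 := p)
    (R := fun x r => ∃ y, Fo M φ (cons x (cons y (lv l))) r) hg.1
    (.ex ((Fo.dfn2 φ (lv l)).ren (fun n => if n = 0 then 1 else if n = 1 then 0 else n)))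
    ⟨hp, hpV⟩
    (fun x _ r r' _ _ hrr' h => h.imp fun y hy => Fo.mono _ _ _ _ hrr' hy)
    (by
      intro x hx r hr hpr
      obtain ⟨y, hy⟩ := h2 r hr.1 hpr x hx
      have : ∃ q, Cond M q ∧ Sub M r q ∧ Fo M φ (cons x (cons y (lv l))) q := by
        by_contra hcon
        exact hy fun q hq hrq h => hcon ⟨q, hq, hrq, h⟩
      obtain ⟨q, hq, hrq, h⟩ := this
      have hpq : Sub M p (rst M e q) := sub_rst hpV (hpr.trans hrq)
      have hyV : InV M e y := by
        refine Fo.val hg hv (ha.mem hx) hq h ?_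
        intro y' s hs hsub h4 h5
        by_contra hne
        exact h3 s hs (hpq.trans hsub) x hx y y' hne h4 h5
      refine ⟨rst M e q, rst_cv hq, sub_rst hr.2 hrq, y, ?_⟩
      refine Fo.restrict hg ?_ hq h
      intro n
      match n with
      | 0 => exact ha.mem hx
      | 1 => exact hyV
      | n + 2 => exact hv n)
  exact ⟨r, hr.1, hpr, Or.inl h⟩

/-- adding one value to a condition -/
theorem dense_dom (z p : K) (hp : Cond M p) :
    ∃ q, Cond M q ∧ Sub M p q ∧ ((∃ y, M.E y z) → ∃ y, M.E (op M z y) q) := by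
  by_cases hz : ∃ y, M.E y z
  swap
  · exact ⟨p, hp, Sub.rfl, fun h => absurd h hz⟩
  by_cases hd : ∃ y, M.E (op M z y) p
  · exact ⟨p, hp, Sub.rfl, fun _ => hd⟩
  obtain ⟨y, hy⟩ := hz
  have hmem : ∀ w, M.E w (bu M p (pr M (op M z y) (op M z y))) ↔ (M.E w p ∨ w = op M z y) := by
    intro w
    rw [mem_bu, mem_pr]
    tauto
  refine ⟨bu M p (pr M (op M z y) (op M z y)), ⟨bu_ur _ _, ?_, ?_⟩,
    fun w hw => mem_bu.2 (Or.inl hw), fun _ => ⟨y, (hmem _).2 (Or.inr rfl)⟩⟩
  · intro w hw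
    rcases (hmem w).1 hw with h1 | rfl
    · exact hp.2.1 w h1
    · exact ⟨z, y, rfl, hy⟩
  · intro t s s' hs hs'
    rcases (hmem _).1 hs with h1 | h1
    · rcases (hmem _).1 hs' with h2 | h2
      · exact hp.2.2 t s s' h1 h2
      · obtain ⟨rfl, _⟩ := op_inj h2
        exact absurd ⟨s, h1⟩ hd
    · rcases (hmem _).1 hs' with h2 | h2
      · obtain ⟨rfl, _⟩ := op_inj h1
        exact absurd ⟨s', h2⟩ hd
      · rw [(op_inj h1).2, (op_inj h2).2]

/-- requirements -/
abbrev Req (K : Type) : Type :=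
  (CFml × List K) ⊕ (CFml × List K) ⊕ (CFml × List K × K) ⊕ (CFml × List K × K) ⊕ K ⊕ K

/-- meeting a requirement -/
def Meets (M : Mod K) (q : K) : Req K → Prop
  | .inl (φ, l) => Fo M φ (lv l) q ∨ Fo M (neg φ) (lv l) q
  | .inr (.inl (φ, l)) => Fo M (.all φ) (lv l) q ∨ ∃ a, Fo M (neg φ) (cons a (lv l)) q
  | .inr (.inr (.inl (φ, l, a))) =>
      ∀ x, M.E x a → Fo M φ (cons x (lv l)) q ∨ Fo M (neg φ) (cons x (lv l)) q
  | .inr (.inr (.inr (.inl (φ, l, a)))) =>
      (∀ x, M.E x a → ∃ y, Fo M φ (cons x (cons y (lv l))) q) ∨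
      (∃ x, M.E x a ∧ ∀ y, Fo M (neg φ) (cons x (cons y (lv l))) q) ∨
      ∃ x, M.E x a ∧ ∃ y y', y ≠ y' ∧ Fo M φ (cons x (cons y (lv l))) q ∧
        Fo M φ (cons x (cons y' (lv l))) q
  | .inr (.inr (.inr (.inr (.inl z)))) => (∃ y, M.E y z) → ∃ y, M.E (op M z y) q
  | .inr (.inr (.inr (.inr (.inr x)))) => M.E x q ∨ ∀ r, Cond M r → Sub M q r → ¬ M.E x r

theorem dense_all (p : K) (hp : Cond M p) (r : Req K) :
    ∃ q, Cond M q ∧ Sub M p q ∧ Meets M q r := by
  match r with
  | .inl (φ, l) => exact Fo.decide φ (lv l) p hp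
  | .inr (.inl (φ, l)) =>
    by_cases h : Fo M (.all φ) (lv l) p
    · exact ⟨p, hp, Sub.rfl, Or.inl h⟩
    · have : ∃ a, ¬ Fo M φ (cons a (lv l)) p := by
        by_contra hcon
        push Not at hcon
        exact h hcon
      obtain ⟨a, ha⟩ := this
      obtain ⟨q, hq, hpq, h⟩ := Fo.of_not hp ha
      exact ⟨q, hq, hpq, Or.inr ⟨a, h⟩⟩
  | .inr (.inr (.inl (φ, l, a))) => exact dense_dec φ l a p hp
  | .inr (.inr (.inr (.inl (φ, l, a)))) => exact dense_rep φ l a p hp
  | .inr (.inr (.inr (.inr (.inl z)))) => exact dense_dom z p hp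
  | .inr (.inr (.inr (.inr (.inr x)))) =>
    by_cases h : ∃ r, Cond M r ∧ Sub M p r ∧ M.E x r
    · obtain ⟨r, hr, hpr, h⟩ := h
      exact ⟨r, hr, hpr, Or.inl h⟩
    · exact ⟨p, hp, Sub.rfl, Or.inr fun r hr hpr h' => h ⟨r, hr, hpr, h'⟩⟩

/-- a generic chain of conditions -/
structure Chain (M : Mod K) where
  p : ℕ → K
  cond : ∀ n, Cond M (p n)
  sub : ∀ n, Sub M (p n) (p (n + 1))
  meets : ∀ r : Req K, ∃ n, Meets M (p n) r

theorem exists_chain [Countable K] (M : Mod K) : Nonempty (Chain M) := by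
  have : Nonempty (Req K) := ⟨.inl (.bot, [])⟩
  obtain ⟨f, hf⟩ := exists_surjective_nat (Req K)
  choose g hg1 hg2 hg3 using fun (p : {q : K // Cond M q}) (r : Req K) => dense_all p.1 p.2 r
  let s : ℕ → {q : K // Cond M q} :=
    fun n => Nat.rec ⟨emp M, Cond.emp⟩ (fun n p => ⟨g p (f n), hg1 p (f n)⟩) n
  refine ⟨⟨fun n => (s n).1, fun n => (s n).2, fun n => hg2 (s n) (f n), fun r => ?_⟩⟩
  obtain ⟨n, rfl⟩ := hf r
  exact ⟨n + 1, hg3 (s n) (f n)⟩

namespace Chain

variable (S : Chain M)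

theorem sub_le {n m : ℕ} (h : n ≤ m) : Sub M (S.p n) (S.p m) := by
  induction m, h using Nat.le_induction with
  | base => exact Sub.rfl
  | succ m _ ih => exact ih.trans (S.sub m)

/-- the generic class -/
def G (x : K) : Prop := ∃ n, M.E x (S.p n)

/-- forced by the chain -/
def F (φ : CFml) (v : ℕ → K) : Prop := ∃ n, Fo M φ v (S.p n)

variable {S}

theorem F.incons {φ : CFml} {v : ℕ → K} (h1 : S.F φ v) (h2 : S.F (neg φ) v) : False := by
  obtain ⟨n, hn⟩ := h1
  obtain ⟨m, hm⟩ := h2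
  exact Fo.not_both (S.cond (max n m)) (Fo.mono _ _ _ _ (S.sub_le (le_max_left _ _)) hn)
    (Fo.mono _ _ _ _ (S.sub_le (le_max_right _ _)) hm)

theorem F.dec (φ : CFml) (v : ℕ → K) : S.F φ v ∨ S.F (neg φ) v := by
  obtain ⟨l, hl⟩ := exists_lv v (bd φ)
  obtain ⟨n, hn⟩ := S.meets (.inl (φ, l))
  rcases hn with h | h
  · exact Or.inl ⟨n, (Fo.congr φ v (lv l) _ hl).2 h⟩
  · refine Or.inr ⟨n, (Fo.congr (neg φ) v (lv l) _ fun n hn => hl n ?_).2 h⟩
    simpa [neg, bd] using hn

theorem F.all_or (φ : CFml) (v : ℕ → K) : S.F (.all φ) v ∨ ∃ a, S.F (neg φ) (cons a v) := by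
  obtain ⟨l, hl⟩ := exists_lv v (bd φ)
  obtain ⟨n, hn⟩ := S.meets (.inr (.inl (φ, l)))
  rcases hn with h | ⟨a, h⟩
  · refine Or.inl ⟨n, (Fo.congr (.all φ) v (lv l) _ fun n hn => hl n ?_).2 h⟩
    simp only [bd] at hn
    omega
  · refine Or.inr ⟨a, n, (Fo.congr (neg φ) (cons a v) (cons a (lv l)) _ fun n hn => ?_).2 h⟩
    cases n with
    | zero => rfl
    | succ n =>
      apply hl
      simp only [neg, bd] at hn
      omega

variable (S)

theorem truth (φ : CFml) : ∀ v : ℕ → K, CSat M.E M.U (fun _ => S.G) φ v ↔ S.F φ v := by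
  induction φ with
  | mem i j => intro v; exact ⟨fun h => ⟨0, h⟩, fun ⟨_, h⟩ => h⟩
  | eq i j => intro v; exact ⟨fun h => ⟨0, h⟩, fun ⟨_, h⟩ => h⟩
  | ur i => intro v; exact ⟨fun h => ⟨0, h⟩, fun ⟨_, h⟩ => h⟩
  | cls i k =>
    intro v
    constructor
    · rintro ⟨n, hn⟩
      exact ⟨n, fun q hq hnq => ⟨q, hq, Sub.rfl, hnq _ hn⟩⟩
    · rintro ⟨n, hn⟩
      obtain ⟨m, hm⟩ := S.meets (.inr (.inr (.inr (.inr (.inr (v i))))))
      rcases hm with h | h
      · exact ⟨m, h⟩
      · exfalso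
        obtain ⟨r, hr, hsub, hmem⟩ := hn (S.p (max n m)) (S.cond _)
          (S.sub_le (le_max_left _ _))
        exact h r hr ((S.sub_le (le_max_right _ _)).trans hsub) hmem
  | bot => intro v; exact ⟨fun h => h.elim, fun ⟨_, h⟩ => h⟩
  | imp φ ψ h1 h2 =>
    intro v
    constructor
    · intro h
      rcases F.dec (S := S) φ v with h3 | ⟨n, h3⟩
      · obtain ⟨n, hn⟩ := (h2 v).1 (h ((h1 v).2 h3))
        exact ⟨n, fun q hq hnq _ => Fo.mono _ _ _ _ hnq hn⟩
      · exact ⟨n, fun q hq hnq h4 => (h3 q hq hnq h4).elim⟩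
    · rintro ⟨n, hn⟩ h3
      obtain ⟨m, hm⟩ := (h1 v).1 h3
      exact (h2 v).2 ⟨max n m, hn _ (S.cond _) (S.sub_le (le_max_left _ _))
        (Fo.mono _ _ _ _ (S.sub_le (le_max_right _ _)) hm)⟩
  | all φ ih =>
    intro v
    constructor
    · intro h
      rcases F.all_or (S := S) φ v with h3 | ⟨a, h3⟩
      · exact h3
      · exact (F.incons ((ih _).1 (h a)) h3).elim
    · rintro ⟨n, hn⟩ a
      exact (ih _).2 ⟨n, hn a⟩

/-- representation of definable binary relations -/
theorem rep2 {R : K → K → Prop} (hR : Dfn M.E M.U S.G (fun v => R (v 0) (v 1))) :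
    ∃ (ψ : CFml) (l : List K), ∀ x y, R x y ↔ S.F ψ (cons x (cons y (lv l))) := by
  obtain ⟨φ, p, hφ⟩ := hR
  let ψ := rename (fun n => if n % 2 = 0 then (if n = 0 then 0 else 1) else n / 2 + 2) φ
  obtain ⟨l, hl⟩ := exists_lv p (bd ψ)
  refine ⟨ψ, l, fun x y => ?_⟩
  rw [← S.truth]
  have h1 := hφ (fun n => if n = 0 then x else y)
  rw [mix_two] at h1
  have h2 : R x y ↔ CSat M.E M.U (fun _ => S.G) ψ (cons x (cons y p)) := by
    rw [sat_rename]
    exact h1
  rw [h2]
  refine sat_congr ψ _ _ fun n hn => ?_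
  match n with
  | 0 => rfl
  | 1 => rfl
  | n + 2 => exact hl n (by omega)

theorem rep1 {R : K → Prop} (hR : Dfn M.E M.U S.G (fun v => R (v 0))) :
    ∃ (ψ : CFml) (l : List K), ∀ x, R x ↔ S.F ψ (cons x (lv l)) := by
  obtain ⟨φ, p, hφ⟩ := hR
  let ψ := rename (fun n => if n % 2 = 0 then 0 else n / 2 + 1) φ
  obtain ⟨l, hl⟩ := exists_lv p (bd ψ)
  refine ⟨ψ, l, fun x => ?_⟩
  rw [← S.truth]
  have h1 := hφ (fun _ => x)
  have h0 : mix (fun _ => x) p = fun n => cons x p (if n % 2 = 0 then 0 else n / 2 + 1) := by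
    funext n
    rcases Nat.even_or_odd' n with ⟨m, rfl | rfl⟩
    · rw [if_pos (by omega), mix_even]; rfl
    · rw [if_neg (by omega), mix_odd, cons_succ]
      congr 1
      omega
  have h2 : R x ↔ CSat M.E M.U (fun _ => S.G) ψ (cons x p) := by
    rw [sat_rename, ← h0]
    exact h1
  rw [h2]
  refine sat_congr ψ _ _ fun n hn => ?_
  cases n with
  | zero => rfl
  | succ n => exact hl n (by omega)

theorem sepG {X : K → Prop} (hX : Dfn M.E M.U S.G (fun v => X (v 0))) (a : K) :
    ∃ b, ¬ M.U b ∧ ∀ x, M.E x b ↔ (M.E x a ∧ X x) := by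
  obtain ⟨ψ, l, h⟩ := S.rep1 hX
  obtain ⟨n, hn⟩ := S.meets (.inr (.inr (.inl (ψ, l, a))))
  obtain ⟨b, hb0, hb⟩ := M.sep (fun x => Fo M ψ (cons x (lv l)) (S.p n))
    (Dfn.sub2 (R := fun x r => Fo M ψ (cons x (lv l)) r) (Fo.dfn1 ψ (lv l)) (DT.var 0)
      (DT.const _)) a
  refine ⟨b, hb0, fun x => ?_⟩
  rw [hb x]
  refine and_congr_right fun hx => ?_
  rw [h x]
  constructor
  · exact fun h1 => ⟨n, h1⟩
  · intro h1
    rcases hn x hx with h2 | h2
    · exact h2
    · exact (F.incons h1 ⟨n, h2⟩).elim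

theorem replG {R : K → K → Prop} (hR : Dfn M.E M.U S.G (fun v => R (v 0) (v 1))) (a : K)
    (hu : ∀ x, M.E x a → ∃! y, R x y) :
    ∃ b, ¬ M.U b ∧ ∀ y, M.E y b ↔ ∃ x, M.E x a ∧ R x y := by
  obtain ⟨ψ, l, h⟩ := S.rep2 hR
  obtain ⟨n, hn⟩ := S.meets (.inr (.inr (.inr (.inl (ψ, l, a)))))
  have h1 : ∀ x, M.E x a → ∃ y, Fo M ψ (cons x (cons y (lv l))) (S.p n) := by
    rcases hn with hn | ⟨x, hx, hn⟩ | ⟨x, hx, y, y', hne, hy, hy'⟩
    · exact hn
    · exfalso
      obtain ⟨y, hy, _⟩ := hu x hx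
      exact F.incons ((h x y).1 hy) ⟨n, hn y⟩
    · exfalso
      obtain ⟨z, _, hz⟩ := hu x hx
      exact hne ((hz y ((h x y).2 ⟨n, hy⟩)).trans (hz y' ((h x y').2 ⟨n, hy'⟩)).symm)
  have h2 : ∀ x, M.E x a → ∀ y, R x y ↔ Fo M ψ (cons x (cons y (lv l))) (S.p n) := by
    intro x hx y
    constructor
    · intro hy
      obtain ⟨y', hy'⟩ := h1 x hx
      obtain ⟨z, _, hz⟩ := hu x hx
      rw [(hz y hy).trans (hz y' ((h x y').2 ⟨n, hy'⟩)).symm]
      exact hy'
    · exact fun hy => (h x y).2 ⟨n, hy⟩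
  obtain ⟨b, hb0, hb⟩ := M.repl (fun x y => Fo M ψ (cons x (cons y (lv l))) (S.p n))
    (Dfn.sub3 (R := fun x y r => Fo M ψ (cons x (cons y (lv l))) r) (Fo.dfn2 ψ (lv l))
      (DT.var 0) (DT.var 1) (DT.const _)) a (by
      intro x hx
      obtain ⟨y, hy, huy⟩ := hu x hx
      exact ⟨y, (h2 x hx y).1 hy, fun y' hy' => huy y' ((h2 x hx y').2 hy')⟩)
  refine ⟨b, hb0, fun y => ?_⟩
  rw [hb y]
  exact exists_congr fun x => and_congr_right fun hx => (h2 x hx y).symm

/-- the classes of the generic expansion -/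
abbrev Cls : Type := {X : K → Prop // Dfn M.E M.U S.G (fun v => X (v 0))}

theorem cApp_iff (F : S.Cls) (x y : K) :
    CApp M.E (fun x (X : S.Cls) => X.1 x) F x y ↔ F.1 (op M x y) := by
  constructor
  · rintro ⟨p, hp, hp2⟩
    rw [isPair_iff] at hp2
    rw [← hp2]; exact hp
  · intro h
    exact ⟨_, h, isPair_iff.2 rfl⟩

theorem dfn_csat (φ : CFml) (Z : ℕ → S.Cls) :
    Dfn M.E M.U S.G (fun w => CSat M.E M.U (fun k y => (Z k).1 y) φ w) := by
  induction φ with
  | mem i j => exact .mem (.var _) (.var _)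
  | eq i j => exact .eq (.var _) (.var _)
  | ur i => exact .ur (.var _)
  | cls i k => exact Dfn.sub1 (R := fun y => (Z k).1 y) (Z k).2 (.var i)
  | bot => exact .prop _
  | imp φ ψ h1 h2 => exact .imp h1 h2
  | all φ h =>
    refine Dfn.all (P := fun v a => CSat M.E M.U (fun k y => (Z k).1 y) φ (cons a v)) ?_
    exact h.congr fun w => by rw [cons_head_tail]

theorem isGBU : GBUR M.E M.U (fun x (X : S.Cls) => X.1 x) where
  toBase := M.zf.toBase
  classExt X Y h := Subtype.ext (funext fun x => propext (h x))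
  comprehension φ v Z := by
    refine ⟨⟨fun x => CSat M.E M.U (fun k y => (Z k).1 y) φ (cons x v), ?_⟩, fun x => Iff.rfl⟩
    refine (Dfn.subTm (S.dfn_csat φ Z) (fun n => match n with
      | 0 => fun w => w 0
      | n + 1 => fun _ => v n) ?_).congr fun w => ?_
    · intro n
      match n with
      | 0 => exact .var _
      | n + 1 => exact .const _
    · have : cons (w 0) v = fun n => (match n with
        | 0 => fun w => w 0
        | n + 1 => fun _ => v n : (ℕ → K) → K) w := by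
        funext n
        cases n with
        | zero => rfl
        | succ n => rfl
      change CSat M.E M.U (fun k y => (Z k).1 y) φ (cons (w 0) v) ↔ _
      rw [this]
  classSep X a := S.sepG X.2 a
  classRepl F a hF := by
    have hX := Dfn.cl1 F.2
    obtain ⟨a', _, ha'⟩ := S.sepG (X := fun x => ∃ y, F.1 (op M x y)) (by (try beta_reduce); repeat' (first
      | with_reducible apply Dfn.cond
      | with_reducible apply Dfn.subset
      | with_reducible apply Dfn.inV
      | with_reducible apply Dfn.inK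
      | with_reducible apply Dfn.bad
      | with_reducible apply Dfn.bij
      | with_reducible apply Dfn.od
      | with_reducible apply Dfn.ind
      | with_reducible apply Dfn.tr
      | with_reducible apply DT.ap
      | with_reducible apply DT.bu
      | with_reducible apply DT.pw
      | with_reducible apply DT.un
      | with_reducible apply DT.op
      | with_reducible apply DT.pr
      | with_reducible apply DT.sOf
      | with_reducible apply DT.the
      | with_reducible exact DT.var _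
      | with_reducible exact DT.const _
      | with_reducible apply Dfn.all
      | with_reducible apply Dfn.ex
      | with_reducible apply Dfn.exu
      | with_reducible apply Dfn.and
      | with_reducible apply Dfn.or
      | with_reducible apply Dfn.iff
      | with_reducible apply Dfn.not
      | with_reducible apply Dfn.imp
      | with_reducible apply Dfn.mem
      | with_reducible apply Dfn.eq
      | with_reducible apply Dfn.ur
      | apply_assumption
      | with_reducible exact Dfn.prop _)) a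
    obtain ⟨b, hb0, hb⟩ := S.replG (R := fun x y => F.1 (op M x y)) (by (try beta_reduce); repeat' (first
      | with_reducible apply Dfn.cond
      | with_reducible apply Dfn.subset
      | with_reducible apply Dfn.inV
      | with_reducible apply Dfn.inK
      | with_reducible apply Dfn.bad
      | with_reducible apply Dfn.bij
      | with_reducible apply Dfn.od
      | with_reducible apply Dfn.ind
      | with_reducible apply Dfn.tr
      | with_reducible apply DT.ap
      | with_reducible apply DT.bu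
      | with_reducible apply DT.pw
      | with_reducible apply DT.un
      | with_reducible apply DT.op
      | with_reducible apply DT.pr
      | with_reducible apply DT.sOf
      | with_reducible apply DT.the
      | with_reducible exact DT.var _
      | with_reducible exact DT.const _
      | with_reducible apply Dfn.all
      | with_reducible apply Dfn.ex
      | with_reducible apply Dfn.exu
      | with_reducible apply Dfn.and
      | with_reducible apply Dfn.or
      | with_reducible apply Dfn.iff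
      | with_reducible apply Dfn.not
      | with_reducible apply Dfn.imp
      | with_reducible apply Dfn.mem
      | with_reducible apply Dfn.eq
      | with_reducible apply Dfn.ur
      | apply_assumption
      | with_reducible exact Dfn.prop _)) a' (by
      intro x hx
      obtain ⟨_, y, hy⟩ := (ha' x).1 hx
      exact ⟨y, hy, fun y' hy' => hF x y' y ((S.cApp_iff F x y').2 hy')
        ((S.cApp_iff F x y).2 hy)⟩)
    refine ⟨b, hb0, fun y => ?_⟩
    rw [hb y]
    refine exists_congr fun x => ?_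
    rw [S.cApp_iff F x y]
    constructor
    · rintro ⟨hx, hy⟩
      exact ⟨((ha' x).1 hx).1, hy⟩
    · rintro ⟨hx, hy⟩
      exact ⟨(ha' x).2 ⟨hx, y, hy⟩, hy⟩

theorem globalChoice : GlobalChoice M.E (fun x (X : S.Cls) => X.1 x) := by
  refine ⟨⟨fun x => S.G x, .cls (.var 0)⟩, ?_, ?_⟩
  · intro x y y' hy hy'
    rw [S.cApp_iff] at hy hy'
    obtain ⟨n, hn⟩ := hy
    obtain ⟨m, hm⟩ := hy'
    exact (S.cond (max n m)).2.2 x y y' (S.sub_le (le_max_left _ _) _ hn)
      (S.sub_le (le_max_right _ _) _ hm)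
  · intro x hx
    obtain ⟨n, hn⟩ := S.meets (.inr (.inr (.inr (.inr (.inl x)))))
    obtain ⟨y, hy⟩ := hn hx
    obtain ⟨z, y', h1, h2⟩ := (S.cond n).2.1 _ hy
    obtain ⟨rfl, rfl⟩ := op_inj h1
    exact ⟨y, h2, (S.cApp_iff _ _ _).2 ⟨n, hy⟩⟩

end Chain

/-- every countable model of ZFCU_R is the first-order part of a model of GBU_R with Global
Choice -/
theorem expansion {K : Type} [Countable K] (E : K → K → Prop) (U : K → Prop) (h : ZFCU E U) :
    ∃ (L : Type) (m : K → L → Prop), GBUR E U m ∧ GlobalChoice E m := by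
  have : Nonempty K := ⟨h.infinity.choose⟩
  obtain ⟨S⟩ := exists_chain (⟨E, U, h⟩ : Mod K)
  exact ⟨S.Cls, fun x X => X.1 x, S.isGBU, S.globalChoice⟩

end Pool.Agent.H83R3.GBU
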