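import Pool.Agent.H83R3.GBU.Rec

set_option autoImplicit false
set_option linter.unusedSectionVars false

namespace Pool.Agent.H83R3.GBU

variable {K : Type} [Nonempty K] {M : Mod K} {G : K → Prop}

/-- ordinals -/
def Od (M : Mod K) (x : K) : Prop := ¬ M.U x ∧ Tr M x ∧ ∀ y, M.E y x → ¬ M.U y ∧ Tr M y

theorem Dfn.od {s : (ℕ → K) → K} (hs : DT M.E M.U G s) :
    Dfn M.E M.U G (fun v => Od M (s v)) := by
  unfold Od
  have h1 := hs.shift
  (try beta_reduce); repeat' (first
    | with_reducible apply Dfn.ind
    | with_reducible apply Dfn.tr
    | with_reducible apply DT.ap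
    | with_reducible apply DT.bu
    | with_reducible apply DT.pw
    | with_reducible apply DT.un
    | with_reducible apply DT.op
    | with_reducible apply DT.pr
    | with_reducible apply DT.sOf
    | with_reducible apply DT.the
    | with_reducible exact DT.var _
    | with_reducible exact DT.const _
    | with_reducible apply Dfn.all
    | with_reducible apply Dfn.ex
    | with_reducible apply Dfn.exu
    | with_reducible apply Dfn.and
    | with_reducible apply Dfn.or
    | with_reducible apply Dfn.iff
    | with_reducible apply Dfn.not
    | with_reducible apply Dfn.imp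
    | with_reducible apply Dfn.mem
    | with_reducible apply Dfn.eq
    | with_reducible apply Dfn.ur
    | apply_assumption
    | with_reducible exact Dfn.prop _)


theorem Od.mem {a b : K} (ha : Od M a) (hb : M.E b a) : Od M b :=
  ⟨(ha.2.2 b hb).1, (ha.2.2 b hb).2, fun c hc => ha.2.2 c (ha.2.1 b hb c hc)⟩

theorem od_tri {a b : K} (ha : Od M a) (hb : Od M b) : M.E a b ∨ a = b ∨ M.E b a := by
  by_contra hcon
  obtain ⟨a, ⟨ha, b, hb, hcon⟩, hmin⟩ := M.min
    (P := fun a => Od M a ∧ ∃ b, Od M b ∧ ¬ (M.E a b ∨ a = b ∨ M.E b a)) (by (try beta_reduce); repeat' (first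
      | with_reducible apply Dfn.od
      | with_reducible apply Dfn.ind
      | with_reducible apply Dfn.tr
      | with_reducible apply DT.ap
      | with_reducible apply DT.bu
      | with_reducible apply DT.pw
      | with_reducible apply DT.un
      | with_reducible apply DT.op
      | with_reducible apply DT.pr
      | with_reducible apply DT.sOf
      | with_reducible apply DT.the
      | with_reducible exact DT.var _
      | with_reducible exact DT.const _
      | with_reducible apply Dfn.all
      | with_reducible apply Dfn.ex
      | with_reducible apply Dfn.exu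
      | with_reducible apply Dfn.and
      | with_reducible apply Dfn.or
      | with_reducible apply Dfn.iff
      | with_reducible apply Dfn.not
      | with_reducible apply Dfn.imp
      | with_reducible apply Dfn.mem
      | with_reducible apply Dfn.eq
      | with_reducible apply Dfn.ur
      | apply_assumption
      | with_reducible exact Dfn.prop _))
    ⟨a, ha, b, hb, hcon⟩
  obtain ⟨b, ⟨hb, hcon⟩, hmin2⟩ := M.min
    (P := fun b => Od M b ∧ ¬ (M.E a b ∨ a = b ∨ M.E b a)) (by (try beta_reduce); repeat' (first
      | with_reducible apply Dfn.od
      | with_reducible apply Dfn.ind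
      | with_reducible apply Dfn.tr
      | with_reducible apply DT.ap
      | with_reducible apply DT.bu
      | with_reducible apply DT.pw
      | with_reducible apply DT.un
      | with_reducible apply DT.op
      | with_reducible apply DT.pr
      | with_reducible apply DT.sOf
      | with_reducible apply DT.the
      | with_reducible exact DT.var _
      | with_reducible exact DT.const _
      | with_reducible apply Dfn.all
      | with_reducible apply Dfn.ex
      | with_reducible apply Dfn.exu
      | with_reducible apply Dfn.and
      | with_reducible apply Dfn.or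
      | with_reducible apply Dfn.iff
      | with_reducible apply Dfn.not
      | with_reducible apply Dfn.imp
      | with_reducible apply Dfn.mem
      | with_reducible apply Dfn.eq
      | with_reducible apply Dfn.ur
      | apply_assumption
      | with_reducible exact Dfn.prop _))
    ⟨b, hb, hcon⟩
  apply hcon
  right; left
  apply M.ext ha.1 hb.1
  intro z
  constructor
  · intro hz
    have : M.E z b ∨ z = b ∨ M.E b z := by
      by_contra hc
      exact hmin z hz ⟨ha.mem hz, b, hb, hc⟩
    rcases this with h | h | h
    · exact h
    · exact absurd (Or.inr (Or.inr (h ▸ hz))) hcon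
    · exact absurd (Or.inr (Or.inr (ha.2.1 z hz b h))) hcon
  · intro hz
    have : M.E a z ∨ a = z ∨ M.E z a := by
      by_contra hc
      exact hmin2 z hz ⟨hb.mem hz, hc⟩
    rcases this with h | h | h
    · exact absurd (Or.inl (hb.2.1 z hz a h)) hcon
    · exact absurd (Or.inl (h ▸ hz)) hcon
    · exact h

theorem not_all_od (s : K) : ∃ a, Od M a ∧ ¬ M.E a s := by
  by_contra hcon
  push Not at hcon
  obtain ⟨b, hb0, hb⟩ := M.sep (fun z => Od M z) (by (try beta_reduce); repeat' (first
    | with_reducible apply Dfn.od
    | with_reducible apply Dfn.ind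
    | with_reducible apply Dfn.tr
    | with_reducible apply DT.ap
    | with_reducible apply DT.bu
    | with_reducible apply DT.pw
    | with_reducible apply DT.un
    | with_reducible apply DT.op
    | with_reducible apply DT.pr
    | with_reducible apply DT.sOf
    | with_reducible apply DT.the
    | with_reducible exact DT.var _
    | with_reducible exact DT.const _
    | with_reducible apply Dfn.all
    | with_reducible apply Dfn.ex
    | with_reducible apply Dfn.exu
    | with_reducible apply Dfn.and
    | with_reducible apply Dfn.or
    | with_reducible apply Dfn.iff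
    | with_reducible apply Dfn.not
    | with_reducible apply Dfn.imp
    | with_reducible apply Dfn.mem
    | with_reducible apply Dfn.eq
    | with_reducible apply Dfn.ur
    | apply_assumption
    | with_reducible exact Dfn.prop _)) s
  have hOd : Od M b := by
    refine ⟨hb0, ?_, ?_⟩
    · intro x hx y hy
      have h1 := ((hb x).1 hx).2.mem hy
      exact (hb y).2 ⟨hcon y h1, h1⟩
    · intro y hy
      exact ⟨((hb y).1 hy).2.1, ((hb y).1 hy).2.2.1⟩
  exact M.irrefl b ((hb b).2 ⟨hcon b hOd, hOd⟩)

/-- `f` restricted to `a` is a bijection onto `b` -/
def Bij (M : Mod K) (f a b : K) : Prop :=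
  (∀ x, M.E x a → M.E (ap M f x) b) ∧
  (∀ x x', M.E x a → M.E x' a → ap M f x = ap M f x' → x = x') ∧
  ∀ y, M.E y b → ∃ x, M.E x a ∧ ap M f x = y

theorem Dfn.bij {s t r : (ℕ → K) → K} (hs : DT M.E M.U G s) (ht : DT M.E M.U G t)
    (hr : DT M.E M.U G r) : Dfn M.E M.U G (fun v => Bij M (s v) (t v) (r v)) := by
  unfold Bij
  have h1 := hs.shift
  have h2 := h1.shift
  have h3 := ht.shift
  have h4 := h3.shift
  have h5 := hr.shift
  have h6 := h5.shift
  (try beta_reduce); repeat' (first
    | with_reducible apply Dfn.od
    | with_reducible apply Dfn.ind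
    | with_reducible apply Dfn.tr
    | with_reducible apply DT.ap
    | with_reducible apply DT.bu
    | with_reducible apply DT.pw
    | with_reducible apply DT.un
    | with_reducible apply DT.op
    | with_reducible apply DT.pr
    | with_reducible apply DT.sOf
    | with_reducible apply DT.the
    | with_reducible exact DT.var _
    | with_reducible exact DT.const _
    | with_reducible apply Dfn.all
    | with_reducible apply Dfn.ex
    | with_reducible apply Dfn.exu
    | with_reducible apply Dfn.and
    | with_reducible apply Dfn.or
    | with_reducible apply Dfn.iff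
    | with_reducible apply Dfn.not
    | with_reducible apply Dfn.imp
    | with_reducible apply Dfn.mem
    | with_reducible apply Dfn.eq
    | with_reducible apply Dfn.ur
    | apply_assumption
    | with_reducible exact Dfn.prop _)


/-- choice for definable families of nonempty subsets of a set -/
theorem exists_choice (a : K) : ∃ c, ∀ s, M.E s a → (∃ y, M.E y s) → M.E (ap M c s) s := by
  obtain ⟨a', _, ha'⟩ := M.sep (fun s => ∃ y, M.E y s) (by (try beta_reduce); repeat' (first
    | with_reducible apply Dfn.bij
    | with_reducible apply Dfn.od
    | with_reducible apply Dfn.ind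
    | with_reducible apply Dfn.tr
    | with_reducible apply DT.ap
    | with_reducible apply DT.bu
    | with_reducible apply DT.pw
    | with_reducible apply DT.un
    | with_reducible apply DT.op
    | with_reducible apply DT.pr
    | with_reducible apply DT.sOf
    | with_reducible apply DT.the
    | with_reducible exact DT.var _
    | with_reducible exact DT.const _
    | with_reducible apply Dfn.all
    | with_reducible apply Dfn.ex
    | with_reducible apply Dfn.exu
    | with_reducible apply Dfn.and
    | with_reducible apply Dfn.or
    | with_reducible apply Dfn.iff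
    | with_reducible apply Dfn.not
    | with_reducible apply Dfn.imp
    | with_reducible apply Dfn.mem
    | with_reducible apply Dfn.eq
    | with_reducible apply Dfn.ur
    | apply_assumption
    | with_reducible exact Dfn.prop _)) a
  obtain ⟨c, _, _, hc⟩ := M.zf.choice a' (fun s hs => ((ha' s).1 hs).2)
  refine ⟨c, fun s hs hy => ?_⟩
  obtain ⟨y, hy, hz⟩ := hc s ((ha' s).2 ⟨hs, hy⟩)
  have h1 : ∀ z, M.E (op M s z) c ↔ z = y := by
    intro z
    rw [← hz z]
    constructor
    · intro h
      exact ⟨_, h, isPair_iff.2 rfl⟩
    · rintro ⟨p, hp, hp2⟩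
      rw [isPair_iff] at hp2
      rw [← hp2]; exact hp
  have : ap M c s = y := the_eq ((h1 y).2 rfl) (fun z hz => (h1 z).1 hz)
  rw [this]; exact hy

/-- every set is the image of an ordinal under a bijection -/
theorem well_order (x : K) : ∃ α f, Od M α ∧ Bij M f α x := by
  obtain ⟨c, hc⟩ := exists_choice (M := M) (pw M x)
  let S : K → K := fun g => sOf M (fun z => M.E z x ∧ ¬ ∃ m, M.E (op M m z) g)
  let F : K → K → K := fun _ g => the (fun y => ((∃ z, M.E z (S g)) ∧ y = ap M c (S g)) ∨
    ((∀ z, ¬ M.E z (S g)) ∧ y = x))
  have hF : D M (fun v => F (v 0) (v 1) = v 2) := by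
    simp only [F, S]
    (try beta_reduce); repeat' (first
      | with_reducible apply Dfn.bij
      | with_reducible apply Dfn.od
      | with_reducible apply Dfn.ind
      | with_reducible apply Dfn.tr
      | with_reducible apply DT.ap
      | with_reducible apply DT.bu
      | with_reducible apply DT.pw
      | with_reducible apply DT.un
      | with_reducible apply DT.op
      | with_reducible apply DT.pr
      | with_reducible apply DT.sOf
      | with_reducible apply DT.the
      | with_reducible exact DT.var _
      | with_reducible exact DT.const _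
      | with_reducible apply Dfn.all
      | with_reducible apply Dfn.ex
      | with_reducible apply Dfn.exu
      | with_reducible apply Dfn.and
      | with_reducible apply Dfn.or
      | with_reducible apply Dfn.iff
      | with_reducible apply Dfn.not
      | with_reducible apply Dfn.imp
      | with_reducible apply Dfn.mem
      | with_reducible apply Dfn.eq
      | with_reducible apply Dfn.ur
      | apply_assumption
      | with_reducible exact Dfn.prop _)
  have hrec := Dfn.recH hF
  have hrec1 := DT.cl1 hrec
  set h := recH M F with hh
  have hS : ∀ β z, M.E z (S (res M h β)) ↔ (M.E z x ∧ ¬ ∃ γ, M.E γ β ∧ h γ = z) := by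
    intro β z
    have h1 : ∀ g, ∀ z, M.E z (S g) ↔ (M.E z x ∧ ¬ ∃ m, M.E (op M m z) g) := fun g =>
      (sOf_spec (M.sep (fun z => ¬ ∃ m, M.E (op M m z) g) (by (try beta_reduce); repeat' (first
        | with_reducible apply Dfn.bij
        | with_reducible apply Dfn.od
        | with_reducible apply Dfn.ind
        | with_reducible apply Dfn.tr
        | with_reducible apply DT.ap
        | with_reducible apply DT.bu
        | with_reducible apply DT.pw
        | with_reducible apply DT.un
        | with_reducible apply DT.op
        | with_reducible apply DT.pr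
        | with_reducible apply DT.sOf
        | with_reducible apply DT.the
        | with_reducible exact DT.var _
        | with_reducible exact DT.const _
        | with_reducible apply Dfn.all
        | with_reducible apply Dfn.ex
        | with_reducible apply Dfn.exu
        | with_reducible apply Dfn.and
        | with_reducible apply Dfn.or
        | with_reducible apply Dfn.iff
        | with_reducible apply Dfn.not
        | with_reducible apply Dfn.imp
        | with_reducible apply Dfn.mem
        | with_reducible apply Dfn.eq
        | with_reducible apply Dfn.ur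
        | apply_assumption
        | with_reducible exact Dfn.prop _)) x)).2
    rw [h1]
    refine and_congr Iff.rfl (not_congr ?_)
    constructor
    · rintro ⟨m, hm⟩
      obtain ⟨γ, hγ, h2⟩ := ((mem_res hrec β).2 _).1 hm
      obtain ⟨rfl, rfl⟩ := op_inj h2
      exact ⟨m, hγ, rfl⟩
    · rintro ⟨γ, hγ, rfl⟩
      exact ⟨γ, ((mem_res hrec β).2 _).2 ⟨γ, hγ, rfl⟩⟩
  have hval : ∀ β, (∃ z, M.E z x ∧ ¬ ∃ γ, M.E γ β ∧ h γ = z) →
      (M.E (h β) x ∧ ¬ ∃ γ, M.E γ β ∧ h γ = h β) := by
    intro β hex
    rw [← hS β (h β)]
    have hne : ∃ z, M.E z (S (res M h β)) := by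
      obtain ⟨z, hz⟩ := hex
      exact ⟨z, (hS β z).2 hz⟩
    have : h β = ap M c (S (res M h β)) := by
      rw [hh, rec_eq hF β, ← hh]
      apply the_eq
      · exact Or.inl ⟨hne, rfl⟩
      · rintro y (h1 | h1)
        · exact h1.2
        · obtain ⟨z, hz⟩ := hne
          exact absurd hz (h1.1 z)
    rw [this]
    apply hc _ _ hne
    refine mem_pw.2 ⟨?_, fun w hw => ((hS β w).1 hw).1⟩
    obtain ⟨z, hz⟩ := hne
    exact M.not_ur hz
  have hstop : ∃ α, Od M α ∧ ∀ z, M.E z x → ∃ γ, M.E γ α ∧ h γ = z := by
    by_contra hcon
    push Not at hcon
    have h1 : ∀ β, Od M β → (M.E (h β) x ∧ ¬ ∃ γ, M.E γ β ∧ h γ = h β) := by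
      intro β hβ
      obtain ⟨z, hz, hz2⟩ := hcon β hβ
      exact hval β ⟨z, hz, fun ⟨γ, h3, h4⟩ => hz2 γ h3 h4⟩
    have hinj : ∀ β γ, Od M β → Od M γ → h β = h γ → β = γ := by
      intro β γ hβ hγ heq
      rcases od_tri hβ hγ with h2 | h2 | h2
      · exact absurd ⟨β, h2, heq⟩ (h1 γ hγ).2
      · exact h2
      · exact absurd ⟨γ, h2, heq.symm⟩ (h1 β hβ).2
    obtain ⟨x', _, hx'⟩ := M.sep (fun z => ∃ β, Od M β ∧ h β = z) (by (try beta_reduce); repeat' (first
      | with_reducible apply Dfn.bij
      | with_reducible apply Dfn.od
      | with_reducible apply Dfn.ind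
      | with_reducible apply Dfn.tr
      | with_reducible apply DT.ap
      | with_reducible apply DT.bu
      | with_reducible apply DT.pw
      | with_reducible apply DT.un
      | with_reducible apply DT.op
      | with_reducible apply DT.pr
      | with_reducible apply DT.sOf
      | with_reducible apply DT.the
      | with_reducible exact DT.var _
      | with_reducible exact DT.const _
      | with_reducible apply Dfn.all
      | with_reducible apply Dfn.ex
      | with_reducible apply Dfn.exu
      | with_reducible apply Dfn.and
      | with_reducible apply Dfn.or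
      | with_reducible apply Dfn.iff
      | with_reducible apply Dfn.not
      | with_reducible apply Dfn.imp
      | with_reducible apply Dfn.mem
      | with_reducible apply Dfn.eq
      | with_reducible apply Dfn.ur
      | apply_assumption
      | with_reducible exact Dfn.prop _)) x
    obtain ⟨b, _, hb⟩ := M.repl (fun z β => Od M β ∧ h β = z) (by (try beta_reduce); repeat' (first
      | with_reducible apply Dfn.bij
      | with_reducible apply Dfn.od
      | with_reducible apply Dfn.ind
      | with_reducible apply Dfn.tr
      | with_reducible apply DT.ap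
      | with_reducible apply DT.bu
      | with_reducible apply DT.pw
      | with_reducible apply DT.un
      | with_reducible apply DT.op
      | with_reducible apply DT.pr
      | with_reducible apply DT.sOf
      | with_reducible apply DT.the
      | with_reducible exact DT.var _
      | with_reducible exact DT.const _
      | with_reducible apply Dfn.all
      | with_reducible apply Dfn.ex
      | with_reducible apply Dfn.exu
      | with_reducible apply Dfn.and
      | with_reducible apply Dfn.or
      | with_reducible apply Dfn.iff
      | with_reducible apply Dfn.not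
      | with_reducible apply Dfn.imp
      | with_reducible apply Dfn.mem
      | with_reducible apply Dfn.eq
      | with_reducible apply Dfn.ur
      | apply_assumption
      | with_reducible exact Dfn.prop _)) x' (by
      intro z hz
      obtain ⟨_, β, hβ, hβz⟩ := (hx' z).1 hz
      exact ⟨β, ⟨hβ, hβz⟩, fun γ hγ => hinj γ β hγ.1 hβ (hγ.2.trans hβz.symm)⟩)
    obtain ⟨a, ha, hab⟩ := not_all_od (M := M) b
    exact hab ((hb a).2 ⟨h a, (hx' _).2 ⟨(h1 a ha).1, a, ha, rfl⟩, ha, rfl⟩)
  obtain ⟨α, ⟨hα, hα2⟩, hmin⟩ := M.min
    (P := fun α => Od M α ∧ ∀ z, M.E z x → ∃ γ, M.E γ α ∧ h γ = z) (by (try beta_reduce); repeat' (first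
      | with_reducible apply Dfn.bij
      | with_reducible apply Dfn.od
      | with_reducible apply Dfn.ind
      | with_reducible apply Dfn.tr
      | with_reducible apply DT.ap
      | with_reducible apply DT.bu
      | with_reducible apply DT.pw
      | with_reducible apply DT.un
      | with_reducible apply DT.op
      | with_reducible apply DT.pr
      | with_reducible apply DT.sOf
      | with_reducible apply DT.the
      | with_reducible exact DT.var _
      | with_reducible exact DT.const _
      | with_reducible apply Dfn.all
      | with_reducible apply Dfn.ex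
      | with_reducible apply Dfn.exu
      | with_reducible apply Dfn.and
      | with_reducible apply Dfn.or
      | with_reducible apply Dfn.iff
      | with_reducible apply Dfn.not
      | with_reducible apply Dfn.imp
      | with_reducible apply Dfn.mem
      | with_reducible apply Dfn.eq
      | with_reducible apply Dfn.ur
      | apply_assumption
      | with_reducible exact Dfn.prop _)) hstop
  have h1 : ∀ β, M.E β α → (M.E (h β) x ∧ ¬ ∃ γ, M.E γ β ∧ h γ = h β) := by
    intro β hβ
    apply hval
    by_contra hcon
    push Not at hcon
    exact hmin β hβ ⟨hα.mem hβ, hcon⟩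
  obtain ⟨f, _, hf⟩ := exists_graph hrec α
  have hap : ∀ β, M.E β α → ap M f β = h β := fun β hβ => ap_graph hF hf hβ
  refine ⟨α, f, hα, ?_, ?_, ?_⟩
  · intro β hβ
    rw [hap β hβ]
    exact (h1 β hβ).1
  · intro β γ hβ hγ heq
    rw [hap β hβ, hap γ hγ] at heq
    rcases od_tri (hα.mem hβ) (hα.mem hγ) with h2 | h2 | h2
    · exact absurd ⟨β, h2, heq⟩ (h1 γ hγ).2
    · exact h2
    · exact absurd ⟨γ, h2, heq.symm⟩ (h1 β hβ).2
  · intro y hy
    obtain ⟨γ, hγ, h2⟩ := hα2 y hy
    exact ⟨γ, hγ, (hap γ hγ).trans h2⟩

/-! ### sets of urelements with copies -/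

/-- the set `C` has a copy consisting of urelements outside of `e` and `C` -/
def Dup (M : Mod K) (e C : K) : Prop :=
  ∃ f, (∀ u, M.E u C → M.U (ap M f u) ∧ ¬ M.E (ap M f u) e ∧ ¬ M.E (ap M f u) C) ∧
    ∀ u u', M.E u C → M.E u' C → ap M f u = ap M f u' → u = u'

def Bad (M : Mod K) (e C : K) : Prop :=
  (∀ u, M.E u e → M.U u) ∧ (∀ u, M.E u C → M.U u ∧ ¬ M.E u e) ∧ ¬ Dup M e C

theorem Dfn.bad {s t : (ℕ → K) → K} (hs : DT M.E M.U G s) (ht : DT M.E M.U G t) :
    Dfn M.E M.U G (fun v => Bad M (s v) (t v)) := by
  unfold Bad Dup
  have h1 := hs.shift
  have h2 := h1.shift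
  have h2' := h2.shift
  have h3 := ht.shift
  have h4 := h3.shift
  have h5 := h4.shift
  (try beta_reduce); repeat' (first
    | with_reducible apply Dfn.bij
    | with_reducible apply Dfn.od
    | with_reducible apply Dfn.ind
    | with_reducible apply Dfn.tr
    | with_reducible apply DT.ap
    | with_reducible apply DT.bu
    | with_reducible apply DT.pw
    | with_reducible apply DT.un
    | with_reducible apply DT.op
    | with_reducible apply DT.pr
    | with_reducible apply DT.sOf
    | with_reducible apply DT.the
    | with_reducible exact DT.var _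
    | with_reducible exact DT.const _
    | with_reducible apply Dfn.all
    | with_reducible apply Dfn.ex
    | with_reducible apply Dfn.exu
    | with_reducible apply Dfn.and
    | with_reducible apply Dfn.or
    | with_reducible apply Dfn.iff
    | with_reducible apply Dfn.not
    | with_reducible apply Dfn.imp
    | with_reducible apply Dfn.mem
    | with_reducible apply Dfn.eq
    | with_reducible apply Dfn.ur
    | apply_assumption
    | with_reducible exact Dfn.prop _)


/-- there is a set of urelements beyond which every set of urelements has a copy -/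
theorem exists_base (M : Mod K) : ∃ e0, (∀ u, M.E u e0 → M.U u) ∧
    ∀ e, (∀ u, M.E u e0 → M.E u e) → (∀ u, M.E u e → M.U u) →
      ∀ C, (∀ u, M.E u C → M.U u ∧ ¬ M.E u e) → Dup M e C := by
  by_cases hbad : ∃ e C, Bad M e C
  swap
  · refine ⟨emp M, fun u hu => absurd hu (emp_spec.2 u), fun e _ he C hC => ?_⟩
    by_contra hcon
    exact hbad ⟨e, C, he, hC, hcon⟩
  obtain ⟨α, ⟨hα, e, C, f, ⟨he, hC, hD⟩, hf⟩, hmin⟩ := M.min
    (P := fun α => Od M α ∧ ∃ e C f, Bad M e C ∧ Bij M f α C) (by (try beta_reduce); repeat' (first
      | with_reducible apply Dfn.bad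
      | with_reducible apply Dfn.bij
      | with_reducible apply Dfn.od
      | with_reducible apply Dfn.ind
      | with_reducible apply Dfn.tr
      | with_reducible apply DT.ap
      | with_reducible apply DT.bu
      | with_reducible apply DT.pw
      | with_reducible apply DT.un
      | with_reducible apply DT.op
      | with_reducible apply DT.pr
      | with_reducible apply DT.sOf
      | with_reducible apply DT.the
      | with_reducible exact DT.var _
      | with_reducible exact DT.const _
      | with_reducible apply Dfn.all
      | with_reducible apply Dfn.ex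
      | with_reducible apply Dfn.exu
      | with_reducible apply Dfn.and
      | with_reducible apply Dfn.or
      | with_reducible apply Dfn.iff
      | with_reducible apply Dfn.not
      | with_reducible apply Dfn.imp
      | with_reducible apply Dfn.mem
      | with_reducible apply Dfn.eq
      | with_reducible apply Dfn.ur
      | apply_assumption
      | with_reducible exact Dfn.prop _)) (by
      obtain ⟨e, C, h⟩ := hbad
      obtain ⟨α, f, hα, hf⟩ := well_order (M := M) C
      exact ⟨α, hα, e, C, f, h, hf⟩)
  refine ⟨bu M e C, ?_, ?_⟩
  · intro u hu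
    rcases mem_bu.1 hu with h1 | h1
    · exact he u h1
    · exact (hC u h1).1
  intro e' hee' he' C' hC'
  by_contra hD'
  apply hD
  obtain ⟨α', f', hα', hf'⟩ := well_order (M := M) C'
  have hsub : ∀ β, M.E β α → M.E β α' := by
    rcases od_tri hα hα' with h1 | h1 | h1
    · exact fun β hβ => hα'.2.1 α h1 β hβ
    · rw [h1]; exact fun _ h => h
    · exact absurd ⟨hα', e', C', f', ⟨he', hC', hD'⟩, hf'⟩ (hmin α' h1)
  let g : K → K := fun u => ap M f' (the (fun β => M.E β α ∧ ap M f β = u))
  have hg : D M (fun v => g (v 0) = v 1) := by
    simp only [g]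
    (try beta_reduce); repeat' (first
      | with_reducible apply Dfn.bad
      | with_reducible apply Dfn.bij
      | with_reducible apply Dfn.od
      | with_reducible apply Dfn.ind
      | with_reducible apply Dfn.tr
      | with_reducible apply DT.ap
      | with_reducible apply DT.bu
      | with_reducible apply DT.pw
      | with_reducible apply DT.un
      | with_reducible apply DT.op
      | with_reducible apply DT.pr
      | with_reducible apply DT.sOf
      | with_reducible apply DT.the
      | with_reducible exact DT.var _
      | with_reducible exact DT.const _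
      | with_reducible apply Dfn.all
      | with_reducible apply Dfn.ex
      | with_reducible apply Dfn.exu
      | with_reducible apply Dfn.and
      | with_reducible apply Dfn.or
      | with_reducible apply Dfn.iff
      | with_reducible apply Dfn.not
      | with_reducible apply Dfn.imp
      | with_reducible apply Dfn.mem
      | with_reducible apply Dfn.eq
      | with_reducible apply Dfn.ur
      | apply_assumption
      | with_reducible exact Dfn.prop _)
  have hgu : ∀ β, M.E β α → g (ap M f β) = ap M f' β := by
    intro β hβ
    simp only [g]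
    congr 1
    exact the_eq ⟨hβ, rfl⟩ fun γ hγ => hf.2.1 _ _ hγ.1 hβ hγ.2
  obtain ⟨g', _, hg'⟩ := exists_graph hg C
  have hap : ∀ u, M.E u C → ap M g' u = g u := by
    intro u hu
    apply the_eq
    · exact (hg' _).2 ⟨u, hu, rfl⟩
    · intro c hc
      obtain ⟨y, _, h⟩ := (hg' _).1 hc
      obtain ⟨rfl, rfl⟩ := op_inj h
      rfl
  refine ⟨g', ?_, ?_⟩
  · intro u hu
    obtain ⟨β, hβ, rfl⟩ := hf.2.2 u hu
    rw [hap _ hu, hgu β hβ]
    have h1 := hf'.1 β (hsub β hβ)
    obtain ⟨h2, h3⟩ := hC' _ h1
    exact ⟨h2, fun h4 => h3 (hee' _ (mem_bu.2 (Or.inl h4))),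
      fun h4 => h3 (hee' _ (mem_bu.2 (Or.inr h4)))⟩
  · intro u u' hu hu' heq
    obtain ⟨β, hβ, rfl⟩ := hf.2.2 u hu
    obtain ⟨β', hβ', rfl⟩ := hf.2.2 u' hu'
    rw [hap _ hu, hap _ hu', hgu β hβ, hgu β' hβ'] at heq
    rw [hf'.2.1 β β' (hsub β hβ) (hsub β' hβ') heq]

end Pool.Agent.H83R3.GBU
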