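import Pool.Agent.H83R3.GBU.Sets

set_option autoImplicit false
set_option linter.unusedSectionVars false

namespace Pool.Agent.H83R3.GBU

variable {K : Type} [Nonempty K] {M : Mod K} {G : K → Prop}

/-- transitive -/
def Tr (M : Mod K) (d : K) : Prop := ∀ x, M.E x d → ∀ y, M.E y x → M.E y d

theorem Dfn.tr {s : (ℕ → K) → K} (hs : DT M.E M.U G s) :
    Dfn M.E M.U G (fun v => Tr M (s v)) := by
  unfold Tr
  have h1 := hs.shift
  have h2 := h1.shift
  (try beta_reduce); repeat' (first
    | with_reducible apply DT.ap
    | with_reducible apply DT.bu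
    | with_reducible apply DT.pw
    | with_reducible apply DT.un
    | with_reducible apply DT.op
    | with_reducible apply DT.pr
    | with_reducible apply DT.sOf
    | with_reducible apply DT.the
    | with_reducible exact DT.var _
    | with_reducible exact DT.const _
    | with_reducible apply Dfn.all
    | with_reducible apply Dfn.ex
    | with_reducible apply Dfn.exu
    | with_reducible apply Dfn.and
    | with_reducible apply Dfn.or
    | with_reducible apply Dfn.iff
    | with_reducible apply Dfn.not
    | with_reducible apply Dfn.imp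
    | with_reducible apply Dfn.mem
    | with_reducible apply Dfn.eq
    | with_reducible apply Dfn.ur
    | apply_assumption
    | with_reducible exact Dfn.prop _)


variable (M) in
/-- the restriction of the function `H` to the elements of `x` -/
noncomputable def res (H : K → K) (x : K) : K := sOf M (fun p => ∃ y, M.E y x ∧ p = op M y (H y))

theorem res_congr {H H' : K → K} {x : K} (h : ∀ y, M.E y x → H y = H' y) :
    res M H x = res M H' x := by
  unfold res
  congr 1
  funext p
  refine propext (exists_congr fun y => and_congr_right fun hy => ?_)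
  rw [h y hy]

theorem mem_res {H : K → K} (hH : D M (fun v => H (v 0) = v 1)) (x : K) :
    ¬ M.U (res M H x) ∧ ∀ p, M.E p (res M H x) ↔ ∃ y, M.E y x ∧ p = op M y (H y) :=
  sOf_spec (exists_graph hH x)

/-- `f` is an approximation on the transitive set `d` -/
def Att (M : Mod K) (F : K → K → K) (d f : K) : Prop :=
  Tr M d ∧ ∀ x, M.E x d → ap M f x = F x (res M (ap M f) x)

/-- the union of the approximations -/
noncomputable def hv (M : Mod K) (F : K → K → K) (y : K) : K :=
  the (fun z => ∃ d f, Att M F d f ∧ M.E y d ∧ z = ap M f y)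

/-- the function defined by recursion -/
noncomputable def recH (M : Mod K) (F : K → K → K) (x : K) : K := F x (res M (hv M F) x)

section

variable {F : K → K → K} (hF : D M (fun v => F (v 0) (v 1) = v 2))

include hF

theorem Dfn.att : D M (fun v => Att M F (v 0) (v 1)) := by
  unfold Att res
  have h := DT.cl2 hF
  (try beta_reduce); repeat' (first
    | with_reducible apply Dfn.tr
    | with_reducible apply DT.ap
    | with_reducible apply DT.bu
    | with_reducible apply DT.pw
    | with_reducible apply DT.un
    | with_reducible apply DT.op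
    | with_reducible apply DT.pr
    | with_reducible apply DT.sOf
    | with_reducible apply DT.the
    | with_reducible exact DT.var _
    | with_reducible exact DT.const _
    | with_reducible apply Dfn.all
    | with_reducible apply Dfn.ex
    | with_reducible apply Dfn.exu
    | with_reducible apply Dfn.and
    | with_reducible apply Dfn.or
    | with_reducible apply Dfn.iff
    | with_reducible apply Dfn.not
    | with_reducible apply Dfn.imp
    | with_reducible apply Dfn.mem
    | with_reducible apply Dfn.eq
    | with_reducible apply Dfn.ur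
    | apply_assumption
    | with_reducible exact Dfn.prop _)

theorem Dfn.hv : D M (fun v => hv M F (v 0) = v 1) := by
  unfold GBU.hv
  have h := DT.cl2 hF
  have h2 := Dfn.cl2 (Dfn.att hF)
  (try beta_reduce); repeat' (first
    | with_reducible apply Dfn.tr
    | with_reducible apply DT.ap
    | with_reducible apply DT.bu
    | with_reducible apply DT.pw
    | with_reducible apply DT.un
    | with_reducible apply DT.op
    | with_reducible apply DT.pr
    | with_reducible apply DT.sOf
    | with_reducible apply DT.the
    | with_reducible exact DT.var _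
    | with_reducible exact DT.const _
    | with_reducible apply Dfn.all
    | with_reducible apply Dfn.ex
    | with_reducible apply Dfn.exu
    | with_reducible apply Dfn.and
    | with_reducible apply Dfn.or
    | with_reducible apply Dfn.iff
    | with_reducible apply Dfn.not
    | with_reducible apply Dfn.imp
    | with_reducible apply Dfn.mem
    | with_reducible apply Dfn.eq
    | with_reducible apply Dfn.ur
    | apply_assumption
    | with_reducible exact Dfn.prop _)

theorem Dfn.recH : D M (fun v => recH M F (v 0) = v 1) := by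
  unfold GBU.recH res
  have h := DT.cl2 hF
  have h2 := DT.cl1 (Dfn.hv hF)
  (try beta_reduce); repeat' (first
    | with_reducible apply Dfn.tr
    | with_reducible apply DT.ap
    | with_reducible apply DT.bu
    | with_reducible apply DT.pw
    | with_reducible apply DT.un
    | with_reducible apply DT.op
    | with_reducible apply DT.pr
    | with_reducible apply DT.sOf
    | with_reducible apply DT.the
    | with_reducible exact DT.var _
    | with_reducible exact DT.const _
    | with_reducible apply Dfn.all
    | with_reducible apply Dfn.ex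
    | with_reducible apply Dfn.exu
    | with_reducible apply Dfn.and
    | with_reducible apply Dfn.or
    | with_reducible apply Dfn.iff
    | with_reducible apply Dfn.not
    | with_reducible apply Dfn.imp
    | with_reducible apply Dfn.mem
    | with_reducible apply Dfn.eq
    | with_reducible apply Dfn.ur
    | apply_assumption
    | with_reducible exact Dfn.prop _)

theorem att_unique {d f d' f' : K} (h : Att M F d f) (h' : Att M F d' f') :
    ∀ x, M.E x d → M.E x d' → ap M f x = ap M f' x := by
  intro x hx hx'
  by_contra hne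
  obtain ⟨B, _, hB⟩ := M.sep (fun x => M.E x d' ∧ ¬ ap M f x = ap M f' x) (by (try beta_reduce); repeat' (first
    | with_reducible apply Dfn.tr
    | with_reducible apply DT.ap
    | with_reducible apply DT.bu
    | with_reducible apply DT.pw
    | with_reducible apply DT.un
    | with_reducible apply DT.op
    | with_reducible apply DT.pr
    | with_reducible apply DT.sOf
    | with_reducible apply DT.the
    | with_reducible exact DT.var _
    | with_reducible exact DT.const _
    | with_reducible apply Dfn.all
    | with_reducible apply Dfn.ex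
    | with_reducible apply Dfn.exu
    | with_reducible apply Dfn.and
    | with_reducible apply Dfn.or
    | with_reducible apply Dfn.iff
    | with_reducible apply Dfn.not
    | with_reducible apply Dfn.imp
    | with_reducible apply Dfn.mem
    | with_reducible apply Dfn.eq
    | with_reducible apply Dfn.ur
    | apply_assumption
    | with_reducible exact Dfn.prop _)) d
  obtain ⟨z, hz, hz2⟩ := M.zf.foundation B ⟨x, (hB x).2 ⟨hx, hx', hne⟩⟩
  obtain ⟨hzd, hzd', hzne⟩ := (hB z).1 hz
  apply hzne
  rw [h.2 z hzd, h'.2 z hzd']
  congr 1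
  apply res_congr
  intro y hy
  by_contra hne'
  exact hz2 y hy ((hB y).2 ⟨h.1 z hzd y hy, h'.1 z hzd' y hy, hne'⟩)

theorem hv_eq {d f y : K} (h : Att M F d f) (hy : M.E y d) : hv M F y = ap M f y := by
  refine the_eq ⟨d, f, h, hy, rfl⟩ ?_
  rintro z ⟨d', f', h', hy', rfl⟩
  exact att_unique hF h' h y hy' hy

theorem att_rec {d f y : K} (h : Att M F d f) (hy : M.E y d) : ap M f y = recH M F y := by
  unfold recH
  rw [h.2 y hy]
  congr 1
  apply res_congr
  intro w hw
  exact (hv_eq hF h (h.1 y hy w hw)).symm

theorem ap_graph {f : K → K} {g a : K} (hg : ∀ p, M.E p g ↔ ∃ x, M.E x a ∧ p = op M x (f x))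
    {x : K} (hx : M.E x a) : ap M g x = f x := by
  apply the_eq
  · exact (hg _).2 ⟨x, hx, rfl⟩
  · intro c hc
    obtain ⟨y, _, h⟩ := (hg _).1 hc
    obtain ⟨rfl, rfl⟩ := op_inj h
    rfl

theorem exists_att {t : K} (ht : Tr M t) : ∀ x, M.E x t → ∃ d f, Att M F d f ∧ M.E x d := by
  have hatt := Dfn.cl2 (Dfn.att hF)
  intro x hx
  by_contra hne
  obtain ⟨B, _, hB⟩ := M.sep (fun x => ¬ ∃ d f, Att M F d f ∧ M.E x d) (by (try beta_reduce); repeat' (first
    | with_reducible apply Dfn.tr
    | with_reducible apply DT.ap
    | with_reducible apply DT.bu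
    | with_reducible apply DT.pw
    | with_reducible apply DT.un
    | with_reducible apply DT.op
    | with_reducible apply DT.pr
    | with_reducible apply DT.sOf
    | with_reducible apply DT.the
    | with_reducible exact DT.var _
    | with_reducible exact DT.const _
    | with_reducible apply Dfn.all
    | with_reducible apply Dfn.ex
    | with_reducible apply Dfn.exu
    | with_reducible apply Dfn.and
    | with_reducible apply Dfn.or
    | with_reducible apply Dfn.iff
    | with_reducible apply Dfn.not
    | with_reducible apply Dfn.imp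
    | with_reducible apply Dfn.mem
    | with_reducible apply Dfn.eq
    | with_reducible apply Dfn.ur
    | apply_assumption
    | with_reducible exact Dfn.prop _)) t
  obtain ⟨x, hxB, hx2⟩ := M.zf.foundation B ⟨x, (hB x).2 ⟨hx, hne⟩⟩
  obtain ⟨hxt, hxn⟩ := (hB x).1 hxB
  have hP : ∀ y, M.E y x → ∃ d f, Att M F d f ∧ M.E y d := by
    intro y hy
    by_contra hne'
    exact hx2 y hy ((hB y).2 ⟨ht x hxt y hy, hne'⟩)
  apply hxn
  obtain ⟨d, _, hd⟩ := M.sep (fun z => z = x ∨ ∃ y, M.E y x ∧ ∀ d, Tr M d → M.E y d → M.E z d)
    (by (try beta_reduce); repeat' (first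
      | with_reducible apply Dfn.tr
      | with_reducible apply DT.ap
      | with_reducible apply DT.bu
      | with_reducible apply DT.pw
      | with_reducible apply DT.un
      | with_reducible apply DT.op
      | with_reducible apply DT.pr
      | with_reducible apply DT.sOf
      | with_reducible apply DT.the
      | with_reducible exact DT.var _
      | with_reducible exact DT.const _
      | with_reducible apply Dfn.all
      | with_reducible apply Dfn.ex
      | with_reducible apply Dfn.exu
      | with_reducible apply Dfn.and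
      | with_reducible apply Dfn.or
      | with_reducible apply Dfn.iff
      | with_reducible apply Dfn.not
      | with_reducible apply Dfn.imp
      | with_reducible apply Dfn.mem
      | with_reducible apply Dfn.eq
      | with_reducible apply Dfn.ur
      | apply_assumption
      | with_reducible exact Dfn.prop _)) t
  have hdx : M.E x d := (hd x).2 ⟨hxt, Or.inl rfl⟩
  have hdtr : Tr M d := by
    intro z hz w hw
    obtain ⟨hzt, h1⟩ := (hd z).1 hz
    refine (hd w).2 ⟨ht z hzt w hw, Or.inr ?_⟩
    rcases h1 with rfl | ⟨y, hy, hyz⟩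
    · exact ⟨w, hw, fun _ _ h => h⟩
    · exact ⟨y, hy, fun d' hd' hyd' => hd' z (hyz d' hd' hyd') w hw⟩
  have hall : ∀ z, M.E z d → ∀ y, M.E y z → ∃ d f, Att M F d f ∧ M.E y d := by
    intro z hz y hy
    obtain ⟨_, h1⟩ := (hd z).1 hz
    rcases h1 with rfl | ⟨y', hy', hyz⟩
    · exact hP y hy
    · obtain ⟨d', f', ha, hyd⟩ := hP y' hy'
      exact ⟨d', f', ha, ha.1 z (hyz d' ha.1 hyd) y hy⟩
  obtain ⟨f, _, hf⟩ := exists_graph (Dfn.recH hF) d
  refine ⟨d, f, ⟨hdtr, fun z hz => ?_⟩, hdx⟩
  rw [ap_graph hF hf hz]
  conv_lhs => unfold recH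
  congr 1
  apply res_congr
  intro y hy
  obtain ⟨d', f', ha, hyd⟩ := hall z hz y hy
  rw [hv_eq hF ha hyd, att_rec hF ha hyd, ap_graph hF hf (hdtr z hz y hy)]

theorem rec_eq_of_tr {t x : K} (ht : Tr M t) (hx : M.E x t) :
    recH M F x = F x (res M (recH M F) x) := by
  conv_lhs => unfold recH
  congr 1
  apply res_congr
  intro y hy
  obtain ⟨d, f, ha, hyd⟩ := exists_att hF ht y (ht x hx y hy)
  rw [hv_eq hF ha hyd, att_rec hF ha hyd]

end

/-! ### transitive closures -/

def Ind (M : Mod K) (x : K) : Prop :=
  (∃ e, M.E e x ∧ ¬ M.U e ∧ ∀ z, ¬ M.E z e) ∧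
    ∀ y, M.E y x → ∃ z, M.E z x ∧ ∀ w, M.E w z ↔ (M.E w y ∨ w = y)

theorem Dfn.ind {s : (ℕ → K) → K} (hs : DT M.E M.U G s) :
    Dfn M.E M.U G (fun v => Ind M (s v)) := by
  unfold Ind
  have h1 := hs.shift
  have h2 := h1.shift
  (try beta_reduce); repeat' (first
    | with_reducible apply Dfn.tr
    | with_reducible apply DT.ap
    | with_reducible apply DT.bu
    | with_reducible apply DT.pw
    | with_reducible apply DT.un
    | with_reducible apply DT.op
    | with_reducible apply DT.pr
    | with_reducible apply DT.sOf
    | with_reducible apply DT.the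
    | with_reducible exact DT.var _
    | with_reducible exact DT.const _
    | with_reducible apply Dfn.all
    | with_reducible apply Dfn.ex
    | with_reducible apply Dfn.exu
    | with_reducible apply Dfn.and
    | with_reducible apply Dfn.or
    | with_reducible apply Dfn.iff
    | with_reducible apply Dfn.not
    | with_reducible apply Dfn.imp
    | with_reducible apply Dfn.mem
    | with_reducible apply Dfn.eq
    | with_reducible apply Dfn.ur
    | apply_assumption
    | with_reducible exact Dfn.prop _)


/-- a transitive set like omega -/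
theorem exists_omega (M : Mod K) : ∃ W, Tr M W ∧ (∃ n, M.E n W) ∧
    ∀ n, M.E n W → ∃ m, M.E m W ∧ M.E n m := by
  obtain ⟨I, hI⟩ := M.zf.infinity
  obtain ⟨W, _, hW⟩ := M.ofSub (P := fun n => ∀ I, Ind M I → M.E n I) (by (try beta_reduce); repeat' (first
    | with_reducible apply Dfn.ind
    | with_reducible apply Dfn.tr
    | with_reducible apply DT.ap
    | with_reducible apply DT.bu
    | with_reducible apply DT.pw
    | with_reducible apply DT.un
    | with_reducible apply DT.op
    | with_reducible apply DT.pr
    | with_reducible apply DT.sOf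
    | with_reducible apply DT.the
    | with_reducible exact DT.var _
    | with_reducible exact DT.const _
    | with_reducible apply Dfn.all
    | with_reducible apply Dfn.ex
    | with_reducible apply Dfn.exu
    | with_reducible apply Dfn.and
    | with_reducible apply Dfn.or
    | with_reducible apply Dfn.iff
    | with_reducible apply Dfn.not
    | with_reducible apply Dfn.imp
    | with_reducible apply Dfn.mem
    | with_reducible apply Dfn.eq
    | with_reducible apply Dfn.ur
    | apply_assumption
    | with_reducible exact Dfn.prop _)) I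
    (fun x hx => hx I hI)
  obtain ⟨W', _, hW'⟩ := M.sep (fun n => ∀ m, M.E m n → M.E m W) (by (try beta_reduce); repeat' (first
    | with_reducible apply Dfn.ind
    | with_reducible apply Dfn.tr
    | with_reducible apply DT.ap
    | with_reducible apply DT.bu
    | with_reducible apply DT.pw
    | with_reducible apply DT.un
    | with_reducible apply DT.op
    | with_reducible apply DT.pr
    | with_reducible apply DT.sOf
    | with_reducible apply DT.the
    | with_reducible exact DT.var _
    | with_reducible exact DT.const _
    | with_reducible apply Dfn.all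
    | with_reducible apply Dfn.ex
    | with_reducible apply Dfn.exu
    | with_reducible apply Dfn.and
    | with_reducible apply Dfn.or
    | with_reducible apply Dfn.iff
    | with_reducible apply Dfn.not
    | with_reducible apply Dfn.imp
    | with_reducible apply Dfn.mem
    | with_reducible apply Dfn.eq
    | with_reducible apply Dfn.ur
    | apply_assumption
    | with_reducible exact Dfn.prop _)) W
  obtain ⟨he1, he2⟩ := emp_spec (M := M)
  have hemp : ∀ I, Ind M I → M.E (emp M) I := by
    rintro I ⟨⟨e, he, he3, he4⟩, _⟩
    rw [M.ext he1 he3 fun z => ⟨fun h => absurd h (he2 z), fun h => absurd h (he4 z)⟩]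
    exact he
  have hsuc : ∀ n, M.E n W → ∀ m, (∀ w, M.E w m ↔ (M.E w n ∨ w = n)) → M.E m W := by
    intro n hn m hm
    refine (hW m).2 fun I hI => ?_
    obtain ⟨z, hz, hz2⟩ := hI.2 n ((hW n).1 hn I hI)
    rw [M.ext (M.not_ur ((hm n).2 (Or.inr rfl))) (M.not_ur ((hz2 n).2 (Or.inr rfl)))
      fun w => (hm w).trans (hz2 w).symm]
    exact hz
  have hex : ∀ n, ∃ m, ∀ w, M.E w m ↔ (M.E w n ∨ w = n) := by
    intro n
    refine ⟨bu M n (pr M n n), fun w => ?_⟩
    rw [mem_bu, mem_pr]
    tauto
  have hInd : Ind M W' := by
    refine ⟨⟨emp M, (hW' _).2 ⟨(hW _).2 hemp, fun m hm => absurd hm (he2 m)⟩, he1, he2⟩, ?_⟩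
    intro y hy
    obtain ⟨hyW, hy2⟩ := (hW' y).1 hy
    obtain ⟨m, hm⟩ := hex y
    refine ⟨m, (hW' m).2 ⟨hsuc y hyW m hm, fun w hw => ?_⟩, hm⟩
    rcases (hm w).1 hw with h1 | rfl
    · exact hy2 w h1
    · exact hyW
  refine ⟨W, ?_, ⟨emp M, (hW _).2 hemp⟩, ?_⟩
  · intro n hn m hm
    exact ((hW' n).1 ((hW n).1 hn W' hInd)).2 m hm
  · intro n hn
    obtain ⟨m, hm⟩ := hex n
    exact ⟨m, hsuc n hn m hm, (hm n).2 (Or.inr rfl)⟩

theorem exists_tr (M : Mod K) (a : K) : ∃ t, Tr M t ∧ M.E a t := by
  obtain ⟨W, hW, ⟨n0, hn0⟩, hWs⟩ := exists_omega M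
  let F : K → K → K := fun _ g => sOf M (fun z => M.E z a ∨ ∃ m w y, M.E (op M m w) g ∧
    M.E y w ∧ M.E z y)
  have hF : D M (fun v => F (v 0) (v 1) = v 2) := by
    simp only [F]
    (try beta_reduce); repeat' (first
      | with_reducible apply Dfn.ind
      | with_reducible apply Dfn.tr
      | with_reducible apply DT.ap
      | with_reducible apply DT.bu
      | with_reducible apply DT.pw
      | with_reducible apply DT.un
      | with_reducible apply DT.op
      | with_reducible apply DT.pr
      | with_reducible apply DT.sOf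
      | with_reducible apply DT.the
      | with_reducible exact DT.var _
      | with_reducible exact DT.const _
      | with_reducible apply Dfn.all
      | with_reducible apply Dfn.ex
      | with_reducible apply Dfn.exu
      | with_reducible apply Dfn.and
      | with_reducible apply Dfn.or
      | with_reducible apply Dfn.iff
      | with_reducible apply Dfn.not
      | with_reducible apply Dfn.imp
      | with_reducible apply Dfn.mem
      | with_reducible apply Dfn.eq
      | with_reducible apply Dfn.ur
      | apply_assumption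
      | with_reducible exact Dfn.prop _)
  have hFs : ∀ n g, ¬ M.U (F n g) ∧ ∀ z, M.E z (F n g) ↔ (M.E z a ∨ ∃ m w y, M.E (op M m w) g ∧
      M.E y w ∧ M.E z y) := by
    intro n g
    apply sOf_spec
    refine M.ofSub (by (try beta_reduce); repeat' (first
      | with_reducible apply Dfn.ind
      | with_reducible apply Dfn.tr
      | with_reducible apply DT.ap
      | with_reducible apply DT.bu
      | with_reducible apply DT.pw
      | with_reducible apply DT.un
      | with_reducible apply DT.op
      | with_reducible apply DT.pr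
      | with_reducible apply DT.sOf
      | with_reducible apply DT.the
      | with_reducible exact DT.var _
      | with_reducible exact DT.const _
      | with_reducible apply Dfn.all
      | with_reducible apply Dfn.ex
      | with_reducible apply Dfn.exu
      | with_reducible apply Dfn.and
      | with_reducible apply Dfn.or
      | with_reducible apply Dfn.iff
      | with_reducible apply Dfn.not
      | with_reducible apply Dfn.imp
      | with_reducible apply Dfn.mem
      | with_reducible apply Dfn.eq
      | with_reducible apply Dfn.ur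
      | apply_assumption
      | with_reducible exact Dfn.prop _)) (bu M a (un M (un M (un M (un M g))))) ?_
    rintro z (h | ⟨m, w, y, h1, h2, h3⟩)
    · exact mem_bu.2 (Or.inl h)
    · refine mem_bu.2 (Or.inr (mem_un.2 ⟨y, mem_un.2 ⟨w, mem_un.2 ⟨pr M m w, mem_un.2
        ⟨op M m w, h1, ?_⟩, ?_⟩, h2⟩, h3⟩))
      · exact mem_pr.2 (Or.inr rfl)
      · exact mem_pr.2 (Or.inr rfl)
  have hrec := Dfn.recH hF
  have hu : ∀ n, M.E n W → ∀ z, M.E z (recH M F n) ↔
      (M.E z a ∨ ∃ m, M.E m n ∧ ∃ y, M.E y (recH M F m) ∧ M.E z y) := by
    intro n hn z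
    rw [rec_eq_of_tr hF hW hn, (hFs n _).2 z]
    refine or_congr Iff.rfl ?_
    constructor
    · rintro ⟨m, w, y, h1, h2, h3⟩
      obtain ⟨m', hm', h4⟩ := ((mem_res hrec n).2 _).1 h1
      obtain ⟨rfl, rfl⟩ := op_inj h4
      exact ⟨m, hm', y, h2, h3⟩
    · rintro ⟨m, hm, y, hy, hz⟩
      exact ⟨m, _, y, ((mem_res hrec n).2 _).2 ⟨m, hm, rfl⟩, hy, hz⟩
  obtain ⟨A, _, hA⟩ := M.image hrec W
  refine ⟨bu M (un M A) (pr M a a), ?_, mem_bu.2 (Or.inr (mem_pr.2 (Or.inl rfl)))⟩
  intro x hx y hy
  refine mem_bu.2 (Or.inl ?_)
  rcases mem_bu.1 hx with h1 | h1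
  · obtain ⟨u, hu1, hxu⟩ := mem_un.1 h1
    obtain ⟨n, hn, rfl⟩ := (hA u).1 hu1
    obtain ⟨m, hm, hnm⟩ := hWs n hn
    refine mem_un.2 ⟨recH M F m, (hA _).2 ⟨m, hm, rfl⟩, ?_⟩
    exact (hu m hm y).2 (Or.inr ⟨n, hnm, x, hxu, hy⟩)
  · have : x = a := by rcases mem_pr.1 h1 with h2 | h2 <;> exact h2
    subst this
    exact mem_un.2 ⟨recH M F n0, (hA _).2 ⟨n0, hn0, rfl⟩, (hu n0 hn0 y).2 (Or.inl hy)⟩

/-- induction on membership -/
theorem Mod.ind (M : Mod K) {P : K → Prop} (hP : D M (fun v => P (v 0)))
    (h : ∀ x, (∀ y, M.E y x → P y) → P x) : ∀ x, P x := by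
  intro x
  by_contra hx
  obtain ⟨t, ht, hxt⟩ := exists_tr M x
  obtain ⟨B, _, hB⟩ := M.sep (fun x => ¬ P x) (.not hP) t
  obtain ⟨z, hz, hz2⟩ := M.zf.foundation B ⟨x, (hB x).2 ⟨hxt, hx⟩⟩
  obtain ⟨hzt, hzP⟩ := (hB z).1 hz
  apply hzP
  apply h
  intro y hy
  by_contra hyP
  exact hz2 y hy ((hB y).2 ⟨ht z hzt y hy, hyP⟩)

/-- minimal elements of definable classes -/
theorem Mod.min (M : Mod K) {P : K → Prop} (hP : D M (fun v => P (v 0))) (h : ∃ x, P x) :
    ∃ x, P x ∧ ∀ y, M.E y x → ¬ P y := by
  by_contra hcon
  push Not at hcon
  obtain ⟨x, hx⟩ := h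
  refine M.ind (P := fun x => ¬ P x) (.not hP) ?_ x hx
  intro x ih hx
  obtain ⟨y, hy, hy2⟩ := hcon x hx
  exact ih y hy hy2

theorem rec_eq {F : K → K → K} (hF : D M (fun v => F (v 0) (v 1) = v 2)) (x : K) :
    recH M F x = F x (res M (recH M F) x) := by
  obtain ⟨t, ht, hx⟩ := exists_tr M x
  exact rec_eq_of_tr hF ht hx

end Pool.Agent.H83R3.GBU
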