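import Pool.Agent.H83R3.GBU.Basic

set_option autoImplicit false
set_option linter.unusedSectionVars false

namespace Pool.Agent.H83R3.GBU

variable {K : Type} [Nonempty K] {M : Mod K} {G : K → Prop}

theorem Mod.sep (M : Mod K) (R : K → Prop) (hR : D M (fun v => R (v 0))) (a : K) :
    ∃ b, ¬ M.U b ∧ ∀ x, M.E x b ↔ (M.E x a ∧ R x) := by
  obtain ⟨φ, p, hφ⟩ := hR
  obtain ⟨b, hb0, hb⟩ := M.zf.separation
    (pure (rename (fun n => if n % 2 = 0 then 0 else n / 2 + 1) φ)) p a
  refine ⟨b, hb0, fun x => ?_⟩
  rw [hb x, sat_pure, sat_rename]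
  have h1 := hφ (fun _ => x)
  have : mix (fun _ => x) p = fun n => cons x p (if n % 2 = 0 then 0 else n / 2 + 1) := by
    funext n
    rcases Nat.even_or_odd' n with ⟨m, rfl | rfl⟩
    · rw [if_pos (by omega), mix_even]; rfl
    · rw [if_neg (by omega), mix_odd, cons_succ]
      congr 1
      omega
  rw [← this]
  exact and_congr Iff.rfl h1.symm

theorem mix_two (x y : K) (p : ℕ → K) :
    mix (fun n => if n = 0 then x else y) p =
      fun n => cons x (cons y p) (if n % 2 = 0 then (if n = 0 then 0 else 1) else n / 2 + 2) := by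
  funext n
  rcases Nat.even_or_odd' n with ⟨m, rfl | rfl⟩
  · rw [if_pos (by omega), mix_even]
    by_cases hm : m = 0
    · rw [if_pos hm, if_pos (by omega)]; rfl
    · rw [if_neg hm, if_neg (by omega)]; rfl
  · rw [if_neg (by omega), mix_odd]
    have : (2 * m + 1) / 2 + 2 = m + 1 + 1 := by omega
    rw [this, cons_succ, cons_succ]

theorem Mod.repl (M : Mod K) (R : K → K → Prop) (hR : D M (fun v => R (v 0) (v 1))) (a : K)
    (hu : ∀ x, M.E x a → ∃! y, R x y) :
    ∃ b, ¬ M.U b ∧ ∀ y, M.E y b ↔ ∃ x, M.E x a ∧ R x y := by
  obtain ⟨φ, p, hφ⟩ := hR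
  have key : ∀ x y, R x y ↔ Sat M.E M.U (pure (rename (fun n => if n % 2 = 0 then
      (if n = 0 then 0 else 1) else n / 2 + 2) φ)) (cons x (cons y p)) := by
    intro x y
    rw [sat_pure, sat_rename, ← mix_two]
    exact hφ (fun n => if n = 0 then x else y)
  obtain ⟨b, hb0, hb⟩ := M.zf.replacement (pure (rename (fun n => if n % 2 = 0 then
    (if n = 0 then 0 else 1) else n / 2 + 2) φ)) p a (fun x hx => by
      obtain ⟨y, hy, huy⟩ := hu x hx
      exact ⟨y, (key x y).1 hy, fun y' hy' => huy y' ((key x y').2 hy')⟩)
  refine ⟨b, hb0, fun y => ?_⟩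
  rw [hb y]
  exact exists_congr fun x => and_congr Iff.rfl (key x y).symm

/-- a definable class included in a set is a set -/
theorem Mod.ofSub (M : Mod K) {P : K → Prop} (hP : D M (fun v => P (v 0))) (a : K)
    (h : ∀ x, P x → M.E x a) : ∃ b, ¬ M.U b ∧ ∀ x, M.E x b ↔ P x := by
  obtain ⟨b, hb0, hb⟩ := M.sep P hP a
  exact ⟨b, hb0, fun x => (hb x).trans ⟨fun h => h.2, fun hx => ⟨h x hx, hx⟩⟩⟩

theorem Mod.image (M : Mod K) {f : K → K} (hf : D M (fun v => f (v 0) = v 1)) (a : K) :
    ∃ b, ¬ M.U b ∧ ∀ y, M.E y b ↔ ∃ x, M.E x a ∧ f x = y :=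
  M.repl (fun x y => f x = y) hf a (fun x _ => ⟨f x, rfl, fun _ h => h.symm⟩)

theorem Mod.ext (M : Mod K) {x y : K} (hx : ¬ M.U x) (hy : ¬ M.U y)
    (h : ∀ z, M.E z x ↔ M.E z y) : x = y := M.zf.ext x y hx hy h

theorem Mod.not_ur (M : Mod K) {x y : K} (h : M.E x y) : ¬ M.U y :=
  fun hy => M.zf.urel y hy x h

theorem Mod.irrefl (M : Mod K) (x : K) : ¬ M.E x x := by
  intro hx
  obtain ⟨s, hs⟩ := M.zf.pairing x x
  obtain ⟨y, hy, hy2⟩ := M.zf.foundation s ⟨x, (hs x).2 (Or.inl rfl)⟩
  have : y = x := by rcases (hs y).1 hy with h1 | h1 <;> exact h1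
  subst this
  exact hy2 y hx hy

/-! ### operations -/

variable (M) in
/-- unordered pair -/
noncomputable def pr (x y : K) : K := sOf M (fun w => w = x ∨ w = y)

theorem pr_spec (x y : K) : ¬ M.U (pr M x y) ∧ ∀ w, M.E w (pr M x y) ↔ (w = x ∨ w = y) := by
  apply sOf_spec
  obtain ⟨z, hz⟩ := M.zf.pairing x y
  exact ⟨z, M.not_ur ((hz x).2 (Or.inl rfl)), hz⟩

theorem mem_pr {x y w : K} : M.E w (pr M x y) ↔ (w = x ∨ w = y) := (pr_spec x y).2 w

theorem DT.pr {s t : (ℕ → K) → K} (hs : DT M.E M.U G s) (ht : DT M.E M.U G t) :
    DT M.E M.U G (fun v => pr M (s v) (t v)) := by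
  unfold GBU.pr
  have h1 := hs.shift
  have h2 := ht.shift
  (try beta_reduce); repeat' (first
    | with_reducible apply DT.sOf
    | with_reducible apply DT.the
    | with_reducible exact DT.var _
    | with_reducible exact DT.const _
    | with_reducible apply Dfn.all
    | with_reducible apply Dfn.ex
    | with_reducible apply Dfn.exu
    | with_reducible apply Dfn.and
    | with_reducible apply Dfn.or
    | with_reducible apply Dfn.iff
    | with_reducible apply Dfn.not
    | with_reducible apply Dfn.imp
    | with_reducible apply Dfn.mem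
    | with_reducible apply Dfn.eq
    | with_reducible apply Dfn.ur
    | apply_assumption
    | with_reducible exact Dfn.prop _)


variable (M) in
/-- ordered pair -/
noncomputable def op (x y : K) : K := pr M (pr M x x) (pr M x y)

theorem DT.op {s t : (ℕ → K) → K} (hs : DT M.E M.U G s) (ht : DT M.E M.U G t) :
    DT M.E M.U G (fun v => op M (s v) (t v)) := by
  unfold GBU.op
  (try beta_reduce); repeat' (first
    | with_reducible apply DT.pr
    | with_reducible apply DT.sOf
    | with_reducible apply DT.the
    | with_reducible exact DT.var _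
    | with_reducible exact DT.const _
    | with_reducible apply Dfn.all
    | with_reducible apply Dfn.ex
    | with_reducible apply Dfn.exu
    | with_reducible apply Dfn.and
    | with_reducible apply Dfn.or
    | with_reducible apply Dfn.iff
    | with_reducible apply Dfn.not
    | with_reducible apply Dfn.imp
    | with_reducible apply Dfn.mem
    | with_reducible apply Dfn.eq
    | with_reducible apply Dfn.ur
    | apply_assumption
    | with_reducible exact Dfn.prop _)


theorem pr_unique {x y z : K} (h : ∀ w, M.E w z ↔ (w = x ∨ w = y)) : z = pr M x y :=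
  M.ext (M.not_ur ((h x).2 (Or.inl rfl))) (pr_spec x y).1 fun w => (h w).trans mem_pr.symm

theorem isPair_iff {x y z : K} : IsPair M.E z x y ↔ z = op M x y := by
  constructor
  · intro h
    apply pr_unique
    intro w
    rw [h w]
    constructor
    · rintro (h1 | h1)
      · left
        apply pr_unique
        intro u
        rw [h1 u]; tauto
      · right
        exact pr_unique h1
    · rintro (rfl | rfl)
      · left; intro u; rw [mem_pr]; tauto
      · right; intro u; rw [mem_pr]
  · rintro rfl
    intro w
    unfold op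
    rw [mem_pr]
    constructor
    · rintro (rfl | rfl)
      · left; intro u; rw [mem_pr]; tauto
      · right; intro u; rw [mem_pr]
    · rintro (h1 | h1)
      · left
        apply pr_unique
        intro u
        rw [h1 u]; tauto
      · right
        exact pr_unique h1

theorem pr_self_inj {x y : K} (h : pr M x x = pr M y y) : x = y := by
  have h1 : M.E x (pr M x x) := mem_pr.2 (Or.inl rfl)
  rw [h] at h1
  rcases mem_pr.1 h1 with h2 | h2 <;> exact h2

theorem op_inj {x y x' y' : K} (h : op M x y = op M x' y') : x = x' ∧ y = y' := by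
  have h1 : M.E (pr M x x) (op M x' y') := by
    rw [← h]; exact mem_pr.2 (Or.inl rfl)
  have h2 : M.E (pr M x y) (op M x' y') := by
    rw [← h]; exact mem_pr.2 (Or.inr rfl)
  have h3 : M.E (pr M x' y') (op M x y) := by
    rw [h]; exact mem_pr.2 (Or.inr rfl)
  have hx : x = x' := by
    rcases mem_pr.1 h1 with h4 | h4
    · exact pr_self_inj h4
    · have : M.E x' (pr M x x) := by rw [h4]; exact mem_pr.2 (Or.inl rfl)
      rcases mem_pr.1 this with h5 | h5 <;> exact h5.symm
  subst hx
  refine ⟨rfl, ?_⟩
  have hy : M.E y (pr M x y) := mem_pr.2 (Or.inr rfl)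
  have hy' : M.E y' (pr M x y') := mem_pr.2 (Or.inr rfl)
  rcases mem_pr.1 h2 with h4 | h4
  · rw [h4] at hy
    have hyx : y = x := by rcases mem_pr.1 hy with h5 | h5 <;> exact h5
    rcases mem_pr.1 h3 with h5 | h5
    · rw [h5] at hy'
      have : y' = x := by rcases mem_pr.1 hy' with h6 | h6 <;> exact h6
      rw [hyx, this]
    · rw [h5, h4] at hy'
      have : y' = x := by rcases mem_pr.1 hy' with h6 | h6 <;> exact h6
      rw [hyx, this]
  · rw [h4] at hy
    rcases mem_pr.1 hy with h5 | h5
    · rcases mem_pr.1 h3 with h6 | h6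
      · rw [h6] at hy'
        have : y' = x := by rcases mem_pr.1 hy' with h7 | h7 <;> exact h7
        rw [h5, this]
      · rw [h6] at hy'
        rcases mem_pr.1 hy' with h7 | h7
        · rw [h7, h5]
        · exact h7.symm
    · exact h5

theorem op_ur (x y : K) : ¬ M.U (op M x y) := (pr_spec _ _).1

variable (M) in
noncomputable def un (x : K) : K := sOf M (fun z => ∃ y, M.E y x ∧ M.E z y)

theorem un_spec (x : K) : ¬ M.U (un M x) ∧ ∀ z, M.E z (un M x) ↔ ∃ y, M.E y x ∧ M.E z y :=
  sOf_spec (M.zf.union x)

theorem mem_un {x z : K} : M.E z (un M x) ↔ ∃ y, M.E y x ∧ M.E z y := (un_spec x).2 z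

theorem DT.un {s : (ℕ → K) → K} (hs : DT M.E M.U G s) :
    DT M.E M.U G (fun v => un M (s v)) := by
  unfold GBU.un
  have h1 := hs.shift
  have h2 := h1.shift
  (try beta_reduce); repeat' (first
    | with_reducible apply DT.op
    | with_reducible apply DT.pr
    | with_reducible apply DT.sOf
    | with_reducible apply DT.the
    | with_reducible exact DT.var _
    | with_reducible exact DT.const _
    | with_reducible apply Dfn.all
    | with_reducible apply Dfn.ex
    | with_reducible apply Dfn.exu
    | with_reducible apply Dfn.and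
    | with_reducible apply Dfn.or
    | with_reducible apply Dfn.iff
    | with_reducible apply Dfn.not
    | with_reducible apply Dfn.imp
    | with_reducible apply Dfn.mem
    | with_reducible apply Dfn.eq
    | with_reducible apply Dfn.ur
    | apply_assumption
    | with_reducible exact Dfn.prop _)


variable (M) in
noncomputable def pw (x : K) : K := sOf M (fun z => ¬ M.U z ∧ ∀ w, M.E w z → M.E w x)

theorem pw_spec (x : K) : ¬ M.U (pw M x) ∧
    ∀ z, M.E z (pw M x) ↔ (¬ M.U z ∧ ∀ w, M.E w z → M.E w x) :=
  sOf_spec (M.zf.power x)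

theorem mem_pw {x z : K} : M.E z (pw M x) ↔ (¬ M.U z ∧ ∀ w, M.E w z → M.E w x) :=
  (pw_spec x).2 z

theorem DT.pw {s : (ℕ → K) → K} (hs : DT M.E M.U G s) :
    DT M.E M.U G (fun v => pw M (s v)) := by
  unfold GBU.pw
  have h1 := hs.shift
  have h2 := h1.shift
  (try beta_reduce); repeat' (first
    | with_reducible apply DT.un
    | with_reducible apply DT.op
    | with_reducible apply DT.pr
    | with_reducible apply DT.sOf
    | with_reducible apply DT.the
    | with_reducible exact DT.var _
    | with_reducible exact DT.const _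
    | with_reducible apply Dfn.all
    | with_reducible apply Dfn.ex
    | with_reducible apply Dfn.exu
    | with_reducible apply Dfn.and
    | with_reducible apply Dfn.or
    | with_reducible apply Dfn.iff
    | with_reducible apply Dfn.not
    | with_reducible apply Dfn.imp
    | with_reducible apply Dfn.mem
    | with_reducible apply Dfn.eq
    | with_reducible apply Dfn.ur
    | apply_assumption
    | with_reducible exact Dfn.prop _)


variable (M) in
/-- union of two sets -/
noncomputable def bu (x y : K) : K := un M (pr M x y)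

theorem mem_bu {x y z : K} : M.E z (bu M x y) ↔ (M.E z x ∨ M.E z y) := by
  unfold bu
  rw [mem_un]
  constructor
  · rintro ⟨w, hw, hz⟩
    rcases mem_pr.1 hw with rfl | rfl
    · exact Or.inl hz
    · exact Or.inr hz
  · rintro (hz | hz)
    · exact ⟨x, mem_pr.2 (Or.inl rfl), hz⟩
    · exact ⟨y, mem_pr.2 (Or.inr rfl), hz⟩

theorem bu_ur (x y : K) : ¬ M.U (bu M x y) := (un_spec _).1

theorem DT.bu {s t : (ℕ → K) → K} (hs : DT M.E M.U G s) (ht : DT M.E M.U G t) :
    DT M.E M.U G (fun v => bu M (s v) (t v)) := by
  unfold GBU.bu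
  (try beta_reduce); repeat' (first
    | with_reducible apply DT.pw
    | with_reducible apply DT.un
    | with_reducible apply DT.op
    | with_reducible apply DT.pr
    | with_reducible apply DT.sOf
    | with_reducible apply DT.the
    | with_reducible exact DT.var _
    | with_reducible exact DT.const _
    | with_reducible apply Dfn.all
    | with_reducible apply Dfn.ex
    | with_reducible apply Dfn.exu
    | with_reducible apply Dfn.and
    | with_reducible apply Dfn.or
    | with_reducible apply Dfn.iff
    | with_reducible apply Dfn.not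
    | with_reducible apply Dfn.imp
    | with_reducible apply Dfn.mem
    | with_reducible apply Dfn.eq
    | with_reducible apply Dfn.ur
    | apply_assumption
    | with_reducible exact Dfn.prop _)


variable (M) in
noncomputable def emp : K := sOf M (fun _ => False)

theorem emp_spec : ¬ M.U (emp M) ∧ ∀ z, ¬ M.E z (emp M) := by
  have : ∃ b, ¬ M.U b ∧ ∀ x, M.E x b ↔ False := by
    obtain ⟨x, ⟨e, _, he, he2⟩, _⟩ := M.zf.infinity
    exact ⟨e, he, fun z => ⟨he2 z, fun h => h.elim⟩⟩
  obtain ⟨h1, h2⟩ := sOf_spec this
  exact ⟨h1, fun z => (h2 z).1⟩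

variable (M) in
/-- the value of the function `f` at `x` -/
noncomputable def ap (f x : K) : K := the (fun y => M.E (op M x y) f)

theorem DT.ap {s t : (ℕ → K) → K} (hs : DT M.E M.U G s) (ht : DT M.E M.U G t) :
    DT M.E M.U G (fun v => ap M (s v) (t v)) := by
  unfold GBU.ap
  have h1 := hs.shift
  have h2 := ht.shift
  (try beta_reduce); repeat' (first
    | with_reducible apply DT.bu
    | with_reducible apply DT.pw
    | with_reducible apply DT.un
    | with_reducible apply DT.op
    | with_reducible apply DT.pr
    | with_reducible apply DT.sOf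
    | with_reducible apply DT.the
    | with_reducible exact DT.var _
    | with_reducible exact DT.const _
    | with_reducible apply Dfn.all
    | with_reducible apply Dfn.ex
    | with_reducible apply Dfn.exu
    | with_reducible apply Dfn.and
    | with_reducible apply Dfn.or
    | with_reducible apply Dfn.iff
    | with_reducible apply Dfn.not
    | with_reducible apply Dfn.imp
    | with_reducible apply Dfn.mem
    | with_reducible apply Dfn.eq
    | with_reducible apply Dfn.ur
    | apply_assumption
    | with_reducible exact Dfn.prop _)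


/-- the graph of a definable function on a set -/
theorem exists_graph {f : K → K} (hf : D M (fun v => f (v 0) = v 1)) (a : K) :
    ∃ g, ¬ M.U g ∧ ∀ p, M.E p g ↔ ∃ x, M.E x a ∧ p = op M x (f x) := by
  have hf' := DT.cl1 hf
  obtain ⟨g, hg0, hg⟩ := M.image (f := fun x => op M x (f x)) (by (try beta_reduce); repeat' (first
    | with_reducible apply DT.ap
    | with_reducible apply DT.bu
    | with_reducible apply DT.pw
    | with_reducible apply DT.un
    | with_reducible apply DT.op
    | with_reducible apply DT.pr
    | with_reducible apply DT.sOf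
    | with_reducible apply DT.the
    | with_reducible exact DT.var _
    | with_reducible exact DT.const _
    | with_reducible apply Dfn.all
    | with_reducible apply Dfn.ex
    | with_reducible apply Dfn.exu
    | with_reducible apply Dfn.and
    | with_reducible apply Dfn.or
    | with_reducible apply Dfn.iff
    | with_reducible apply Dfn.not
    | with_reducible apply Dfn.imp
    | with_reducible apply Dfn.mem
    | with_reducible apply Dfn.eq
    | with_reducible apply Dfn.ur
    | apply_assumption
    | with_reducible exact Dfn.prop _)) a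
  exact ⟨g, hg0, fun p => (hg p).trans (exists_congr fun x => and_congr Iff.rfl eq_comm)⟩

end Pool.Agent.H83R3.GBU
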