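import Pool.Agent.H83R3.GBU.Basic

set_option autoImplicit false
set_option linter.unusedSectionVars false

/-!
The downward Loewenheim-Skolem theorem for models of ZFCU_R.
-/

namespace Pool.Agent.H83R3.GBU

variable {K : Type} {E : K → K → Prop} {U : K → Prop}

def emb : Fml → CFml
  | .mem i j => .mem i j
  | .eq i j => .eq i j
  | .ur i => .ur i
  | .bot => .bot
  | .imp φ ψ => .imp (emb φ) (emb ψ)
  | .all φ => .all (emb φ)

theorem sat_emb (φ : Fml) : ∀ v : ℕ → K,
    CSat E U (fun _ _ => False) (emb φ) v ↔ Sat E U φ v := by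
  induction φ with
  | mem i j => intro v; exact Iff.rfl
  | eq i j => intro v; exact Iff.rfl
  | ur i => intro v; exact Iff.rfl
  | bot => intro v; exact Iff.rfl
  | imp φ ψ h1 h2 => intro v; exact imp_congr (h1 v) (h2 v)
  | all φ h => intro v; exact forall_congr' fun a => h _

theorem emb_inj : Function.Injective emb := by
  intro φ
  induction φ with
  | mem i j => intro ψ h; cases ψ <;> simp_all [emb]
  | eq i j => intro ψ h; cases ψ <;> simp_all [emb]
  | ur i => intro ψ h; cases ψ <;> simp_all [emb]
  | bot => intro ψ h; cases ψ <;> simp_all [emb]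
  | imp φ ψ h1 h2 =>
    intro χ h
    cases χ <;> simp only [emb, CFml.imp.injEq, reduceCtorEq] at h
    rw [h1 h.1, h2 h.2]
  | all φ h1 =>
    intro χ h
    cases χ <;> simp only [emb, CFml.all.injEq, reduceCtorEq] at h
    rw [h1 h]

instance : Countable Fml := emb_inj.countable

theorem fsat_congr (φ : Fml) (v w : ℕ → K) (h : ∀ n, n < bd (emb φ) → v n = w n) :
    Sat E U φ v ↔ Sat E U φ w := by
  rw [← sat_emb, ← sat_emb]
  exact sat_congr _ _ _ h

def frename : (ℕ → ℕ) → Fml → Fml
  | f, .mem i j => .mem (f i) (f j)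
  | f, .eq i j => .eq (f i) (f j)
  | f, .ur i => .ur (f i)
  | _, .bot => .bot
  | f, .imp φ ψ => .imp (frename f φ) (frename f ψ)
  | f, .all φ => .all (frename (lift f) φ)

theorem fsat_rename (φ : Fml) : ∀ (f : ℕ → ℕ) (v : ℕ → K),
    Sat E U (frename f φ) v ↔ Sat E U φ (fun n => v (f n)) := by
  induction φ with
  | mem i j => intro f v; exact Iff.rfl
  | eq i j => intro f v; exact Iff.rfl
  | ur i => intro f v; exact Iff.rfl
  | bot => intro f v; exact Iff.rfl
  | imp φ ψ h1 h2 => intro f v; exact imp_congr (h1 f v) (h2 f v)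
  | all φ h =>
    intro f v
    refine forall_congr' fun a => ?_
    rw [h]
    have : (fun n => cons a v (lift f n)) = cons a (fun n => v (f n)) := by
      funext n
      cases n <;> rfl
    rw [this]

/-! ### uniformly definable predicates -/

def UD (R : ∀ {K : Type}, (K → K → Prop) → (K → Prop) → (ℕ → K) → Prop) : Prop :=
  ∃ φ : Fml, ∀ (K : Type) (E : K → K → Prop) (U : K → Prop) (v : ℕ → K),
    R E U v ↔ Sat E U φ v

namespace UD

theorem mem (i j : ℕ) : UD (fun {_} E _ v => E (v i) (v j)) :=
  ⟨.mem i j, fun _ _ _ _ => Iff.rfl⟩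

theorem eq (i j : ℕ) : UD (fun {_} _ _ v => v i = v j) := ⟨.eq i j, fun _ _ _ _ => Iff.rfl⟩

theorem ur (i : ℕ) : UD (fun {_} _ U v => U (v i)) := ⟨.ur i, fun _ _ _ _ => Iff.rfl⟩

variable {P Q : ∀ {K : Type}, (K → K → Prop) → (K → Prop) → (ℕ → K) → Prop}

theorem imp (h1 : UD P) (h2 : UD Q) : UD (fun {_} E U v => P E U v → Q E U v) := by
  obtain ⟨φ, hφ⟩ := h1
  obtain ⟨ψ, hψ⟩ := h2
  exact ⟨.imp φ ψ, fun K E U v => imp_congr (hφ K E U v) (hψ K E U v)⟩

theorem not (h1 : UD P) : UD (fun {_} E U v => ¬ P E U v) := by
  obtain ⟨φ, hφ⟩ := h1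
  exact ⟨.imp φ .bot, fun K E U v => imp_congr (hφ K E U v) Iff.rfl⟩

theorem congr (h1 : UD P)
    (h : ∀ (K : Type) (E : K → K → Prop) (U : K → Prop) (v : ℕ → K), Q E U v ↔ P E U v) :
    UD Q := by
  obtain ⟨φ, hφ⟩ := h1
  exact ⟨φ, fun K E U v => (h K E U v).trans (hφ K E U v)⟩

theorem and (h1 : UD P) (h2 : UD Q) : UD (fun {_} E U v => P E U v ∧ Q E U v) :=
  congr (not (imp h1 (not h2))) (fun K E U v => by tauto)

theorem or (h1 : UD P) (h2 : UD Q) : UD (fun {_} E U v => P E U v ∨ Q E U v) :=
  congr (imp (not h1) h2) (fun K E U v => by tauto)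

theorem iff (h1 : UD P) (h2 : UD Q) : UD (fun {_} E U v => P E U v ↔ Q E U v) :=
  congr (and (imp h1 h2) (imp h2 h1)) (fun K E U v => by tauto)

theorem all {P : ∀ {K : Type}, (K → K → Prop) → (K → Prop) → (ℕ → K) → K → Prop}
    (h : UD (fun {_} E U v => P E U (fun n => v (n + 1)) (v 0))) :
    UD (fun {_} E U v => ∀ a, P E U v a) := by
  obtain ⟨φ, hφ⟩ := h
  refine ⟨.all φ, fun K E U v => forall_congr' fun a => ?_⟩
  exact hφ K E U (cons a v)

theorem ex {P : ∀ {K : Type}, (K → K → Prop) → (K → Prop) → (ℕ → K) → K → Prop}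
    (h : UD (fun {_} E U v => P E U (fun n => v (n + 1)) (v 0))) :
    UD (fun {_} E U v => ∃ a, P E U v a) := by
  have h' : UD (fun {_} E U v => ∀ a, ¬ P E U v a) :=
    all (P := fun {_} E U v a => ¬ P E U v a) (not h)
  exact congr (not h') (fun K E U v => by push Not; exact Iff.rfl)

theorem sat (φ : Fml) (f : ℕ → ℕ) : UD (fun {_} E U v => Sat E U φ (fun n => v (f n))) :=
  ⟨frename f φ, fun K E U v => (fsat_rename φ f v).symm⟩

end UD


theorem ud_isPair (i j k : ℕ) : UD (fun {_} E _ v => IsPair E (v i) (v j) (v k)) := by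
  unfold IsPair
  repeat' (first | exact UD.mem _ _ | exact UD.eq _ _ | exact UD.ur _ | with_reducible apply UD.and | with_reducible apply UD.or | with_reducible apply UD.iff | with_reducible apply UD.not | with_reducible apply UD.imp | with_reducible apply UD.ex | with_reducible apply UD.all)

theorem ud_isSucc (i j : ℕ) : UD (fun {_} E _ v => IsSucc E (v i) (v j)) := by
  unfold IsSucc
  repeat' (first | exact UD.mem _ _ | exact UD.eq _ _ | exact UD.ur _ | with_reducible apply UD.and | with_reducible apply UD.or | with_reducible apply UD.iff | with_reducible apply UD.not | with_reducible apply UD.imp | with_reducible apply UD.ex | with_reducible apply UD.all)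

/-- `j` is an elementary embedding of the induced structure -/
def Elem {K0 : Type} (E : K → K → Prop) (U : K → Prop) (j : K0 → K) : Prop :=
  ∀ (φ : Fml) (v : ℕ → K0), Sat (fun a b => E (j a) (j b)) (fun a => U (j a)) φ v ↔
    Sat E U φ (fun n => j (v n))

theorem Elem.transfer {K0 : Type} {j : K0 → K} (h : Elem E U j)
    {R : ∀ {K : Type}, (K → K → Prop) → (K → Prop) → (ℕ → K) → Prop} (hR : UD R)
    (v : ℕ → K0) : R (fun a b => E (j a) (j b)) (fun a => U (j a)) v ↔
      R E U (fun n => j (v n)) := by
  obtain ⟨φ, hφ⟩ := hR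
  exact (hφ _ _ _ _).trans ((h φ v).trans (hφ _ _ _ _).symm)

theorem Elem.zfcu {K0 : Type} [Nonempty K0] {j : K0 → K} (h : Elem E U j) (hz : ZFCU E U) :
    ZFCU (fun a b => E (j a) (j b)) (fun a => U (j a)) := by
  let v0 : ℕ → K0 := fun _ => Classical.arbitrary K0
  refine { urel := ?_, ext := ?_, foundation := ?_, pairing := ?_, union := ?_, power := ?_,
           infinity := ?_, choice := ?_, separation := ?_, replacement := ?_ }
  · exact (h.transfer (R := fun {_} E U _ => ∀ x, U x → ∀ y, ¬ E y x) (by repeat' (first | exact UD.mem _ _ | exact UD.eq _ _ | exact UD.ur _ | with_reducible apply UD.and | with_reducible apply UD.or | with_reducible apply UD.iff | with_reducible apply UD.not | with_reducible apply UD.imp | with_reducible apply UD.ex | with_reducible apply UD.all)) v0).2 hz.urel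
  · exact (h.transfer (R := fun {_} E U _ => ∀ x y, ¬ U x → ¬ U y → (∀ z, E z x ↔ E z y) →
      x = y) (by repeat' (first | exact UD.mem _ _ | exact UD.eq _ _ | exact UD.ur _ | with_reducible apply UD.and | with_reducible apply UD.or | with_reducible apply UD.iff | with_reducible apply UD.not | with_reducible apply UD.imp | with_reducible apply UD.ex | with_reducible apply UD.all)) v0).2 hz.ext
  · exact (h.transfer (R := fun {_} E U _ => ∀ x, (∃ y, E y x) → ∃ y, E y x ∧
      ∀ z, E z y → ¬ E z x) (by repeat' (first | exact UD.mem _ _ | exact UD.eq _ _ | exact UD.ur _ | with_reducible apply UD.and | with_reducible apply UD.or | with_reducible apply UD.iff | with_reducible apply UD.not | with_reducible apply UD.imp | with_reducible apply UD.ex | with_reducible apply UD.all)) v0).2 hz.foundation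
  · exact (h.transfer (R := fun {_} E U _ => ∀ x y, ∃ z, ∀ w, E w z ↔ (w = x ∨ w = y))
      (by repeat' (first | exact UD.mem _ _ | exact UD.eq _ _ | exact UD.ur _ | with_reducible apply UD.and | with_reducible apply UD.or | with_reducible apply UD.iff | with_reducible apply UD.not | with_reducible apply UD.imp | with_reducible apply UD.ex | with_reducible apply UD.all)) v0).2 hz.pairing
  · exact (h.transfer (R := fun {_} E U _ => ∀ x, ∃ u, ¬ U u ∧ ∀ z, E z u ↔
      ∃ y, E y x ∧ E z y) (by repeat' (first | exact UD.mem _ _ | exact UD.eq _ _ | exact UD.ur _ | with_reducible apply UD.and | with_reducible apply UD.or | with_reducible apply UD.iff | with_reducible apply UD.not | with_reducible apply UD.imp | with_reducible apply UD.ex | with_reducible apply UD.all)) v0).2 hz.union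
  · exact (h.transfer (R := fun {_} E U _ => ∀ x, ∃ p, ¬ U p ∧ ∀ z, E z p ↔
      (¬ U z ∧ ∀ w, E w z → E w x)) (by repeat' (first | exact UD.mem _ _ | exact UD.eq _ _ | exact UD.ur _ | with_reducible apply UD.and | with_reducible apply UD.or | with_reducible apply UD.iff | with_reducible apply UD.not | with_reducible apply UD.imp | with_reducible apply UD.ex | with_reducible apply UD.all)) v0).2 hz.power
  · refine (h.transfer (R := fun {_} E U _ => ∃ x, (∃ e, E e x ∧ ¬ U e ∧ ∀ z, ¬ E z e) ∧
      ∀ y, E y x → ∃ z, E z x ∧ IsSucc E y z) ?_ v0).2 hz.infinity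
    repeat' (first | exact UD.mem _ _ | exact UD.eq _ _ | exact UD.ur _ | with_reducible apply UD.and | with_reducible apply UD.or | with_reducible apply UD.iff | with_reducible apply UD.not | with_reducible apply UD.imp | with_reducible apply UD.ex | with_reducible apply UD.all)
    exact ud_isSucc _ _
  · refine (h.transfer (R := fun {_} E U _ => ∀ a, (∀ x, E x a → ∃ y, E y x) → ∃ f, ¬ U f ∧
      (∀ p, E p f → ∃ x y, IsPair E p x y) ∧
      ∀ x, E x a → ∃ y, E y x ∧ ∀ z, (∃ p, E p f ∧ IsPair E p x z) ↔ z = y) ?_ v0).2 hz.choice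
    repeat' (first | exact UD.mem _ _ | exact UD.eq _ _ | exact UD.ur _ | with_reducible apply UD.and | with_reducible apply UD.or | with_reducible apply UD.iff | with_reducible apply UD.not | with_reducible apply UD.imp | with_reducible apply UD.ex | with_reducible apply UD.all)
    all_goals exact ud_isPair _ _ _
  · intro φ v a
    refine (h.transfer (R := fun {_} E U w => ∃ b, ¬ U b ∧ ∀ x, E x b ↔
      (E x (w 0) ∧ Sat E U φ (cons x (fun n => w (n + 1))))) ?_ (cons a v)).2
      (hz.separation φ (fun n => j (v n)) (j a))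
    repeat' (first | exact UD.mem _ _ | exact UD.eq _ _ | exact UD.ur _ | with_reducible apply UD.and | with_reducible apply UD.or | with_reducible apply UD.iff | with_reducible apply UD.not | with_reducible apply UD.imp | with_reducible apply UD.ex | with_reducible apply UD.all)
    refine UD.congr (UD.sat φ (fun n => if n = 0 then 0 else n + 2)) ?_
    intro K E U v
    have : (fun n => v (if n = 0 then 0 else n + 2)) = cons (v 0) (fun n => v (n + 1 + 1 + 1)) := by
      funext n
      cases n <;> rfl
    rw [this]
  · intro φ v a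
    have hrep := (h.transfer (R := fun {_} E U w => (∀ x, E x (w 0) → ∃ y,
      Sat E U φ (cons x (cons y (fun n => w (n + 1)))) ∧
      ∀ y', Sat E U φ (cons x (cons y' (fun n => w (n + 1)))) → y' = y) →
      ∃ b, ¬ U b ∧ ∀ y, E y b ↔ ∃ x, E x (w 0) ∧
        Sat E U φ (cons x (cons y (fun n => w (n + 1))))) ?_ (cons a v)).2
      (hz.replacement φ (fun n => j (v n)) (j a))
    · exact hrep
    repeat' (first | exact UD.mem _ _ | exact UD.eq _ _ | exact UD.ur _ | with_reducible apply UD.and | with_reducible apply UD.or | with_reducible apply UD.iff | with_reducible apply UD.not | with_reducible apply UD.imp | with_reducible apply UD.ex | with_reducible apply UD.all)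
    · refine UD.congr (UD.sat φ (fun n => if n = 0 then 1 else if n = 1 then 0 else n + 1)) ?_
      intro K E U v
      have : (fun n => v (if n = 0 then 1 else if n = 1 then 0 else n + 1)) =
          cons (v (0 + 1)) (cons (v 0) (fun n => v (n + 1 + 1 + 1))) := by
        funext n
        match n with
        | 0 => rfl
        | 1 => rfl
        | n + 2 => rfl
      rw [this]
    · refine UD.congr (UD.sat φ (fun n => if n = 0 then 2 else if n = 1 then 0 else n + 2)) ?_
      intro K E U v
      have : (fun n => v (if n = 0 then 2 else if n = 1 then 0 else n + 2)) =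
          cons (v (0 + 1 + 1)) (cons (v 0) (fun n => v (n + 1 + 1 + 1 + 1))) := by
        funext n
        match n with
        | 0 => rfl
        | 1 => rfl
        | n + 2 => rfl
      rw [this]
    · refine UD.congr (UD.sat φ (fun n => if n = 0 then 0 else if n = 1 then 1 else n + 2)) ?_
      intro K E U v
      have : (fun n => v (if n = 0 then 0 else if n = 1 then 1 else n + 2)) =
          cons (v 0) (cons (v (0 + 1)) (fun n => v (n + 1 + 1 + 1 + 1))) := by
        funext n
        match n with
        | 0 => rfl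
        | 1 => rfl
        | n + 2 => rfl
      rw [this]

/-! ### the countable hull -/

open Classical in
/-- a witness for the failure of a universal formula -/
noncomputable def wit (E : K → K → Prop) (U : K → Prop) (k : K) (φ : Fml) (l : List K) : K :=
  if h : ∃ a, ¬ Sat E U φ (cons a (fun n => l.getD n k)) then h.choose else k

def hull (E : K → K → Prop) (U : K → Prop) (k : K) (s : Set K) : ℕ → Set K
  | 0 => insert k s
  | n + 1 => hull E U k s n ∪
      {x | ∃ (φ : Fml) (l : List K), (∀ y ∈ l, y ∈ hull E U k s n) ∧ x = wit E U k φ l}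

theorem hull_countable (k : K) (s : Set K) (hs : s.Countable) :
    ∀ n, (hull E U k s n).Countable := by
  intro n
  induction n with
  | zero => exact hs.insert k
  | succ n ih =>
    refine ih.union ?_
    have : Countable (hull E U k s n) := ih
    have h2 : ({x | ∃ (φ : Fml) (l : List K), (∀ y ∈ l, y ∈ hull E U k s n) ∧
        x = wit E U k φ l} : Set K) ⊆ Set.range
        (fun p : Fml × List (hull E U k s n) => wit E U k p.1 (p.2.map (fun y => y.1))) := by
      rintro x ⟨φ, l, hl, rfl⟩
      refine ⟨(φ, l.attach.map (fun y => ⟨y.1, hl y.1 y.2⟩)), ?_⟩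
      simp
    exact (Set.countable_range _).mono h2

theorem hull_mono (k : K) (s : Set K) {n m : ℕ} (h : n ≤ m) :
    hull E U k s n ⊆ hull E U k s m := by
  induction m, h using Nat.le_induction with
  | base => exact subset_rfl
  | succ m _ ih => exact ih.trans Set.subset_union_left

theorem hull_elem (k : K) (s : Set K) :
    Elem E U (fun a : (⋃ n, hull E U k s n : Set K) => a.1) := by
  intro φ
  induction φ with
  | mem i j => intro v; exact Iff.rfl
  | eq i j => intro v; exact Subtype.ext_iff
  | ur i => intro v; exact Iff.rfl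
  | bot => intro v; exact Iff.rfl
  | imp φ ψ h1 h2 => intro v; exact imp_congr (h1 v) (h2 v)
  | all φ ih =>
    intro v
    have hc : ∀ a : (⋃ n, hull E U k s n : Set K), (fun n => (cons a v n).1) =
        cons a.1 (fun n => (v n).1) := by
      intro a
      funext n
      cases n <;> rfl
    constructor
    · intro h a
      by_contra hcon
      let N := bd (emb φ)
      let l : List K := (List.range N).map (fun n => (v n).1)
      have hl : ∀ n, n < N → (v n).1 = l.getD n k := by
        intro n hn
        rw [List.getD_eq_getElem?_getD, List.getElem?_map, List.getElem?_range hn]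
        rfl
      have hsub : ∀ b, Sat E U φ (cons b (fun n => (v n).1)) ↔
          Sat E U φ (cons b (fun n => l.getD n k)) := by
        intro b
        apply fsat_congr
        intro n hn
        cases n with
        | zero => rfl
        | succ n => exact hl n (by change n < bd (emb φ); omega)
      have hex : ∃ a, ¬ Sat E U φ (cons a (fun n => l.getD n k)) :=
        ⟨a, fun h' => hcon ((hsub a).2 h')⟩
      have hw : ¬ Sat E U φ (cons (wit E U k φ l) (fun n => l.getD n k)) := by
        unfold wit
        rw [dif_pos hex]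
        exact hex.choose_spec
      -- all the entries of l lie in one stage
      have hstage : ∃ m, ∀ y ∈ l, y ∈ hull E U k s m := by
        have h1 : ∀ n, ∃ m, (v n).1 ∈ hull E U k s m := fun n => Set.mem_iUnion.1 (v n).2
        choose m hm using h1
        refine ⟨(Finset.range N).sup m, ?_⟩
        intro y hy
        obtain ⟨n, hn, rfl⟩ := List.mem_map.1 hy
        exact hull_mono k s (Finset.le_sup (f := m) (Finset.mem_range.2 (List.mem_range.1 hn)))
          (hm n)
      obtain ⟨m, hm⟩ := hstage
      have hwm : wit E U k φ l ∈ (⋃ n, hull E U k s n : Set K) :=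
        Set.mem_iUnion.2 ⟨m + 1, Or.inr ⟨φ, l, hm, rfl⟩⟩
      have := (ih (cons ⟨wit E U k φ l, hwm⟩ v)).1 (h ⟨wit E U k φ l, hwm⟩)
      rw [hc] at this
      exact hw ((hsub _).1 this)
    · intro h a
      rw [ih, hc]
      exact h a.1

/-- the downward Loewenheim-Skolem theorem -/
theorem skolem (hz : ZFCU E U) (v : ℕ → K) :
    ∃ (K0 : Type) (_ : Countable K0) (E0 : K0 → K0 → Prop) (U0 : K0 → Prop) (v0 : ℕ → K0),
      ZFCU E0 U0 ∧ ∀ φ, Sat E0 U0 φ v0 ↔ Sat E U φ v := by
  have hne : Nonempty K := ⟨v 0⟩
  let s : Set K := Set.range v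
  let H : Set K := ⋃ n, hull E U (v 0) s n
  have hvH : ∀ n, v n ∈ H := fun n => Set.mem_iUnion.2 ⟨0, Or.inr ⟨n, rfl⟩⟩
  have hcount : Countable H :=
    (Set.countable_iUnion fun n => hull_countable (v 0) s (Set.countable_range v) n)
  have : Nonempty H := ⟨⟨v 0, hvH 0⟩⟩
  have hel := hull_elem (E := E) (U := U) (v 0) s
  exact ⟨H, hcount, _, _, fun n => ⟨v n, hvH n⟩, hel.zfcu hz, fun φ => hel φ _⟩

end Pool.Agent.H83R3.GBU
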